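import Pool.Agent.Lib.MP_f46d6a_h64.Positive
import Pool.Agent.Lib.MP_f46d6a.Dyadic

/-!
# Removing a small hole
-/

set_option autoImplicit false

open MeasureTheory Set Filter Topology
open scoped ContDiff

namespace Pool.Agent.Lib.MP_f46d6a

open Pool.Agent.Lib.MP_dac83a

namespace M2

open M1

/-- product with a `C¹` function supported in a smaller set -/
theorem mul_C1_to {U V : Set P} (hV : IsOpen V) {u a b : P → ℝ} (h : H0 U u a b)
    {f : P → ℝ} (hf : ContDiff ℝ 1 f) {C : ℝ}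
    (h0 : ∀ z, |f z| ≤ C) (h1 : ∀ z, |dd ex f z| ≤ C) (h2 : ∀ z, |dd ey f z| ≤ C)
    (hs : U ∩ tsupport f ⊆ V) :
    H0 V (fun z => f z * u z) (fun z => f z * a z + dd ex f z * u z)
      (fun z => f z * b z + dd ey f z * u z) := by
  obtain ⟨φ, ht, c1, c2, c3⟩ := h.app
  have hfm : AEStronglyMeasurable f volume := hf.continuous.aestronglyMeasurable
  have hdm : ∀ v, AEStronglyMeasurable (dd v f) volume := fun v =>
    (dd_contDiff (m := 0) hf (by norm_num) v).continuous.aestronglyMeasurable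
  have p1 : Conv2 volume (fun n z => f z * φ n z) (fun z => f z * u z) :=
    c1.mul_fix hfm (by filter_upwards with z; exact h0 z)
  have hdf : Differentiable ℝ f := hf.differentiable (by norm_num)
  have pd : ∀ v, (∀ z, |dd v f z| ≤ C) → ∀ {e : P → ℝ}, Conv2 volume (fun n => dd v (φ n)) e →
      Conv2 volume (fun n => dd v (fun z => f z * φ n z)) (fun z => f z * e z + dd v f z * u z) := by
    intro v hv e ce
    have q1 := ce.mul_fix hfm (by filter_upwards with z; exact h0 z)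
    have q2 := c1.mul_fix (hdm v) (by filter_upwards with z; exact hv z)
    refine (q1.add q2).congr (fun n => ?_) EventuallyEq.rfl
    filter_upwards with z
    rw [H0.dd_mul' (hdf z) ((ht n).diffAt z)]
    ring
  have ht' : ∀ n, IsTest1 V (fun z => f z * φ n z) := by
    intro n
    refine ⟨hf.mul (ht n).isTest1.smooth, (ht n).cpt.mul_left, ?_⟩
    refine Subset.trans ?_ hs
    exact subset_inter ((tsupport_mul_subset_right).trans (ht n).sub) tsupport_mul_subset_left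
  exact H0.closed (fun n => H0.of_C1 hV (ht' n)) p1 (pd ex h1 c2) (pd ey h2 c3)

section kernel

variable {ρ R : ℝ} {x0 : P}

theorem vol_ball {x : P} {r : ℝ} (hr : 0 ≤ r) : vol (Metric.ball x r) = 4 * r ^ 2 := by
  have : Metric.ball x r = Metric.ball x.1 r ×ˢ Metric.ball x.2 r := (ball_prod_same x.1 x.2 r).symm
  unfold vol
  rw [this, Measure.volume_eq_prod, Measure.prod_prod, Real.volume_ball, Real.volume_ball,
    ENNReal.toReal_mul, ENNReal.toReal_ofReal (by positivity)]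
  ring

theorem ball_ne_top {x : P} {r : ℝ} : volume (Metric.ball x r) ≠ ⊤ :=
  Metric.isBounded_ball.measure_lt_top.ne

theorem gkt_en (hρ : 0 < ρ) (h : ρ ≤ R) (x0 : P) :
    ∫ z, (dd ex (fun z => gk ρ R (z - x0)) z ^ 2 + dd ey (fun z => gk ρ R (z - x0)) z ^ 2) ≤
      2 * Real.log (R / ρ) * mu0 := by
  simp only [dd_trans]
  rw [integral_sub_right_eq_self (fun z => dd ex (gk ρ R) z ^ 2 + dd ey (gk ρ R) z ^ 2) x0]
  exact gk_energy hρ h

theorem gkt_sq (hρ : 0 < ρ) (h : ρ ≤ R) (x0 : P) :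
    ∫ z, gk ρ R (z - x0) ^ 2 ≤ 8 * R ^ 2 * (2 * Real.log (R / ρ) * mu0) := by
  have hR : 0 < R := hρ.trans_le h
  have hsub : Metric.closedBall x0 R ⊆ Metric.ball x0 (2 * R) :=
    Metric.closedBall_subset_ball (by linarith)
  have h1 := (H0.of_C1 Metric.isOpen_ball (gkt_test' hρ h hsub)).poinc Metric.isOpen_ball
    ball_ne_top
  rw [vol_ball (by positivity)] at h1
  have h2 := mul_le_mul_of_nonneg_left (gkt_en hρ h x0) (show 0 ≤ 4 * (2 * R) ^ 2 by positivity)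
  nlinarith

theorem gkt_out (hρ : 0 < ρ) (h : ρ ≤ R) {z : P} (hz : z ∉ Metric.closedBall x0 R) :
    gk ρ R (z - x0) = 0 := by
  by_contra hc
  apply hz
  have h2 := gk_support hρ h (show z - x0 ∈ Function.support (gk ρ R) from hc)
  rw [Metric.mem_closedBall, dist_zero_right] at h2
  rw [Metric.mem_closedBall, dist_eq_norm]
  exact h2

theorem dd_gkt_out (hρ : 0 < ρ) (h : ρ ≤ R) {z : P} (hz : z ∉ Metric.closedBall x0 R) (v : P) :
    dd v (fun z => gk ρ R (z - x0)) z = 0 := by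
  apply dd_zero_of_notMem_tsupport
  intro hc
  apply hz
  refine closure_minimal ?_ Metric.isClosed_closedBall hc
  intro w hw
  by_contra hcc
  exact hw (gkt_out hρ h hcc)

/-- the cutoff vanishing near the hole -/
noncomputable def ct (ρ R : ℝ) (x0 z : P) : ℝ :=
  Lm (2 * Real.log (R / ρ) - 2 - gk ρ R (z - x0)) / Lm (2 * Real.log (R / ρ) - 2)

theorem ct_contDiff (hρ : 0 < ρ) (h : ρ ≤ R) : ContDiff ℝ 1 (ct ρ R x0) := by
  unfold ct
  exact (Lm_contDiff1.comp (contDiff_const.sub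
    ((gkt_contDiff hρ h x0).of_le (by norm_num)))).div_const _

theorem Lm_pos_aux (hL : 3 < 2 * Real.log (R / ρ)) :
    0 < 2 * Real.log (R / ρ) - 3 ∧ 2 * Real.log (R / ρ) - 3 ≤ Lm (2 * Real.log (R / ρ) - 2) := by
  have := Lm_ge (2 * Real.log (R / ρ) - 2)
  constructor <;> linarith

theorem ct_range (hρ : 0 < ρ) (h : ρ ≤ R) (hL : 3 < 2 * Real.log (R / ρ)) (z : P) :
    0 ≤ ct ρ R x0 z ∧ ct ρ R x0 z ≤ 1 ∧
      1 - ct ρ R x0 z ≤ gk ρ R (z - x0) / (2 * Real.log (R / ρ) - 3) := by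
  obtain ⟨h1, h2⟩ := Lm_pos_aux hL
  have h3 : 0 < Lm (2 * Real.log (R / ρ) - 2) := h1.trans_le h2
  have hg := gk_nonneg hρ h (z - x0)
  have h4 := Lm_nonneg (2 * Real.log (R / ρ) - 2 - gk ρ R (z - x0))
  have h5 := Lm_mono (show 2 * Real.log (R / ρ) - 2 - gk ρ R (z - x0) ≤ 2 * Real.log (R / ρ) - 2 by
    linarith)
  have h6 := Lm_sub_le (show 2 * Real.log (R / ρ) - 2 - gk ρ R (z - x0) ≤
    2 * Real.log (R / ρ) - 2 by linarith)
  unfold ct
  refine ⟨div_nonneg h4 h3.le, (div_le_one h3).2 h5, ?_⟩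
  calc 1 - Lm (2 * Real.log (R / ρ) - 2 - gk ρ R (z - x0)) / Lm (2 * Real.log (R / ρ) - 2)
      = (Lm (2 * Real.log (R / ρ) - 2) - Lm (2 * Real.log (R / ρ) - 2 - gk ρ R (z - x0))) /
        Lm (2 * Real.log (R / ρ) - 2) := by rw [sub_div, div_self h3.ne']
    _ ≤ gk ρ R (z - x0) / Lm (2 * Real.log (R / ρ) - 2) := by
        apply div_le_div_of_nonneg_right _ h3.le
        linarith
    _ ≤ gk ρ R (z - x0) / (2 * Real.log (R / ρ) - 3) := div_le_div_of_nonneg_left hg h1 h2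

theorem ct_dd (hρ : 0 < ρ) (h : ρ ≤ R) (v z : P) : dd v (ct ρ R x0) z =
    -(Lm' (2 * Real.log (R / ρ) - 2 - gk ρ R (z - x0)) / Lm (2 * Real.log (R / ρ) - 2)) *
      dd v (fun z => gk ρ R (z - x0)) z := by
  have hF : ∀ s : ℝ, HasDerivAt (fun s => Lm (2 * Real.log (R / ρ) - 2 - s) /
      Lm (2 * Real.log (R / ρ) - 2))
      (-(Lm' (2 * Real.log (R / ρ) - 2 - s) / Lm (2 * Real.log (R / ρ) - 2))) s := by
    intro s
    have h1 := (Lm_hasDeriv (2 * Real.log (R / ρ) - 2 - s)).comp s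
      ((hasDerivAt_id s).const_sub (2 * Real.log (R / ρ) - 2))
    have h2 := h1.div_const (Lm (2 * Real.log (R / ρ) - 2))
    refine h2.congr_deriv ?_
    ring
  have hd : DifferentiableAt ℝ (fun z => gk ρ R (z - x0)) z :=
    (gkt_contDiff hρ h x0).differentiable (by norm_num) z
  have := dd_comp (F := fun s => Lm (2 * Real.log (R / ρ) - 2 - s) /
      Lm (2 * Real.log (R / ρ) - 2)) (f := fun z => gk ρ R (z - x0)) (z := z)
      (hF _).differentiableAt hd v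
  rw [(hF _).deriv] at this
  exact this

theorem ct_dd_sq (hρ : 0 < ρ) (h : ρ ≤ R) (hL : 3 < 2 * Real.log (R / ρ)) (v z : P) :
    dd v (ct ρ R x0) z ^ 2 ≤
      dd v (fun z => gk ρ R (z - x0)) z ^ 2 / (2 * Real.log (R / ρ) - 3) ^ 2 := by
  obtain ⟨h1, h2⟩ := Lm_pos_aux hL
  have h3 : 0 < Lm (2 * Real.log (R / ρ) - 2) := h1.trans_le h2
  rw [ct_dd hρ h, mul_pow, neg_sq, div_pow, div_mul_eq_mul_div]
  have a1 := Lm'_nonneg (2 * Real.log (R / ρ) - 2 - gk ρ R (z - x0))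
  have a2 := Lm'_le_one (2 * Real.log (R / ρ) - 2 - gk ρ R (z - x0))
  have a3 : Lm' (2 * Real.log (R / ρ) - 2 - gk ρ R (z - x0)) ^ 2 ≤ 1 := pow_le_one₀ a1 a2
  apply div_le_div₀ (sq_nonneg _) _ (by positivity) (pow_le_pow_left₀ h1.le h2 2)
  exact mul_le_of_le_one_left (sq_nonneg _) a3

/-- the hole -/
def hl (ρ : ℝ) (x0 : P) : Set P := {z | r2 (z - x0) ≤ ρ ^ 2}

theorem hl_closed : IsClosed (hl ρ x0) :=
  isClosed_le (r2_cont.comp (by fun_prop)) continuous_const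

theorem hl_compact (hρ : 0 < ρ) : IsCompact (hl ρ x0) := by
  apply Metric.isCompact_of_isClosed_isBounded hl_closed
  refine (Metric.isBounded_closedBall (x := x0) (r := ρ)).subset ?_
  intro z hz
  rw [Metric.mem_closedBall, dist_eq_norm]
  have h1 := norm_sq_le_r2 (z - x0)
  have h2 : r2 (z - x0) ≤ ρ ^ 2 := hz
  exact abs_le_of_sq_le_sq' (h1.trans h2) hρ.le |>.2

theorem ct_supp (hρ : 0 < ρ) (h : ρ ≤ R) {U : Set P} :
    U ∩ tsupport (ct ρ R x0) ⊆ U \ hl ρ x0 := by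
  rintro z ⟨hz, hz'⟩
  refine ⟨hz, fun hK => ?_⟩
  have h1 : tsupport (ct ρ R x0) ⊆ {z | gk ρ R (z - x0) ≤ 2 * Real.log (R / ρ) - 2} := by
    apply closure_minimal
    · intro w hw
      by_contra hc
      apply hw
      simp only [mem_ofPred_eq, not_le] at hc
      unfold ct
      rw [Lm_of_nonpos (by linarith), zero_div]
    · exact isClosed_le (gkt_contDiff hρ h x0).continuous continuous_const
  have h2 : gk ρ R (z - x0) ≤ 2 * Real.log (R / ρ) - 2 := h1 hz'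
  have h3 := gk_lower hρ h (z := z - x0) hK
  linarith

end kernel

/-! ## The torsion of the perforated set -/

theorem tor_hole {Ω : Set P} (hΩ : IsOpen Ω) (hf : volume Ω ≠ ⊤) {w wx wy : P → ℝ}
    (ht : Tor Ω w wx wy) (hT : torP Ω = ∫ z, w z) {x0 : P} {ρ R M : ℝ} (hρ : 0 < ρ) (h : ρ ≤ R)
    (hL : 3 < 2 * Real.log (R / ρ)) (hM : 0 ≤ M)
    (hw : ∀ᵐ z, z ∈ Metric.closedBall x0 R → w z ≤ M) :
    torP Ω - (M ^ 2 + 8 * R ^ 2 * M) * (2 * Real.log (R / ρ) * mu0) /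
      (2 * Real.log (R / ρ) - 3) ^ 2 ≤ torP (Ω \ hl ρ x0) := by
  obtain ⟨hL1, hL2⟩ := Lm_pos_aux hL
  set L := 2 * Real.log (R / ρ) with hLdef
  set η := ct ρ R x0 with hη
  set g : P → ℝ := fun z => gk ρ R (z - x0) with hg
  have hcd : ContDiff ℝ 1 η := ct_contDiff hρ h
  have hgt : IsTest1 univ g := gkt_test hρ h x0
  obtain ⟨C0, hC0, hCg, hCx, hCy⟩ := hgt.bdd
  -- bounds of the cutoff
  have hη0 : ∀ z, 0 ≤ η z := fun z => (ct_range hρ h hL z).1
  have hη1 : ∀ z, η z ≤ 1 := fun z => (ct_range hρ h hL z).2.1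
  have hη2 : ∀ z, 1 - η z ≤ g z / (L - 3) := fun z => (ct_range hρ h hL z).2.2
  set C := max 1 (C0 / (L - 3)) with hC
  have hηb : ∀ z, |η z| ≤ C := fun z => by
    rw [abs_of_nonneg (hη0 z)]
    exact (hη1 z).trans (le_max_left _ _)
  have hdb : ∀ v z, dd v η z ^ 2 ≤ dd v g z ^ 2 / (L - 3) ^ 2 := fun v z => ct_dd_sq hρ h hL v z
  have hdbs : ∀ v z, |dd v g z| ≤ C0 → |dd v η z| ≤ C := by
    intro v z hz
    have h1 : |dd v η z| ≤ C0 / (L - 3) := by
      apply abs_le_of_sq_le_sq _ (by positivity)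
      rw [div_pow]
      refine (hdb v z).trans ?_
      apply div_le_div_of_nonneg_right _ (by positivity)
      rw [← sq_abs]
      exact pow_le_pow_left₀ (abs_nonneg _) hz 2
    exact h1.trans (le_max_right _ _)
  have hbx : ∀ z, |dd ex η z| ≤ C := fun z => hdbs ex z (hCx z)
  have hby : ∀ z, |dd ey η z| ≤ C := fun z => hdbs ey z (hCy z)
  have hV : IsOpen (Ω \ hl ρ x0) := hΩ.sdiff hl_closed
  have hVf : volume (Ω \ hl ρ x0) ≠ ⊤ := ((measure_mono sdiff_subset).trans_lt hf.lt_top).ne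
  have H1 := mul_C1_to hV ht.mem hcd hηb hbx hby (ct_supp hρ h)
  have H2 := ht.mem.mul_C1 hΩ hcd hηb hbx hby
  have H3 := H2.mul_C1 hΩ hcd hηb hbx hby
  have e1 := ht.eq _ _ _ H3
  have J := H1.le_torP hV hVf
  have mη : AEStronglyMeasurable η volume := hcd.continuous.aestronglyMeasurable
  have mηd : ∀ v, AEStronglyMeasurable (dd v η) volume := fun v =>
    (dd_contDiff (m := 0) hcd (by norm_num) v).continuous.aestronglyMeasurable
  have m1 : MemLp (fun z => dd ex η z * w z) 2 volume := by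
    refine (ht.mem.mu.const_mul C).of_le ((mηd ex).mul ht.mem.mu.aestronglyMeasurable) ?_
    filter_upwards with z
    rw [norm_mul, norm_mul]
    exact mul_le_mul_of_nonneg_right ((hbx z).trans (le_abs_self _)) (norm_nonneg _)
  have m2 : MemLp (fun z => dd ey η z * w z) 2 volume := by
    refine (ht.mem.mu.const_mul C).of_le ((mηd ey).mul ht.mem.mu.aestronglyMeasurable) ?_
    filter_upwards with z
    rw [norm_mul, norm_mul]
    exact mul_le_mul_of_nonneg_right ((hby z).trans (le_abs_self _)) (norm_nonneg _)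
  have i3 : Integrable (fun z => (dd ex η z * w z) ^ 2 + (dd ey η z * w z) ^ 2) :=
    m1.integrable_sq.add m2.integrable_sq
  have i4 := int_en2 ht.mem H3
  have e2 : ∫ z, ((η z * wx z + dd ex η z * w z) ^ 2 + (η z * wy z + dd ey η z * w z) ^ 2) =
      (∫ z, η z * (η z * w z)) + ∫ z, ((dd ex η z * w z) ^ 2 + (dd ey η z * w z) ^ 2) := by
    rw [← e1, ← integral_add i4 i3]
    congr 1
    ext z
    ring
  rw [e2] at J
  have iw : Integrable w := (ht.mem.integrable_all hΩ hf).1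
  have i5 : Integrable (fun z => η z * w z) := (H2.integrable_all hΩ hf).1
  have i6 : Integrable (fun z => η z * (η z * w z)) := (H3.integrable_all hΩ hf).1
  have i7 : Integrable (fun z => w z * (1 - η z) ^ 2) := by
    refine ((iw.sub (i5.const_mul 2)).add i6).congr ?_
    filter_upwards with z
    simp only [Pi.add_apply, Pi.sub_apply]
    ring
  have e3 : ∫ z, w z * (1 - η z) ^ 2 =
      (∫ z, w z) - 2 * (∫ z, η z * w z) + ∫ z, η z * (η z * w z) := by
    have := int3 iw i5 i6 1 (-2) 1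
    rw [show (∫ z, w z) - 2 * (∫ z, η z * w z) + ∫ z, η z * (η z * w z) =
      1 * (∫ z, w z) + -2 * (∫ z, η z * w z) + 1 * ∫ z, η z * (η z * w z) by ring, ← this]
    congr 1
    ext z
    ring
  -- the two error terms
  have ig : Integrable (fun z => g z ^ 2) := hgt.memLp.integrable_sq
  have igd : Integrable (fun z => dd ex g z ^ 2 + dd ey g z ^ 2) :=
    (hgt.dd_memLp ex).integrable_sq.add (hgt.dd_memLp ey).integrable_sq
  have b1 : ∫ z, w z * (1 - η z) ^ 2 ≤ M * (8 * R ^ 2 * (L * mu0)) / (L - 3) ^ 2 := by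
    calc ∫ z, w z * (1 - η z) ^ 2 ≤ ∫ z, (M / (L - 3) ^ 2) * g z ^ 2 := by
          apply integral_mono_ae i7 (ig.const_mul _)
          filter_upwards [hw, ht.nonneg] with z z1 z2
          show w z * (1 - η z) ^ 2 ≤ M / (L - 3) ^ 2 * g z ^ 2
          have c1 : 0 ≤ 1 - η z := by linarith [hη1 z]
          have c2 : (1 - η z) ^ 2 ≤ g z ^ 2 / (L - 3) ^ 2 := by
            rw [← div_pow]; exact pow_le_pow_left₀ c1 (hη2 z) 2
          by_cases hz : z ∈ Metric.closedBall x0 R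
          · calc w z * (1 - η z) ^ 2 ≤ M * (g z ^ 2 / (L - 3) ^ 2) :=
                mul_le_mul (z1 hz) c2 (sq_nonneg _) hM
              _ = M / (L - 3) ^ 2 * g z ^ 2 := by ring
          · have c3 : g z = 0 := gkt_out hρ h hz
            rw [c3] at c2
            have c4 : (1 - η z) ^ 2 ≤ 0 := by simpa using c2
            have c5 : (1 - η z) ^ 2 = 0 := le_antisymm c4 (sq_nonneg _)
            rw [c5, c3]; simp
      _ = (M / (L - 3) ^ 2) * ∫ z, g z ^ 2 := integral_const_mul _ _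
      _ ≤ (M / (L - 3) ^ 2) * (8 * R ^ 2 * (L * mu0)) := by
          apply mul_le_mul_of_nonneg_left (gkt_sq hρ h x0) (by positivity)
      _ = M * (8 * R ^ 2 * (L * mu0)) / (L - 3) ^ 2 := by ring
  have b2 : ∫ z, ((dd ex η z * w z) ^ 2 + (dd ey η z * w z) ^ 2) ≤
      M ^ 2 * (L * mu0) / (L - 3) ^ 2 := by
    calc ∫ z, ((dd ex η z * w z) ^ 2 + (dd ey η z * w z) ^ 2)
        ≤ ∫ z, (M ^ 2 / (L - 3) ^ 2) * (dd ex g z ^ 2 + dd ey g z ^ 2) := by
          apply integral_mono_ae i3 (igd.const_mul _)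
          filter_upwards [hw, ht.nonneg] with z z1 z2
          show (dd ex η z * w z) ^ 2 + (dd ey η z * w z) ^ 2 ≤
            M ^ 2 / (L - 3) ^ 2 * (dd ex g z ^ 2 + dd ey g z ^ 2)
          have key : ∀ v, (dd v η z * w z) ^ 2 ≤ M ^ 2 / (L - 3) ^ 2 * dd v g z ^ 2 := by
            intro v
            by_cases hz : z ∈ Metric.closedBall x0 R
            · rw [mul_pow]
              calc dd v η z ^ 2 * w z ^ 2 ≤ (dd v g z ^ 2 / (L - 3) ^ 2) * M ^ 2 :=
                    mul_le_mul (hdb v z) (pow_le_pow_left₀ z2 (z1 hz) 2) (sq_nonneg _)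
                      (by positivity)
                _ = M ^ 2 / (L - 3) ^ 2 * dd v g z ^ 2 := by ring
            · have c3 : dd v g z = 0 := dd_gkt_out hρ h hz v
              have c4 := hdb v z
              rw [c3] at c4
              have c5 : dd v η z ^ 2 ≤ 0 := by simpa using c4
              have c6 : dd v η z ^ 2 = 0 := le_antisymm c5 (sq_nonneg _)
              rw [mul_pow, c6, c3]; simp
          have k1 := key ex
          have k2 := key ey
          linarith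
      _ = (M ^ 2 / (L - 3) ^ 2) * ∫ z, (dd ex g z ^ 2 + dd ey g z ^ 2) := integral_const_mul _ _
      _ ≤ (M ^ 2 / (L - 3) ^ 2) * (L * mu0) := by
          apply mul_le_mul_of_nonneg_left (gkt_en hρ h x0) (by positivity)
      _ = M ^ 2 * (L * mu0) / (L - 3) ^ 2 := by ring
  rw [hT]
  have e4 : (M ^ 2 + 8 * R ^ 2 * M) * (L * mu0) / (L - 3) ^ 2 =
      M * (8 * R ^ 2 * (L * mu0)) / (L - 3) ^ 2 + M ^ 2 * (L * mu0) / (L - 3) ^ 2 := by ring
  rw [e4]
  linarith

/-! ## The first eigenvalue of the perforated set -/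

theorem abs_int_mul_le {f g : P → ℝ} (hf : MemLp f 2 volume) (hg : MemLp g 2 volume) :
    |∫ z, f z * g z| ≤ √(∫ z, f z ^ 2) * √(∫ z, g z ^ 2) := by
  refine (abs_integral_le_integral_abs).trans ?_
  have := cauchy_schwarz hf hg
  simpa only [abs_mul] using this

theorem mker_sq_le {R : ℝ} (hR : 0 < R) (x0 : P) :
    ∫ z, mker R (z - x0) ^ 2 ≤ 24 * mu0 / R ^ 2 := by
  have i1 := mkert_int hR x0
  calc ∫ z, mker R (z - x0) ^ 2 ≤ ∫ z, 24 / R ^ 2 * mker R (z - x0) := by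
        apply integral_mono (mkert_memLp hR x0).integrable_sq (i1.const_mul _)
        intro z
        show mker R (z - x0) ^ 2 ≤ 24 / R ^ 2 * mker R (z - x0)
        rw [sq]
        exact mul_le_mul_of_nonneg_right (mk_le hR _) (mk_nonneg _ _)
    _ = 24 / R ^ 2 * mu0 := by rw [integral_const_mul, mkert_mass hR]
    _ = 24 * mu0 / R ^ 2 := by ring

theorem mker_supp_hl {ρ : ℝ} (hρ : 0 < ρ) {x0 z : P} (hz : z ∉ hl ρ x0) : mker ρ (z - x0) = 0 := by
  apply mk_zero_out hρ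
  by_contra hc
  apply hz
  show r2 (z - x0) ≤ ρ ^ 2
  exact (not_le.1 hc).le

theorem lam_key {Ω : Set P} (hΩ : IsOpen Ω) {γ : ℝ} (hγ : 0 < γ)
    {φ φx φy : P → ℝ} (he : Eigf Ω 1 φ φx φy) (hn : ∫ z, φ z ^ 2 = 1)
    (hgap : ∀ v a b, H0 Ω v a b → ∫ z, v z * φ z = 0 →
      (1 + γ) * ∫ z, v z ^ 2 ≤ ∫ z, (a z ^ 2 + b z ^ 2)) (hl1 : lamP Ω = 1)
    {x0 : P} {ρ R m : ℝ} (hρ : 0 < ρ) (h : ρ ≤ R) (hR : Metric.closedBall x0 R ⊆ Ω)
    (hL : 3 < 2 * Real.log (R / ρ)) (hm : 0 ≤ m)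
    (hφ : ∀ᵐ z, z ∈ Metric.closedBall x0 R → m ≤ φ z) {u ux uy : P → ℝ}
    (hu : H0 (Ω \ hl ρ x0) u ux uy) (hu1 : ∫ z, u z ^ 2 = 1) :
    1 + (mu0 * m ^ 2 / (2 * Real.log (R / ρ))) * (1 - mu0 * m ^ 2 / (γ * (2 * Real.log (R / ρ)))
      - 2 * R * √(8 / γ) - (2 / R) * √(24 / (γ * (2 * Real.log (R / ρ))))) ≤
      ∫ z, (ux z ^ 2 + uy z ^ 2) := by
  set L := 2 * Real.log (R / ρ) with hLdef
  have hL0 : 0 < L := by linarith
  have hR0 : 0 < R := hρ.trans_le h
  have hmu := mu0_pos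
  have hu' : H0 Ω u ux uy := hu.mono sdiff_subset
  set g : P → ℝ := fun z => gk ρ R (z - x0) with hg
  have hgt : IsTest1 Ω g := gkt_test' hρ h hR
  have hgH := H0.of_C1 hΩ hgt
  set c := ∫ z, u z * φ z with hc
  have hvH := he.mem.comb hu' c (-1)
  set E := ∫ z, (ux z ^ 2 + uy z ^ 2) with hE
  -- basic identities
  have eφφ : ∫ z, (φx z ^ 2 + φy z ^ 2) = 1 := by
    have := he.eq _ _ _ he.mem
    rw [one_mul] at this
    have e1 : ∫ z, φ z * φ z = 1 := by rw [← hn]; congr 1; ext z; ring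
    rw [e1] at this
    rw [← this]; congr 1; ext z; ring
  have cφ : ∫ z, φ z * u z = c := by rw [hc]; congr 1; ext z; ring
  have eφu : ∫ z, (φx z * ux z + φy z * uy z) = c := by
    have := he.eq _ _ _ hu'
    rw [one_mul] at this
    rw [this, cφ]
  have Ev := en_comb he.mem hu' c (-1)
  rw [eφφ, eφu] at Ev
  have Nv := nm_comb he.mem hu' c (-1)
  rw [hn, hu1, cφ] at Nv
  have vperp : ∫ z, (c * φ z + (-1) * u z) * φ z = 0 := by
    rw [nm2_comb he.mem hu' he.mem]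
    have e1 : ∫ z, φ z * φ z = 1 := by rw [← hn]; congr 1; ext z; ring
    rw [e1]; simp [hc]
  have hg1 := hgap _ _ _ hvH vperp
  set N := ∫ z, (c * φ z + (-1) * u z) ^ 2 with hN
  have hN0 : 0 ≤ N := integral_nonneg fun z => sq_nonneg _
  set Evv := ∫ z, ((c * φx z + (-1) * ux z) ^ 2 + (c * φy z + (-1) * uy z) ^ 2) with hEvv
  have hEv : Evv = E - c ^ 2 := by rw [Ev]; ring
  have hNv : N = 1 - c ^ 2 := by rw [Nv]; ring
  have hq : γ * N ≤ E - 1 := by nlinarith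
  set κ := 1 - mu0 * m ^ 2 / (γ * L) - 2 * R * √(8 / γ) - (2 / R) * √(24 / (γ * L)) with hκ
  have p1 : 0 ≤ mu0 * m ^ 2 / (γ * L) := by positivity
  have p2 : 0 ≤ 2 * R * √(8 / γ) := by positivity
  have p3 : 0 ≤ (2 / R) * √(24 / (γ * L)) := by positivity
  have hκ1 : κ ≤ 1 := by rw [hκ]; linarith
  have hx0 : 0 ≤ mu0 * m ^ 2 / L := by positivity
  by_cases hcase : mu0 * m ^ 2 / L ≤ E - 1
  · have := mul_le_mul_of_nonneg_left hκ1 hx0
    linarith
  push Not at hcase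
  have hNle : N ≤ mu0 * m ^ 2 / (γ * L) := by
    have h1 : N ≤ (mu0 * m ^ 2 / L) / γ := by
      rw [le_div_iff₀ hγ]; linarith
    calc N ≤ (mu0 * m ^ 2 / L) / γ := h1
      _ = mu0 * m ^ 2 / (γ * L) := by rw [div_div, mul_comm L γ]
  -- test
  set τ := c * m / L with hτ
  have hy := (hvH.comb hgH 1 (-τ)).lam_le
  rw [hl1, one_mul, en_comb hvH hgH, nm_comb hvH hgH] at hy
  have hvg := hvH.test_gk hρ h x0
  have e2 : ∫ z, ((c * φx z + (-1) * ux z) * dd ex g z + (c * φy z + (-1) * uy z) * dd ey g z) =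
      ∫ z, ((c * φx z + (-1) * ux z) * dd ex (gk ρ R) (z - x0) +
        (c * φy z + (-1) * uy z) * dd ey (gk ρ R) (z - x0)) := by
    simp only [hg, dd_trans]
  rw [hvg] at e2
  set A := ∫ z, φ z * mker ρ (z - x0) with hA
  set B := ∫ z, (c * φ z + (-1) * u z) * mker R (z - x0) with hB
  set G := ∫ z, (c * φ z + (-1) * u z) * g z with hG
  have e3 : ∫ z, (c * φ z + (-1) * u z) * mker ρ (z - x0) = c * A := by
    rw [hA, ← integral_const_mul]
    apply integral_congr_ae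
    filter_upwards [hu.zero_off] with z hz
    by_cases hzK : z ∈ hl ρ x0
    · have hz' : z ∉ Ω \ hl ρ x0 := fun hc => hc.2 hzK
      rw [(hz hz').1]; ring
    · rw [mker_supp_hl hρ hzK]; ring
  rw [e3] at e2
  rw [e2] at hy
  have hAm : m * mu0 ≤ A := by
    rw [hA, ← mkert_mass hρ x0, ← integral_const_mul]
    apply integral_mono_ae ((mkert_int hρ x0).const_mul _) (av_int hρ he.mem.mu x0)
    filter_upwards [hφ] with z hz
    by_cases hzb : z ∈ Metric.closedBall x0 R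
    · exact mul_le_mul_of_nonneg_right (hz hzb) (mk_nonneg _ _)
    · have : mker ρ (z - x0) = 0 := by
        by_contra hcc
        apply hzb
        have h2 := mk_support hρ (show z - x0 ∈ Function.support (mker ρ) from hcc)
        rw [Metric.mem_closedBall, dist_zero_right] at h2
        rw [Metric.mem_closedBall, dist_eq_norm]
        exact h2.trans h
      simp [this]
  have hc1 : |c| ≤ 1 := by
    rw [← sq_le_one_iff_abs_le_one]
    linarith
  have hBle : |B| ≤ √(mu0 * m ^ 2 / (γ * L)) * √(24 * mu0 / R ^ 2) := by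
    refine (abs_int_mul_le hvH.mu (mkert_memLp hR0 x0)).trans ?_
    exact mul_le_mul (Real.sqrt_le_sqrt hNle) (Real.sqrt_le_sqrt (mker_sq_le hR0 x0))
      (Real.sqrt_nonneg _) (Real.sqrt_nonneg _)
  have hGle : |G| ≤ √(mu0 * m ^ 2 / (γ * L)) * √(8 * R ^ 2 * (L * mu0)) := by
    refine (abs_int_mul_le hvH.mu hgt.memLp).trans ?_
    exact mul_le_mul (Real.sqrt_le_sqrt hNle) (Real.sqrt_le_sqrt (gkt_sq hρ h x0))
      (Real.sqrt_nonneg _) (Real.sqrt_nonneg _)
  have s1 : √(mu0 * m ^ 2 / (γ * L)) * √(24 * mu0 / R ^ 2) = (m * mu0 / R) * √(24 / (γ * L)) := by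
    rw [← Real.sqrt_mul (by positivity)]
    have : mu0 * m ^ 2 / (γ * L) * (24 * mu0 / R ^ 2) = (m * mu0 / R) ^ 2 * (24 / (γ * L)) := by
      field_simp
    rw [this, Real.sqrt_mul (by positivity), Real.sqrt_sq (by positivity)]
  have s2 : √(mu0 * m ^ 2 / (γ * L)) * √(8 * R ^ 2 * (L * mu0)) = (m * mu0 * R) * √(8 / γ) := by
    rw [← Real.sqrt_mul (by positivity)]
    have : mu0 * m ^ 2 / (γ * L) * (8 * R ^ 2 * (L * mu0)) = (m * mu0 * R) ^ 2 * (8 / γ) := by
      field_simp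
    rw [this, Real.sqrt_mul (by positivity), Real.sqrt_sq (by positivity)]
  rw [s1] at hBle
  rw [s2] at hGle
  -- combine
  have hEg := gkt_en hρ h x0
  have hNg : 0 ≤ ∫ z, g z ^ 2 := integral_nonneg fun z => sq_nonneg _
  have hEg' : ∫ z, (dd ex g z ^ 2 + dd ey g z ^ 2) ≤ L * mu0 := hEg
  set Eg := ∫ z, (dd ex g z ^ 2 + dd ey g z ^ 2) with hEgd
  set Ng := ∫ z, g z ^ 2 with hNgd
  have hcB : |c * B| ≤ (m * mu0 / R) * √(24 / (γ * L)) := by
    rw [abs_mul]
    calc |c| * |B| ≤ 1 * ((m * mu0 / R) * √(24 / (γ * L))) :=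
          mul_le_mul hc1 hBle (abs_nonneg _) (by norm_num)
      _ = _ := one_mul _
  have hcG : |c * G| ≤ (m * mu0 * R) * √(8 / γ) := by
    rw [abs_mul]
    calc |c| * |G| ≤ 1 * ((m * mu0 * R) * √(8 / γ)) :=
          mul_le_mul hc1 hGle (abs_nonneg _) (by norm_num)
      _ = _ := one_mul _
  have hcA : c ^ 2 * (m * mu0) ≤ c ^ 2 * A := mul_le_mul_of_nonneg_left hAm (sq_nonneg _)
  have hfin : 2 * τ * (c * A - B - G) - τ ^ 2 * (L * mu0) ≤ E - 1 := by
    have q1 : τ ^ 2 * Eg ≤ τ ^ 2 * (L * mu0) := mul_le_mul_of_nonneg_left hEg' (sq_nonneg _)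
    have q2 : 0 ≤ τ ^ 2 * Ng := mul_nonneg (sq_nonneg _) hNg
    have q3 : Evv - N = E - 1 := by rw [hEv, hNv]; ring
    nlinarith
  have e5 : 2 * τ * (c * A - B - G) - τ ^ 2 * (L * mu0) =
      (m / L) * (2 * (c ^ 2 * A) - 2 * (c * B) - 2 * (c * G) - c ^ 2 * (m * mu0)) := by
    rw [hτ]; field_simp
  rw [e5] at hfin
  have hcN : 1 - mu0 * m ^ 2 / (γ * L) ≤ c ^ 2 := by linarith
  have hB' := (abs_le.1 hcB).2
  have hG' := (abs_le.1 hcG).2
  have e6 : (mu0 * m ^ 2 / L) * κ = (m / L) * (m * mu0 * (1 - mu0 * m ^ 2 / (γ * L)) -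
      2 * ((m * mu0 * R) * √(8 / γ)) - 2 * ((m * mu0 / R) * √(24 / (γ * L)))) := by
    rw [hκ]; field_simp
  rw [e6]
  have hcN' : m * mu0 * (1 - mu0 * m ^ 2 / (γ * L)) ≤ c ^ 2 * (m * mu0) := by
    rw [mul_comm (c ^ 2)]
    exact mul_le_mul_of_nonneg_left hcN (by positivity)
  have hfin2 : (m / L) * (m * mu0 * (1 - mu0 * m ^ 2 / (γ * L)) -
      2 * ((m * mu0 * R) * √(8 / γ)) - 2 * ((m * mu0 / R) * √(24 / (γ * L)))) ≤
      (m / L) * (2 * (c ^ 2 * A) - 2 * (c * B) - 2 * (c * G) - c ^ 2 * (m * mu0)) := by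
    apply mul_le_mul_of_nonneg_left _ (by positivity)
    linarith
  linarith

theorem lam_hole {Ω : Set P} (hΩ : IsOpen Ω) {γ : ℝ} (hγ : 0 < γ)
    {φ φx φy : P → ℝ} (he : Eigf Ω 1 φ φx φy) (hn : ∫ z, φ z ^ 2 = 1)
    (hgap : ∀ v a b, H0 Ω v a b → ∫ z, v z * φ z = 0 →
      (1 + γ) * ∫ z, v z ^ 2 ≤ ∫ z, (a z ^ 2 + b z ^ 2)) (hl1 : lamP Ω = 1)
    {x0 : P} {ρ R m : ℝ} (hρ : 0 < ρ) (h : ρ ≤ R) (hR : Metric.closedBall x0 R ⊆ Ω)
    (hL : 3 < 2 * Real.log (R / ρ)) (hm : 0 ≤ m)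
    (hφ : ∀ᵐ z, z ∈ Metric.closedBall x0 R → m ≤ φ z) (hne : (Ω \ hl ρ x0).Nonempty) :
    1 + (mu0 * m ^ 2 / (2 * Real.log (R / ρ))) * (1 - mu0 * m ^ 2 / (γ * (2 * Real.log (R / ρ)))
      - 2 * R * √(8 / γ) - (2 / R) * √(24 / (γ * (2 * Real.log (R / ρ))))) ≤
      lamP (Ω \ hl ρ x0) := by
  apply lamP_ge (hΩ.sdiff hl_closed) hne
  intro ψ hψ
  rcases (Nm_nonneg ψ).eq_or_lt with h0 | h0
  · rw [← h0, mul_zero]; exact En_nonneg _
  · obtain ⟨v, a, b, h1, h2, h3, -⟩ := normalise (H0.of_test hψ) h0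
    have h4 := lam_key hΩ hγ he hn hgap hl1 hρ h hR hL hm hφ h1 h2
    rw [h3] at h4
    exact (le_div_iff₀ h0).1 h4

end M2

end Pool.Agent.Lib.MP_f46d6a
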