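import Pool.Agent.Lib.MP_f46d6a.Local2
import Pool.Agent.Lib.MP_f46d6a_h64.Hole

/-!
# Energy of the eigenfunction on sparse squares
-/

set_option autoImplicit false

open MeasureTheory Set Filter Topology
open scoped ContDiff

namespace Pool.Agent.Lib.MP_f46d6a

open Pool.Agent.Lib.MP_dac83a M1

namespace Sp

theorem cut1_deriv_in {R t : ℝ} (h : |t| ≤ R) : deriv (cut1 R) t = 0 := by
  rw [(cut1_hasDeriv R t).deriv]
  rw [abs_le] at h
  rw [bb_of_nonpos (by linarith), bb_of_nonpos (by linarith)]; ring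

theorem cut1_deriv_out {R t : ℝ} (hR : 0 ≤ R) (h : R + 1 ≤ |t|) : deriv (cut1 R) t = 0 := by
  rw [(cut1_hasDeriv R t).deriv]
  rcases le_total 0 t with h' | h'
  · rw [abs_of_nonneg h'] at h
    rw [bb_of_one_le (by linarith), bb_of_nonpos (by linarith)]; ring
  · rw [abs_of_nonpos h'] at h
    rw [bb_of_nonpos (by linarith), bb_of_one_le (show 1 ≤ -t - R by linarith)]; ring

/-- translated cutoff -/
noncomputable def kt (R : ℝ) (x z : P) : ℝ := cut R (z - x)

variable {R : ℝ} {x : P}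

theorem kt_contDiff : ContDiff ℝ 1 (kt R x) := by
  unfold kt
  exact (cut_contDiff R).comp (contDiff_id.sub contDiff_const)

theorem kt_abs (hR : 0 ≤ R) (z : P) : |kt R x z| ≤ 1 := by
  obtain ⟨h1, h2⟩ := cut_range hR (z - x)
  unfold kt
  rw [abs_of_nonneg h1]; exact h2

theorem kt_dx (z : P) : dd ex (kt R x) z = deriv (cut1 R) (z - x).1 * cut1 R (z - x).2 := by
  have : kt R x = fun z => cut R (z - x) := rfl
  rw [this, dd_trans, cut_dd_ex]

theorem kt_dy (z : P) : dd ey (kt R x) z = cut1 R (z - x).1 * deriv (cut1 R) (z - x).2 := by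
  have : kt R x = fun z => cut R (z - x) := rfl
  rw [this, dd_trans, cut_dd_ey]

theorem kt_dd_le (hR : 0 ≤ R) (z : P) : |dd ex (kt R x) z| ≤ 2 ∧ |dd ey (kt R x) z| ≤ 2 := by
  have h := cut_dd_le hR (z - x)
  rw [cut_dd_ex, cut_dd_ey] at h
  rw [kt_dx, kt_dy]
  exact h

theorem kt_in {z : P} (hz : z ∈ Metric.closedBall x R) :
    kt R x z = 1 ∧ dd ex (kt R x) z = 0 ∧ dd ey (kt R x) z = 0 := by
  rw [Metric.mem_closedBall, dist_eq_norm, Prod.norm_def, max_le_iff, Real.norm_eq_abs,
    Real.norm_eq_abs] at hz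
  rw [kt_dx, kt_dy]
  unfold kt cut
  rw [cut1_one hz.1, cut1_one hz.2, cut1_deriv_in hz.1, cut1_deriv_in hz.2]
  simp

theorem kt_out (hR : 0 ≤ R) {z : P} (hz : z ∉ Metric.closedBall x (R + 1)) :
    kt R x z = 0 ∧ dd ex (kt R x) z = 0 ∧ dd ey (kt R x) z = 0 := by
  rw [Metric.mem_closedBall, dist_eq_norm, Prod.norm_def, max_le_iff, Real.norm_eq_abs,
    Real.norm_eq_abs, not_and_or, not_le, not_le] at hz
  rw [kt_dx, kt_dy]
  unfold kt cut
  rcases hz with h | h
  · rw [cut1_zero hR h.le, cut1_deriv_out hR h.le]; simp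
  · rw [cut1_zero hR h.le, cut1_deriv_out hR h.le]; simp

theorem kt_tsupp (hR : 0 ≤ R) : tsupport (kt R x) ⊆ Metric.closedBall x (R + 1) := by
  apply closure_minimal _ Metric.isClosed_closedBall
  intro z hz
  by_contra h
  exact hz (kt_out hR h).1

/-- integrals over a set from below -/
theorem set_le {f g : P → ℝ} {S : Set P} (hS : MeasurableSet S) (hf : Integrable f)
    (hg : Integrable g) (g0 : ∀ z, 0 ≤ g z) (h : ∀ z ∈ S, f z ≤ g z) :
    ∫ z in S, f z ≤ ∫ z, g z :=
  (setIntegral_mono_on hf.integrableOn hg.integrableOn hS h).trans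
    (setIntegral_le_integral hg (Eventually.of_forall g0))

/-- integrals of functions supported in a set -/
theorem le_set {f g : P → ℝ} {S : Set P} (hS : MeasurableSet S) (hf : Integrable f)
    (hg : Integrable g) (f0 : ∀ z, z ∉ S → f z = 0) (h : ∀ z ∈ S, f z ≤ g z) :
    ∫ z, f z ≤ ∫ z in S, g z := by
  rw [← setIntegral_eq_integral_of_forall_compl_eq_zero f0]
  exact setIntegral_mono_on hf.integrableOn hg.integrableOn hS h

/-- Caccioppoli -/
theorem cacc {Ω : Set P} (hΩ : IsOpen Ω) {p px py : P → ℝ} (he : Eigf Ω 1 p px py) (hR : 0 ≤ R) :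
    ∫ z, ((kt R x z * px z + dd ex (kt R x) z * p z) ^ 2
      + (kt R x z * py z + dd ey (kt R x) z * p z) ^ 2)
      ≤ 9 * ∫ z in Metric.closedBall x (R + 1), p z ^ 2 := by
  obtain ⟨m, e⟩ := he.mem.weighted hΩ he.eq' (kt_contDiff (R := R) (x := x)) (C := 2)
    (fun z => (kt_abs hR z).trans (by norm_num)) (fun z => (kt_dd_le hR z).1)
    (fun z => (kt_dd_le hR z).2)
  rw [e]
  have hp2 := he.mem.mu.integrable_sq
  have ck : Continuous (kt R x) := kt_contDiff.continuous
  have cx : Continuous (dd ex (kt R x)) := (dd_contDiff (m := 0) kt_contDiff (by norm_num) ex).continuous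
  have cy : Continuous (dd ey (kt R x)) := (dd_contDiff (m := 0) kt_contDiff (by norm_num) ey).continuous
  have b0 : ∀ z, kt R x z ^ 2 ≤ 1 := fun z => by
    rw [← sq_abs]; exact pow_le_one₀ (abs_nonneg _) (kt_abs hR z)
  have b1 : ∀ z, dd ex (kt R x) z ^ 2 + dd ey (kt R x) z ^ 2 ≤ 8 := fun z => by
    have g1 : dd ex (kt R x) z ^ 2 ≤ 2 ^ 2 := by
      rw [← sq_abs]; exact pow_le_pow_left₀ (abs_nonneg _) (kt_dd_le hR z).1 2
    have g2 : dd ey (kt R x) z ^ 2 ≤ 2 ^ 2 := by
      rw [← sq_abs]; exact pow_le_pow_left₀ (abs_nonneg _) (kt_dd_le hR z).2 2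
    linarith
  have i1 : Integrable (fun z => p z * (kt R x z ^ 2 * p z)) := by
    refine (ibmul (c := fun z => kt R x z ^ 2) (C := 1) (ck.pow 2).aestronglyMeasurable
      (Eventually.of_forall fun z => by rw [abs_of_nonneg (sq_nonneg _)]; exact b0 z) hp2).congr ?_
    filter_upwards with z; ring
  have i2 : Integrable (fun z => p z ^ 2 * (dd ex (kt R x) z ^ 2 + dd ey (kt R x) z ^ 2)) := by
    refine (ibmul (c := fun z => dd ex (kt R x) z ^ 2 + dd ey (kt R x) z ^ 2) (C := 8)
      ((cx.pow 2).add (cy.pow 2)).aestronglyMeasurable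
      (Eventually.of_forall fun z => by rw [abs_of_nonneg (by positivity)]; exact b1 z) hp2).congr ?_
    filter_upwards with z; ring
  rw [← int_add i1 i2, ← int_cm]
  apply le_set measurableSet_closedBall (iadd i1 i2) (icm 9 hp2)
  · intro z hz
    obtain ⟨e1, e2, e3⟩ := kt_out hR hz
    rw [e1, e2, e3]; ring
  · intro z _
    have h1 := b0 z
    have h2 := b1 z
    nlinarith [mul_le_mul_of_nonneg_left h1 (sq_nonneg (p z)),
      mul_le_mul_of_nonneg_left h2 (sq_nonneg (p z))]

end Sp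

open Sp

/-- the energy of the eigenfunction on squares where `Ω` is sparse -/
theorem sparse : ∃ C > 0, ∀ {δ α : ℝ} {Ω : Set P} {w wx wy p px py : P → ℝ},
    Crit δ α Ω w wx wy p px py → ∀ (x : P) (η : ℝ), vol (Ω ∩ Metric.closedBall x 6) ≤ η →
    ∫ z in Metric.closedBall x 1, (px z ^ 2 + py z ^ 2)
      ≤ C * η * vol (Ω ∩ Metric.closedBall x 6) := by
  refine ⟨41 * C0 ^ 2, by have := C0_pos; positivity, ?_⟩
  intro δ α Ω w wx wy p px py h x η hη
  have he := h.eig
  have hp2 := he.mem.mu.integrable_sq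
  have hen := he.mem.int_en
  have fin6 : volume (Ω ∩ Metric.closedBall x 6) ≠ ⊤ :=
    ((measure_mono inter_subset_left).trans_lt (lt_top_iff_ne_top.2 h.finite)).ne
  set v := vol (Ω ∩ Metric.closedBall x 6) with hv
  have v0 : 0 ≤ v := ENNReal.toReal_nonneg
  have η0 : 0 ≤ η := v0.trans hη
  -- first Caccioppoli
  have c1 := cacc (R := 1) (x := x) h.isOpen he zero_le_one
  have m1 : H0 Ω _ _ _ := he.mem.mul_C1 h.isOpen (kt_contDiff (R := 1) (x := x)) (C := 2)
    (fun z => (kt_abs zero_le_one z).trans (by norm_num)) (fun z => (kt_dd_le zero_le_one z).1)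
    (fun z => (kt_dd_le zero_le_one z).2)
  have s1 : ∫ z in Metric.closedBall x 1, (px z ^ 2 + py z ^ 2)
      ≤ ∫ z, ((kt 1 x z * px z + dd ex (kt 1 x) z * p z) ^ 2
      + (kt 1 x z * py z + dd ey (kt 1 x) z * p z) ^ 2) := by
    apply set_le measurableSet_closedBall hen m1.int_en (fun z => by positivity)
    intro z hz
    obtain ⟨e1, e2, e3⟩ := kt_in hz
    rw [e1, e2, e3]
    apply le_of_eq; ring
  -- second Caccioppoli and the inequality of Poincare
  have c2 := cacc (R := 2) (x := x) h.isOpen he zero_le_two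
  have hVo : IsOpen (Ω ∩ Metric.ball x 4) := h.isOpen.inter Metric.isOpen_ball
  have m2 : H0 (Ω ∩ Metric.ball x 4) _ _ _ := M2.mul_C1_to hVo he.mem
    (kt_contDiff (R := 2) (x := x)) (C := 2)
    (fun z => (kt_abs zero_le_two z).trans (by norm_num)) (fun z => (kt_dd_le zero_le_two z).1)
    (fun z => (kt_dd_le zero_le_two z).2) (by
      apply inter_subset_inter_right
      refine (kt_tsupp zero_le_two).trans ?_
      apply Metric.closedBall_subset_ball
      norm_num)
  have hsub : Ω ∩ Metric.ball x 4 ⊆ Ω ∩ Metric.closedBall x 6 := by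
    apply inter_subset_inter_right
    exact Metric.ball_subset_closedBall.trans (Metric.closedBall_subset_closedBall (by norm_num))
  have hfin : volume (Ω ∩ Metric.ball x 4) ≠ ⊤ :=
    ((measure_mono hsub).trans_lt (lt_top_iff_ne_top.2 fin6)).ne
  have hvol : vol (Ω ∩ Metric.ball x 4) ≤ v := ENNReal.toReal_mono fin6 (measure_mono hsub)
  have po := m2.poinc hVo hfin
  have s2 : ∫ z in Metric.closedBall x 2, p z ^ 2 ≤ ∫ z, (kt 2 x z * p z) ^ 2 := by
    apply set_le measurableSet_closedBall hp2 m2.mu.integrable_sq (fun z => sq_nonneg _)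
    intro z hz
    obtain ⟨e1, e2, e3⟩ := kt_in hz
    rw [e1]
    apply le_of_eq; ring
  -- sup bound
  have s3 : ∫ z in Metric.closedBall x 3, p z ^ 2 ≤ C0 ^ 2 * v := by
    have hle : ∀ᵐ z, p z ^ 2 ≤ C0 ^ 2 * Ω.indicator (fun _ => (1 : ℝ)) z := by
      filter_upwards [h.p_le, he.nonneg, h.off] with z h1 h2 h3
      by_cases hz : z ∈ Ω
      · rw [indicator_of_mem hz, mul_one]
        exact pow_le_pow_left₀ h2 h1 2
      · rw [indicator_of_notMem hz, (h3 hz).2]; simp
    calc ∫ z in Metric.closedBall x 3, p z ^ 2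
        ≤ ∫ z in Metric.closedBall x 3, C0 ^ 2 * Ω.indicator (fun _ => (1 : ℝ)) z :=
          int_mono_ae hp2.integrableOn (icm _ h.one_int.integrableOn) (ae_restrict_of_ae hle)
      _ = C0 ^ 2 * (volume (Ω ∩ Metric.closedBall x 3)).toReal := by
          rw [int_cm, integral_indicator h.isOpen.measurableSet,
            Measure.restrict_restrict h.isOpen.measurableSet, setIntegral_const, smul_eq_mul,
            mul_one]
          rfl
      _ ≤ C0 ^ 2 * v := by
          apply mul_le_mul_of_nonneg_left _ (sq_nonneg _)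
          apply ENNReal.toReal_mono fin6 (measure_mono _)
          apply inter_subset_inter_right
          exact Metric.closedBall_subset_closedBall (by norm_num)
  norm_num at c1 c2
  have n2 : 0 ≤ ∫ z, ((kt 2 x z * px z + dd ex (kt 2 x) z * p z) ^ 2
      + (kt 2 x z * py z + dd ey (kt 2 x) z * p z) ^ 2) := integral_nonneg fun z => by positivity
  have po2 := po.trans (mul_le_mul (hvol.trans hη) (c2.trans (mul_le_mul_of_nonneg_left s3
    (by norm_num))) n2 η0)
  have hC0 := C0_pos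
  have hpos : 0 ≤ η * (C0 ^ 2 * v) := by positivity
  nlinarith

end Pool.Agent.Lib.MP_f46d6a
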