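import Pool.Agent.Lib.MP_f46d6a.Defs
import Pool.Agent.Lib.MP_dac83a.Rellich

/-!
# Compactness of the embedding of `H¹₀(U)` into `L²` for open sets of finite area
-/

set_option autoImplicit false

open MeasureTheory Set Filter Topology
open scoped ContDiff

namespace Pool.Agent.Lib.MP_f46d6a

open Pool.Agent.Lib.MP_dac83a

namespace M1

/-- diagonal extraction -/
theorem diagonal {D : ℕ → ℕ → ℕ → ℝ}
    (h : ∀ M, ∀ k : ℕ → ℕ, StrictMono k → ∃ j : ℕ → ℕ, StrictMono j ∧ ∀ ε > 0, ∃ N, ∀ m ≥ N,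
      ∀ n ≥ N, D M (k (j m)) (k (j n)) ≤ ε) :
    ∃ k : ℕ → ℕ, StrictMono k ∧ ∀ M, ∀ ε > 0, ∃ N, ∀ m ≥ N, ∀ n ≥ N, D M (k m) (k n) ≤ ε := by
  choose j hj hD using h
  let K : ℕ → {k : ℕ → ℕ // StrictMono k} := fun M => Nat.rec ⟨id, strictMono_id⟩
    (fun M k => ⟨k.1 ∘ j M k.1 k.2, k.2.comp (hj M k.1 k.2)⟩) M
  have hK : ∀ M i, (K (M + 1)).1 i = (K M).1 (j M (K M).1 (K M).2 i) := fun M i => rfl
  have hsub : ∀ M d, ∃ s : ℕ → ℕ, StrictMono s ∧ ∀ i, (K (M + d)).1 i = (K M).1 (s i) := by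
    intro M d
    induction d with
    | zero => exact ⟨id, strictMono_id, fun i => rfl⟩
    | succ d ih =>
      obtain ⟨s, hs, hs'⟩ := ih
      refine ⟨s ∘ j (M + d) (K (M + d)).1 (K (M + d)).2, hs.comp (hj _ _ _), fun i => ?_⟩
      rw [← add_assoc, hK, hs']
      rfl
  refine ⟨fun n => (K n).1 n, ?_, ?_⟩
  · apply strictMono_nat_of_lt_succ
    intro n
    rw [hK]
    have h1 : n + 1 ≤ j n (K n).1 (K n).2 (n + 1) := (hj n _ (K n).2).id_le _
    exact (K n).2 (lt_of_lt_of_le (Nat.lt_succ_self n) h1)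
  · intro M ε hε
    obtain ⟨N, hN⟩ := hD M (K M).1 (K M).2 ε hε
    refine ⟨max N (M + 1), fun m hm n hn => ?_⟩
    have key : ∀ n ≥ max N (M + 1), ∃ i ≥ N, (K n).1 n = (K M).1 (j M (K M).1 (K M).2 i) := by
      intro n hn
      obtain ⟨d, rfl⟩ := Nat.exists_eq_add_of_le (le_trans (le_max_right _ _) hn)
      obtain ⟨s, hs, hs'⟩ := hsub (M + 1) d
      refine ⟨s (M + 1 + d), ?_, ?_⟩
      · exact le_trans (le_trans (le_max_left _ _) hn) (hs.id_le _)
      · rw [hs', hK]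
    obtain ⟨i, hi, ei⟩ := key m hm
    obtain ⟨l, hl, el⟩ := key n hn
    simp only [ei, el]
    exact hN i hi l hl

/-! ## Cutoff functions -/

/-- one-dimensional `C¹` cutoff: one on `[-R, R]`, zero outside `[-R-1, R+1]` -/
noncomputable def cut1 (R t : ℝ) : ℝ := 1 - Lm' (t - R) - Lm' (-t - R)

theorem cut1_contDiff (R : ℝ) : ContDiff ℝ 1 (cut1 R) := by
  unfold cut1
  exact (contDiff_const.sub (Lm'_contDiff.comp (by fun_prop))).sub (Lm'_contDiff.comp (by fun_prop))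

theorem cut1_range {R : ℝ} (hR : 0 ≤ R) (t : ℝ) : 0 ≤ cut1 R t ∧ cut1 R t ≤ 1 := by
  unfold cut1
  have h1 := Lm'_nonneg (t - R)
  have h2 := Lm'_nonneg (-t - R)
  have h3 := Lm'_le_one (t - R)
  have h4 := Lm'_le_one (-t - R)
  rcases le_total 0 t with h | h
  · have : Lm' (-t - R) = 0 := Lm'_of_nonpos (by linarith)
    constructor <;> linarith
  · have : Lm' (t - R) = 0 := Lm'_of_nonpos (by linarith)
    constructor <;> linarith

theorem cut1_one {R t : ℝ} (h : |t| ≤ R) : cut1 R t = 1 := by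
  rw [abs_le] at h
  unfold cut1
  rw [Lm'_of_nonpos (by linarith), Lm'_of_nonpos (by linarith)]; ring

theorem cut1_zero {R t : ℝ} (hR : 0 ≤ R) (h : R + 1 ≤ |t|) : cut1 R t = 0 := by
  unfold cut1
  rcases le_total 0 t with h' | h'
  · rw [abs_of_nonneg h'] at h
    rw [Lm'_of_one_le (by linarith), Lm'_of_nonpos (by linarith)]; ring
  · rw [abs_of_nonpos h'] at h
    rw [Lm'_of_one_le (show 1 ≤ -t - R by linarith), Lm'_of_nonpos (by linarith)]; ring

theorem cut1_hasDeriv (R t : ℝ) : HasDerivAt (cut1 R) (- bb (t - R) + bb (-t - R)) t := by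
  have h1 : HasDerivAt (fun s : ℝ => Lm' (s - R)) (bb (t - R)) t := by
    have := (Lm'_hasDeriv (t - R)).comp t ((hasDerivAt_id t).sub_const R)
    exact this.congr_deriv (by simp)
  have h2 : HasDerivAt (fun s : ℝ => Lm' (-s - R)) (- bb (-t - R)) t := by
    have := (Lm'_hasDeriv (-t - R)).comp t ((hasDerivAt_id t).neg.sub_const R)
    exact this.congr_deriv (by simp)
  have := ((hasDerivAt_const t (1 : ℝ)).sub h1).sub h2
  refine this.congr_deriv ?_
  ring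

theorem cut1_deriv_le (R t : ℝ) : |deriv (cut1 R) t| ≤ 2 := by
  rw [(cut1_hasDeriv R t).deriv, abs_le]
  have h1 := bb_nonneg (t - R)
  have h2 := bb_nonneg (-t - R)
  have h3 := bb_le (t - R)
  have h4 := bb_le (-t - R)
  constructor <;> linarith

/-- two-dimensional cutoff -/
noncomputable def cut (R : ℝ) (z : P) : ℝ := cut1 R z.1 * cut1 R z.2

theorem cut_contDiff (R : ℝ) : ContDiff ℝ 1 (cut R) := by
  unfold cut
  exact ((cut1_contDiff R).comp contDiff_fst).mul ((cut1_contDiff R).comp contDiff_snd)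

theorem cut_range {R : ℝ} (hR : 0 ≤ R) (z : P) : 0 ≤ cut R z ∧ cut R z ≤ 1 := by
  obtain ⟨h1, h2⟩ := cut1_range hR z.1
  obtain ⟨h3, h4⟩ := cut1_range hR z.2
  exact ⟨mul_nonneg h1 h3, mul_le_one₀ h2 h3 h4⟩

theorem cut_dd_ex (R : ℝ) (z : P) : dd ex (cut R) z = deriv (cut1 R) z.1 * cut1 R z.2 := by
  have h1 : HasFDerivAt (fun z : P => cut1 R z.1)
      ((deriv (cut1 R) z.1) • (ContinuousLinearMap.fst ℝ ℝ ℝ)) z := by
    have := (((cut1_contDiff R).differentiable (by norm_num)) z.1).hasDerivAt.comp_hasFDerivAt z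
      (hasFDerivAt_fst (𝕜 := ℝ) (E := ℝ) (F := ℝ) (p := z))
    exact this
  have h2 : HasFDerivAt (fun z : P => cut1 R z.2)
      ((deriv (cut1 R) z.2) • (ContinuousLinearMap.snd ℝ ℝ ℝ)) z := by
    have := (((cut1_contDiff R).differentiable (by norm_num)) z.2).hasDerivAt.comp_hasFDerivAt z
      (hasFDerivAt_snd (𝕜 := ℝ) (E := ℝ) (F := ℝ) (p := z))
    exact this
  have h3 : HasFDerivAt (cut R) _ z := h1.mul h2
  simp only [dd]
  rw [h3.fderiv]
  simp [mul_comm]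

theorem cut_dd_ey (R : ℝ) (z : P) : dd ey (cut R) z = cut1 R z.1 * deriv (cut1 R) z.2 := by
  have h1 : HasFDerivAt (fun z : P => cut1 R z.1)
      ((deriv (cut1 R) z.1) • (ContinuousLinearMap.fst ℝ ℝ ℝ)) z := by
    have := (((cut1_contDiff R).differentiable (by norm_num)) z.1).hasDerivAt.comp_hasFDerivAt z
      (hasFDerivAt_fst (𝕜 := ℝ) (E := ℝ) (F := ℝ) (p := z))
    exact this
  have h2 : HasFDerivAt (fun z : P => cut1 R z.2)
      ((deriv (cut1 R) z.2) • (ContinuousLinearMap.snd ℝ ℝ ℝ)) z := by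
    have := (((cut1_contDiff R).differentiable (by norm_num)) z.2).hasDerivAt.comp_hasFDerivAt z
      (hasFDerivAt_snd (𝕜 := ℝ) (E := ℝ) (F := ℝ) (p := z))
    exact this
  have h3 : HasFDerivAt (cut R) _ z := h1.mul h2
  simp only [dd]
  rw [h3.fderiv]
  simp

theorem cut_dd_le {R : ℝ} (hR : 0 ≤ R) (z : P) : |dd ex (cut R) z| ≤ 2 ∧ |dd ey (cut R) z| ≤ 2 := by
  obtain ⟨h1, h2⟩ := cut1_range hR z.1
  obtain ⟨h3, h4⟩ := cut1_range hR z.2
  have h5 := cut1_deriv_le R z.1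
  have h6 := cut1_deriv_le R z.2
  rw [cut_dd_ex, cut_dd_ey, abs_mul, abs_mul, abs_of_nonneg h3, abs_of_nonneg h1]
  constructor
  · calc _ ≤ 2 * 1 := mul_le_mul h5 h4 h3 (by norm_num)
      _ = 2 := by norm_num
  · calc _ ≤ 1 * 2 := mul_le_mul h2 h6 (abs_nonneg _) (by norm_num)
      _ = 2 := by norm_num

/-- energy of a product with a cutoff -/
theorem en_mul_le {U : Set P} {φ ψ : P → ℝ} (h : IsTest U φ) (hψ : ContDiff ℝ 1 ψ)
    (h0 : ∀ z, |ψ z| ≤ 1) (h1 : ∀ z, |dd ex ψ z| ≤ 2) (h2 : ∀ z, |dd ey ψ z| ≤ 2) :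
    Nm (fun z => φ z * ψ z) ≤ Nm φ ∧ En (fun z => φ z * ψ z) ≤ 2 * En φ + 16 * Nm φ := by
  have ht : IsTest1 U (fun z => φ z * ψ z) := h.isTest1.mul hψ
  constructor
  · unfold Nm
    apply integral_mono ht.memLp.integrable_sq h.int_sq
    intro z
    simp only
    rw [mul_pow]
    have : ψ z ^ 2 ≤ 1 := by
      rw [← sq_abs]; exact pow_le_one₀ (abs_nonneg _) (h0 z)
    nlinarith [sq_nonneg (φ z)]
  · unfold En Nm
    rw [← integral_const_mul, ← integral_const_mul,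
      ← integral_add ((tint_en h).const_mul 2) (h.int_sq.const_mul 16)]
    apply integral_mono ((ht.dd_memLp ex).integrable_sq.add (ht.dd_memLp ey).integrable_sq)
      (((tint_en h).const_mul 2).add (h.int_sq.const_mul 16))
    intro z
    have hd : DifferentiableAt ℝ ψ z := hψ.differentiable (by norm_num) z
    show dd ex (fun z => φ z * ψ z) z ^ 2 + dd ey (fun z => φ z * ψ z) z ^ 2 ≤
      2 * (dd ex φ z ^ 2 + dd ey φ z ^ 2) + 16 * φ z ^ 2
    rw [H0.dd_mul' (h.diffAt z) hd, H0.dd_mul' (h.diffAt z) hd]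
    have a0 : ψ z ^ 2 ≤ 1 := by
      rw [← sq_abs]; exact pow_le_one₀ (abs_nonneg _) (h0 z)
    have a1 : dd ex ψ z ^ 2 ≤ 4 := by
      rw [← sq_abs]
      calc _ ≤ (2 : ℝ) ^ 2 := pow_le_pow_left₀ (abs_nonneg _) (h1 z) 2
        _ = 4 := by norm_num
    have a2 : dd ey ψ z ^ 2 ≤ 4 := by
      rw [← sq_abs]
      calc _ ≤ (2 : ℝ) ^ 2 := pow_le_pow_left₀ (abs_nonneg _) (h2 z) 2
        _ = 4 := by norm_num
    have b1 : (dd ex φ z * ψ z + φ z * dd ex ψ z) ^ 2 ≤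
        2 * (dd ex φ z ^ 2 * ψ z ^ 2) + 2 * (φ z ^ 2 * dd ex ψ z ^ 2) := by
      nlinarith [sq_nonneg (dd ex φ z * ψ z - φ z * dd ex ψ z)]
    have b2 : (dd ey φ z * ψ z + φ z * dd ey ψ z) ^ 2 ≤
        2 * (dd ey φ z ^ 2 * ψ z ^ 2) + 2 * (φ z ^ 2 * dd ey ψ z ^ 2) := by
      nlinarith [sq_nonneg (dd ey φ z * ψ z - φ z * dd ey ψ z)]
    have c1 : dd ex φ z ^ 2 * ψ z ^ 2 ≤ dd ex φ z ^ 2 * 1 := by gcongr
    have c2 : dd ey φ z ^ 2 * ψ z ^ 2 ≤ dd ey φ z ^ 2 * 1 := by gcongr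
    have c3 : φ z ^ 2 * dd ex ψ z ^ 2 ≤ φ z ^ 2 * 4 := by gcongr
    have c4 : φ z ^ 2 * dd ey ψ z ^ 2 ≤ φ z ^ 2 * 4 := by gcongr
    linarith

/-- the open square -/
def sqr (R : ℝ) : Set P := Ioo (-R) R ×ˢ Ioo (-R) R

theorem sqr_open (R : ℝ) : IsOpen (sqr R) := isOpen_Ioo.prod isOpen_Ioo

theorem mul_cut_test {U : Set P} {φ : P → ℝ} (h : IsTest U φ) {R : ℝ} (hR : 0 ≤ R) :
    IsTest1 (sqr (R + 2)) (fun z => φ z * cut R z) := by
  refine ⟨h.isTest1.smooth.mul (cut_contDiff R), h.cpt.mul_right, ?_⟩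
  have hs : Function.support (fun z => φ z * cut R z) ⊆
      Icc (-(R + 1)) (R + 1) ×ˢ Icc (-(R + 1)) (R + 1) := by
    intro z hz
    by_contra hcon
    apply hz
    have : R + 1 ≤ |z.1| ∨ R + 1 ≤ |z.2| := by
      by_contra h'
      push Not at h'
      apply hcon
      rw [abs_lt, abs_lt] at h'
      exact ⟨⟨h'.1.1.le, h'.1.2.le⟩, ⟨h'.2.1.le, h'.2.2.le⟩⟩
    show φ z * (cut1 R z.1 * cut1 R z.2) = 0
    rcases this with h' | h'
    · rw [cut1_zero hR h']; ring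
    · rw [cut1_zero hR h']; ring
  refine (closure_minimal hs (isClosed_Icc.prod isClosed_Icc)).trans ?_
  apply Set.prod_mono
  · intro x hx
    exact ⟨by linarith [hx.1], by linarith [hx.2]⟩
  · intro x hx
    exact ⟨by linarith [hx.1], by linarith [hx.2]⟩

theorem mul_one_sub_cut_test {U : Set P} {φ : P → ℝ} (h : IsTest U φ) {R : ℝ} :
    IsTest1 (U ∩ (Metric.closedBall (0 : P) R)ᶜ) (fun z => φ z * (1 - cut (R + 1) z)) := by
  have hc : ContDiff ℝ 1 (fun z => 1 - cut (R + 1) z) := contDiff_const.sub (cut_contDiff _)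
  refine ⟨h.isTest1.smooth.mul hc, h.cpt.mul_right, ?_⟩
  apply subset_inter
  · exact (tsupport_mul_subset_left).trans h.sub
  · have hs : Function.support (fun z => φ z * (1 - cut (R + 1) z)) ⊆
        {z : P | R + 1 ≤ ‖z‖} := by
      intro z hz
      by_contra hcon
      apply hz
      simp only [mem_ofPred_eq, not_le] at hcon
      have h1 : |z.1| ≤ R + 1 := (norm_fst_le z).trans hcon.le
      have h2 : |z.2| ≤ R + 1 := (norm_snd_le z).trans hcon.le
      show φ z * (1 - cut1 (R + 1) z.1 * cut1 (R + 1) z.2) = 0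
      rw [cut1_one h1, cut1_one h2]; ring
    refine (closure_minimal hs (isClosed_le continuous_const continuous_norm)).trans ?_
    intro z hz
    simp only [mem_ofPred_eq] at hz
    simp only [mem_compl_iff, Metric.mem_closedBall, dist_zero_right, not_le]
    linarith

/-! ## Inequalities -/

theorem int_sq_add2 {f g h : P → ℝ} (hf : MemLp f 2 volume) (hg : MemLp g 2 volume)
    (e : ∀ z, h z = f z + g z) : ∫ z, h z ^ 2 ≤ 2 * (∫ z, f z ^ 2) + 2 * ∫ z, g z ^ 2 := by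
  rw [← integral_const_mul, ← integral_const_mul,
    ← integral_add (hf.integrable_sq.const_mul 2) (hg.integrable_sq.const_mul 2)]
  apply integral_mono_of_nonneg (Eventually.of_forall fun z => sq_nonneg _)
    ((hf.integrable_sq.const_mul 2).add (hg.integrable_sq.const_mul 2))
  refine Eventually.of_forall fun z => ?_
  show h z ^ 2 ≤ 2 * f z ^ 2 + 2 * g z ^ 2
  rw [e z]
  nlinarith [sq_nonneg (f z - g z)]

theorem int_sq_add3 {f g h k : P → ℝ} (hf : MemLp f 2 volume) (hg : MemLp g 2 volume)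
    (hh : MemLp h 2 volume) (e : ∀ z, k z = f z + g z + h z) :
    ∫ z, k z ^ 2 ≤ 3 * (∫ z, f z ^ 2) + 3 * (∫ z, g z ^ 2) + 3 * ∫ z, h z ^ 2 := by
  rw [← int3' hf.integrable_sq hg.integrable_sq hh.integrable_sq]
  apply integral_mono_of_nonneg (Eventually.of_forall fun z => sq_nonneg _)
    (((hf.integrable_sq.const_mul 3).add (hg.integrable_sq.const_mul 3)).add
      (hh.integrable_sq.const_mul 3))
  refine Eventually.of_forall fun z => ?_
  show k z ^ 2 ≤ (3 * f z ^ 2 + 3 * g z ^ 2) + 3 * h z ^ 2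
  rw [e z]
  nlinarith [sq_nonneg (f z - g z), sq_nonneg (f z - h z), sq_nonneg (g z - h z)]

theorem one_div_le (n : ℕ) : 1 / ((n : ℝ) + 1) ≤ 1 := by
  rw [div_le_one (by positivity)]
  have : (0 : ℝ) ≤ n := Nat.cast_nonneg n
  linarith

/-- approximation of a sequence in `H¹₀(U)` by tests -/
theorem approx_seq {U : Set P} {un an bn : ℕ → P → ℝ} (h : ∀ n, H0 U (un n) (an n) (bn n)) :
    ∃ φ : ℕ → P → ℝ, (∀ n, IsTest U (φ n)) ∧ (∀ n, ∫ z, (φ n z - un n z) ^ 2 ≤ 1 / ((n : ℝ) + 1)) ∧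
      ∀ n, En (φ n) ≤ 2 * (∫ z, (an n z ^ 2 + bn n z ^ 2)) + 4 := by
  have key : ∀ n : ℕ, ∃ φ, IsTest U φ ∧ ∫ z, (φ z - un n z) ^ 2 ≤ 1 / ((n : ℝ) + 1) ∧
      ∫ z, (dd ex φ z - an n z) ^ 2 ≤ 1 / ((n : ℝ) + 1) ∧
      ∫ z, (dd ey φ z - bn n z) ^ 2 ≤ 1 / ((n : ℝ) + 1) := fun n => (h n).approx (by positivity)
  choose φ ht g1 g2 g3 using key
  refine ⟨φ, ht, g1, fun n => ?_⟩
  have hx := (ht n).dd ex
  have hy := (ht n).dd ey
  have e1 : ∫ z, dd ex (φ n) z ^ 2 ≤ 2 * (∫ z, (dd ex (φ n) z - an n z) ^ 2) + 2 * ∫ z, an n z ^ 2 :=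
    int_sq_add2 (f := fun z => dd ex (φ n) z - an n z) (hx.memLp.sub (h n).ma) (h n).ma
      (fun z => by ring)
  have e2 : ∫ z, dd ey (φ n) z ^ 2 ≤ 2 * (∫ z, (dd ey (φ n) z - bn n z) ^ 2) + 2 * ∫ z, bn n z ^ 2 :=
    int_sq_add2 (f := fun z => dd ey (φ n) z - bn n z) (hy.memLp.sub (h n).mb) (h n).mb
      (fun z => by ring)
  unfold En
  rw [integral_add hx.int_sq hy.int_sq,
    integral_add (h n).ma.integrable_sq (h n).mb.integrable_sq]
  have := one_div_le n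
  have := g2 n
  have := g3 n
  linarith

theorem rell1 {R C : ℝ} {f : ℕ → P → ℝ} (ht : ∀ n, IsTest1 (sqr R) (f n))
    (h0 : ∀ n, Nm (f n) ≤ C) (h1 : ∀ n, En (f n) ≤ C) :
    ∃ k : ℕ → ℕ, StrictMono k ∧ ∀ ε > 0, ∃ N, ∀ m ≥ N, ∀ n ≥ N,
      ∫ z, (f (k m) z - f (k n) z) ^ 2 ≤ ε := by
  obtain ⟨φ, t1, t2, t3⟩ := approx_seq fun n => H0.of_C1 (sqr_open R) (ht n)
  have hN : ∀ n, ∫ z, φ n z ^ 2 ≤ 2 * C + 4 := by
    intro n
    have e1 : ∫ z, φ n z ^ 2 ≤ 2 * (∫ z, (φ n z - f n z) ^ 2) + 2 * ∫ z, f n z ^ 2 :=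
      int_sq_add2 (f := fun z => φ n z - f n z) ((t1 n).memLp.sub (ht n).memLp) (ht n).memLp
        (fun z => by ring)
    have := one_div_le n
    have := t2 n
    have := h0 n
    unfold Nm at this
    linarith
  have hE : ∀ n, ∫ z, (dd ex (φ n) z ^ 2 + dd ey (φ n) z ^ 2) ≤ 2 * C + 4 := by
    intro n
    have := t3 n
    have := h1 n
    unfold En at *
    linarith
  obtain ⟨k, hk, hc⟩ := Rellich.rellich (R := R) (C := 2 * C + 4) (φ := φ) t1 hN hE
  refine ⟨k, hk, fun ε hε => ?_⟩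
  obtain ⟨N1, hN1⟩ := hc (ε / 9) (by positivity)
  obtain ⟨N2, hN2⟩ := exists_nat_gt (9 / ε)
  refine ⟨max N1 N2, fun m hm n hn => ?_⟩
  have small : ∀ m ≥ max N1 N2, ∫ z, (φ (k m) z - f (k m) z) ^ 2 ≤ ε / 9 := by
    intro m hm
    refine (t2 (k m)).trans ?_
    rw [div_le_iff₀ (by positivity)]
    have h1 : (N2 : ℝ) ≤ m := by exact_mod_cast (le_max_right _ _).trans hm
    have h2 : (m : ℝ) ≤ k m := by exact_mod_cast hk.id_le m
    have h3 : 9 / ε < (k m : ℝ) + 1 := by linarith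
    rw [div_lt_iff₀ hε] at h3
    linarith
  have e := int_sq_add3 (f := fun z => φ (k m) z - φ (k n) z) (g := fun z => -(φ (k m) z - f (k m) z))
    (h := fun z => φ (k n) z - f (k n) z) (k := fun z => f (k m) z - f (k n) z)
    ((t1 _).memLp.sub (t1 _).memLp) (((t1 _).memLp.sub (ht _).memLp).neg)
    ((t1 _).memLp.sub (ht _).memLp) (fun z => by ring)
  simp only [neg_sq] at e
  have a1 := hN1 m ((le_max_left _ _).trans hm) n ((le_max_left _ _).trans hn)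
  have a2 := small m hm
  have a3 := small n hn
  linarith

theorem tail_vol {U : Set P} (hU : IsOpen U) (hf : volume U ≠ ⊤) :
    Tendsto (fun M : ℕ => vol (U ∩ (Metric.closedBall (0 : P) M)ᶜ)) atTop (𝓝 0) := by
  have h1 : Tendsto (volume ∘ fun M : ℕ => U ∩ (Metric.closedBall (0 : P) M)ᶜ) atTop
      (𝓝 (volume (⋂ M : ℕ, U ∩ (Metric.closedBall (0 : P) M)ᶜ))) := by
    apply tendsto_measure_iInter_atTop
    · intro M
      exact (hU.measurableSet.inter Metric.isClosed_closedBall.measurableSet.compl).nullMeasurableSet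
    · intro M N hMN
      apply inter_subset_inter_right
      apply compl_subset_compl.2
      exact Metric.closedBall_subset_closedBall (by exact_mod_cast hMN)
    · exact ⟨0, ((measure_mono inter_subset_left).trans_lt hf.lt_top).ne⟩
  have h2 : (⋂ M : ℕ, U ∩ (Metric.closedBall (0 : P) M)ᶜ) = ∅ := by
    rw [eq_empty_iff_forall_notMem]
    intro z hz
    rw [mem_iInter] at hz
    obtain ⟨M, hM⟩ := exists_nat_gt ‖z‖
    have := (hz M).2
    simp only [mem_compl_iff, Metric.mem_closedBall, dist_zero_right, not_le] at this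
    linarith
  rw [h2, measure_empty] at h1
  have h3 := (ENNReal.tendsto_toReal ENNReal.zero_ne_top).comp h1
  rw [ENNReal.toReal_zero] at h3
  exact h3

theorem vol_tail_le {U : Set P} (hf : volume U ≠ ⊤) (s : Set P) : vol (U ∩ s) ≤ vol U :=
  ENNReal.toReal_mono hf (measure_mono inter_subset_left)

theorem compact_tests {U : Set P} (hU : IsOpen U) (hf : volume U ≠ ⊤) {φ : ℕ → P → ℝ}
    (ht : ∀ n, IsTest U (φ n)) {C : ℝ} (hC : ∀ n, En (φ n) ≤ C) :
    ∃ k : ℕ → ℕ, StrictMono k ∧ ∀ ε > 0, ∃ N, ∀ m ≥ N, ∀ n ≥ N,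
      ∫ z, (φ (k m) z - φ (k n) z) ^ 2 ≤ ε := by
  have hV : 0 ≤ vol U := ENNReal.toReal_nonneg
  have hC0 : 0 ≤ C := (En_nonneg _).trans (hC 0)
  have hNm : ∀ n, Nm (φ n) ≤ vol U * C := by
    intro n
    have h1 := (H0.of_test (ht n)).poinc hU hf
    have h2 := mul_le_mul_of_nonneg_left (hC n) hV
    unfold En at h2
    have h3 := Nm_nonneg (φ n)
    unfold Nm at *
    linarith
  set C' := 2 * C + 16 * (vol U * C) with hC'
  have hCV : 0 ≤ vol U * C := mul_nonneg hV hC0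
  -- the truncated functions
  have hMp : ∀ M : ℕ, (0 : ℝ) ≤ (M : ℝ) + 1 := fun M => by positivity
  have habs : ∀ M : ℕ, ∀ z, |cut ((M : ℝ) + 1) z| ≤ 1 := fun M z => by
    rw [abs_of_nonneg (cut_range (hMp M) z).1]
    exact (cut_range (hMp M) z).2
  have b1 : ∀ (M : ℕ) n, Nm (fun z => φ n z * cut ((M : ℝ) + 1) z) ≤ C' ∧
      En (fun z => φ n z * cut ((M : ℝ) + 1) z) ≤ C' := by
    intro M n
    obtain ⟨a1, a2⟩ := en_mul_le (ht n) (cut_contDiff ((M : ℝ) + 1)) (habs M)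
      (fun z => (cut_dd_le (hMp M) z).1) (fun z => (cut_dd_le (hMp M) z).2)
    have := hNm n
    have := hC n
    constructor <;> linarith
  have b2 : ∀ (M : ℕ) n, En (fun z => φ n z * (1 - cut ((M : ℝ) + 1) z)) ≤ C' := by
    intro M n
    have hd : ∀ v z, dd v (fun z => 1 - cut ((M : ℝ) + 1) z) z = - dd v (cut ((M : ℝ) + 1)) z := by
      intro v z
      rw [dd_sub (differentiableAt_const _) ((cut_contDiff _).differentiable (by norm_num) z)]
      simp [dd]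
    obtain ⟨a1, a2⟩ := en_mul_le (ψ := fun z => 1 - cut ((M : ℝ) + 1) z) (ht n)
      (contDiff_const.sub (cut_contDiff ((M : ℝ) + 1)))
      (fun z => by
        obtain ⟨c1, c2⟩ := cut_range (hMp M) z
        rw [abs_of_nonneg (by linarith)]
        linarith)
      (fun z => by rw [hd, abs_neg]; exact (cut_dd_le (hMp M) z).1)
      (fun z => by rw [hd, abs_neg]; exact (cut_dd_le (hMp M) z).2)
    have := hNm n
    have := hC n
    linarith
  have tail : ∀ (M : ℕ) n, ∫ z, (φ n z * (1 - cut ((M : ℝ) + 1) z)) ^ 2 ≤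
      vol (U ∩ (Metric.closedBall (0 : P) M)ᶜ) * C' := by
    intro M n
    have hO : IsOpen (U ∩ (Metric.closedBall (0 : P) (M : ℝ))ᶜ) :=
      hU.inter Metric.isClosed_closedBall.isOpen_compl
    have hfin : volume (U ∩ (Metric.closedBall (0 : P) (M : ℝ))ᶜ) ≠ ⊤ :=
      ((measure_mono inter_subset_left).trans_lt hf.lt_top).ne
    have h1 := (H0.of_C1 hO (mul_one_sub_cut_test (ht n) (R := (M : ℝ)))).poinc hO hfin
    have h2 := b2 M n
    unfold En at h2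
    have h3 : 0 ≤ vol (U ∩ (Metric.closedBall (0 : P) (M : ℝ))ᶜ) := ENNReal.toReal_nonneg
    have h4 := mul_le_mul_of_nonneg_left h2 h3
    have h5 : 0 ≤ ∫ z, (φ n z * (1 - cut ((M : ℝ) + 1) z)) ^ 2 :=
      integral_nonneg fun z => sq_nonneg _
    linarith
  obtain ⟨k, hk, hc⟩ := diagonal (D := fun M m n =>
    ∫ z, (φ m z * cut ((M : ℝ) + 1) z - φ n z * cut ((M : ℝ) + 1) z) ^ 2) (by
      intro M k hk
      exact rell1 (R := (M : ℝ) + 1 + 2) (C := C') (f := fun n z => φ (k n) z * cut ((M : ℝ) + 1) z)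
        (fun n => mul_cut_test (ht _) (hMp M)) (fun n => (b1 M _).1) (fun n => (b1 M _).2))
  refine ⟨k, hk, fun ε hε => ?_⟩
  obtain ⟨M, hM⟩ : ∃ M : ℕ, vol (U ∩ (Metric.closedBall (0 : P) M)ᶜ) * C' ≤ ε / 9 := by
    have t := (tail_vol hU hf).mul_const C'
    rw [zero_mul] at t
    exact (t.eventually (ge_mem_nhds (by positivity))).exists
  obtain ⟨N, hN⟩ := hc M (ε / 9) (by positivity)
  refine ⟨N, fun m hm n hn => ?_⟩
  have mt : ∀ n, MemLp (fun z => φ n z * cut ((M : ℝ) + 1) z) 2 volume := fun n =>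
    (mul_cut_test (ht n) (hMp M)).memLp
  have mt' : ∀ n, MemLp (fun z => φ n z * (1 - cut ((M : ℝ) + 1) z)) 2 volume := fun n =>
    (mul_one_sub_cut_test (ht n) (R := (M : ℝ))).memLp
  have e := int_sq_add3
    (f := fun z => φ (k m) z * cut ((M : ℝ) + 1) z - φ (k n) z * cut ((M : ℝ) + 1) z)
    (g := fun z => φ (k m) z * (1 - cut ((M : ℝ) + 1) z))
    (h := fun z => -(φ (k n) z * (1 - cut ((M : ℝ) + 1) z))) (k := fun z => φ (k m) z - φ (k n) z)
    ((mt _).sub (mt _)) (mt' _) (mt' _).neg (fun z => by ring)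
  simp only [neg_sq] at e
  have a1 := hN m hm n hn
  have a2 := tail M (k m)
  have a3 := tail M (k n)
  linarith

end M1

/-- compactness of `H¹₀(U)` in `L²` -/
theorem compact_H0 {U : Set P} (hU : IsOpen U) (hf : volume U ≠ ⊤) {un an bn : ℕ → P → ℝ}
    (h : ∀ n, H0 U (un n) (an n) (bn n)) {C : ℝ}
    (hC : ∀ n, ∫ z, (an n z ^ 2 + bn n z ^ 2) ≤ C) :
    ∃ k : ℕ → ℕ, StrictMono k ∧ ∃ u, Conv2 volume (fun n => un (k n)) u := by
  obtain ⟨φ, t1, t2, t3⟩ := M1.approx_seq h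
  obtain ⟨k, hk, hc⟩ := M1.compact_tests hU hf t1 (C := 2 * C + 4) (fun n => by
    have := t3 n
    have := hC n
    linarith)
  refine ⟨k, hk, ?_⟩
  obtain ⟨u, hu⟩ := cauchy_conv2 (fun n => (t1 (k n)).memLp) hc
  refine ⟨u, hu.perturb (fun n => (h (k n)).mu) ?_⟩
  have t0 : Tendsto (fun n : ℕ => 1 / ((k n : ℝ) + 1)) atTop (𝓝 0) :=
    (tendsto_one_div_add_atTop_nhds_zero_nat (𝕜 := ℝ)).comp hk.tendsto_atTop
  refine squeeze_zero (fun n => integral_nonneg fun z => sq_nonneg _) (fun n => ?_) t0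
  have e : ∫ z, (un (k n) z - φ (k n) z) ^ 2 = ∫ z, (φ (k n) z - un (k n) z) ^ 2 := by
    congr 1; ext z; ring
  rw [e]
  exact t2 (k n)

end Pool.Agent.Lib.MP_f46d6a
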