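import Pool.Agent.Lib.MP_f46d6a_h64.Compact

/-!
# Existence of the torsion function and of the first eigenfunction
-/

set_option autoImplicit false

open MeasureTheory Set Filter Topology
open scoped ContDiff

namespace Pool.Agent.Lib.MP_f46d6a

open Pool.Agent.Lib.MP_dac83a

namespace M1

theorem lin_zero {A B : ℝ} (hB : 0 ≤ B) (h : ∀ t : ℝ, 2 * t * A ≤ t ^ 2 * B) : A = 0 := by
  by_contra hA
  have hA2 : 0 < A ^ 2 := by positivity
  have h1 := h (A / (B + 1))
  have e1 : 2 * (A / (B + 1)) * A = 2 * A ^ 2 / (B + 1) := by ring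
  have e2 : (A / (B + 1)) ^ 2 * B = A ^ 2 * B / (B + 1) ^ 2 := by rw [div_pow]; ring
  rw [e1, e2, div_le_div_iff₀ (by positivity) (by positivity)] at h1
  have h2 : A ^ 2 * (B + 1) * (2 * (B + 1) - B) ≤ 0 := by nlinarith
  have h3 : 0 < A ^ 2 * (B + 1) * (2 * (B + 1) - B) := by
    apply mul_pos (by positivity)
    linarith
  linarith

section forms

variable {U V W : Set P} {u a b v c d η ηx ηy : P → ℝ}

theorem int_en2 (h : H0 U u a b) (h' : H0 V v c d) :
    Integrable (fun z => a z * c z + b z * d z) :=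
  (integrable_mul2 h.ma h'.ma).add (integrable_mul2 h.mb h'.mb)

theorem int_nm2 (h : H0 U u a b) (h' : H0 V v c d) :
    Integrable (fun z => u z * v z) := integrable_mul2 h.mu h'.mu

theorem en_comb (h : H0 U u a b) (h' : H0 V v c d) (s t : ℝ) :
    ∫ z, ((s * a z + t * c z) ^ 2 + (s * b z + t * d z) ^ 2) =
      s ^ 2 * (∫ z, (a z ^ 2 + b z ^ 2)) + 2 * s * t * (∫ z, (a z * c z + b z * d z)) +
        t ^ 2 * ∫ z, (c z ^ 2 + d z ^ 2) := by
  rw [← int3 h.int_en (int_en2 h h') h'.int_en]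
  congr 1
  ext z
  ring

theorem nm_comb (h : H0 U u a b) (h' : H0 V v c d) (s t : ℝ) :
    ∫ z, (s * u z + t * v z) ^ 2 =
      s ^ 2 * (∫ z, u z ^ 2) + 2 * s * t * (∫ z, u z * v z) + t ^ 2 * ∫ z, v z ^ 2 := by
  rw [← int3 h.mu.integrable_sq (int_nm2 h h') h'.mu.integrable_sq]
  congr 1
  ext z
  ring

theorem en2_comb (h : H0 U u a b) (h' : H0 V v c d) (h'' : H0 W η ηx ηy) (s t : ℝ) :
    ∫ z, ((s * a z + t * c z) * ηx z + (s * b z + t * d z) * ηy z) =
      s * (∫ z, (a z * ηx z + b z * ηy z)) + t * ∫ z, (c z * ηx z + d z * ηy z) := by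
  rw [← integral_const_mul, ← integral_const_mul,
    ← integral_add ((int_en2 h h'').const_mul s) ((int_en2 h' h'').const_mul t)]
  congr 1
  ext z
  ring

theorem nm2_comb (h : H0 U u a b) (h' : H0 V v c d) (h'' : H0 W η ηx ηy) (s t : ℝ) :
    ∫ z, (s * u z + t * v z) * η z = s * (∫ z, u z * η z) + t * ∫ z, v z * η z := by
  rw [← integral_const_mul, ← integral_const_mul,
    ← integral_add ((int_nm2 h h'').const_mul s) ((int_nm2 h' h'').const_mul t)]
  congr 1
  ext z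
  ring

theorem en_sub (h : H0 U u a b) (h' : H0 V v c d) :
    ∫ z, ((a z - c z) ^ 2 + (b z - d z) ^ 2) =
      (∫ z, (a z ^ 2 + b z ^ 2)) - 2 * (∫ z, (a z * c z + b z * d z)) +
        ∫ z, (c z ^ 2 + d z ^ 2) := by
  have := en_comb h h' 1 (-1)
  have e : ∀ z, (1 * a z + (-1) * c z) ^ 2 + (1 * b z + (-1) * d z) ^ 2 =
      (a z - c z) ^ 2 + (b z - d z) ^ 2 := fun z => by ring
  simp only [e] at this
  rw [this]; ring

theorem nm_sub (h : H0 U u a b) (h' : H0 V v c d) :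
    ∫ z, (u z - v z) ^ 2 =
      (∫ z, u z ^ 2) - 2 * (∫ z, u z * v z) + ∫ z, v z ^ 2 := by
  have := nm_comb h h' 1 (-1)
  have e : ∀ z, (1 * u z + (-1) * v z) ^ 2 = (u z - v z) ^ 2 := fun z => by ring
  simp only [e] at this
  rw [this]; ring

/-- a sequence that is Cauchy in energy converges -/
theorem complete_en (hU : IsOpen U) (hf : volume U ≠ ⊤) {un an bn : ℕ → P → ℝ}
    (h : ∀ n, H0 U (un n) (an n) (bn n))
    (hc : ∀ ε > 0, ∃ N, ∀ m ≥ N, ∀ n ≥ N,
      ∫ z, ((an m z - an n z) ^ 2 + (bn m z - bn n z) ^ 2) ≤ ε) :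
    ∃ u a b, H0 U u a b ∧ Conv2 volume un u ∧ Conv2 volume an a ∧ Conv2 volume bn b := by
  have hV : 0 ≤ vol U := ENNReal.toReal_nonneg
  have key : ∀ m n, ∫ z, (an m z - an n z) ^ 2 ≤
        ∫ z, ((an m z - an n z) ^ 2 + (bn m z - bn n z) ^ 2) ∧
      ∫ z, (bn m z - bn n z) ^ 2 ≤
        ∫ z, ((an m z - an n z) ^ 2 + (bn m z - bn n z) ^ 2) := by
    intro m n
    have i1 := ((h m).ma.sub (h n).ma).integrable_sq
    have i2 := ((h m).mb.sub (h n).mb).integrable_sq
    constructor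
    · apply integral_mono i1 (i1.add i2)
      intro z
      show (an m z - an n z) ^ 2 ≤ (an m z - an n z) ^ 2 + (bn m z - bn n z) ^ 2
      nlinarith [sq_nonneg (bn m z - bn n z)]
    · apply integral_mono i2 (i1.add i2)
      intro z
      show (bn m z - bn n z) ^ 2 ≤ (an m z - an n z) ^ 2 + (bn m z - bn n z) ^ 2
      nlinarith [sq_nonneg (an m z - an n z)]
  refine H0.complete h (fun ε hε => ?_) (fun ε hε => ?_) (fun ε hε => ?_)
  · obtain ⟨N, hN⟩ := hc (ε / (vol U + 1)) (by positivity)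
    refine ⟨N, fun m hm n hn => ?_⟩
    have h1 := ((h m).sub (h n)).poinc hU hf
    have h2 := mul_le_mul_of_nonneg_left (hN m hm n hn) hV
    have h3 : vol U * (ε / (vol U + 1)) ≤ ε := by
      rw [mul_div_assoc', div_le_iff₀ (by positivity)]
      nlinarith
    have h4 : 0 ≤ ∫ z, (un m z - un n z) ^ 2 := integral_nonneg fun z => sq_nonneg _
    linarith
  · obtain ⟨N, hN⟩ := hc ε hε
    exact ⟨N, fun m hm n hn => (key m n).1.trans (hN m hm n hn)⟩
  · obtain ⟨N, hN⟩ := hc ε hε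
    exact ⟨N, fun m hm n hn => (key m n).2.trans (hN m hm n hn)⟩

theorem int_lim (hU : IsOpen U) (hf : volume U ≠ ⊤) {un an bn : ℕ → P → ℝ}
    (h : ∀ n, H0 U (un n) (an n) (bn n)) (h' : H0 U u a b) (hc : Conv2 volume un u) :
    Tendsto (fun n => ∫ z, un n z) atTop (𝓝 (∫ z, u z)) :=
  (hc.l1 hU.measurableSet hf (fun n => by filter_upwards [(h n).zero_off] with z hz h' using (hz h').1)
    (by filter_upwards [h'.zero_off] with z hz h' using (hz h').1)).2

theorem en_lim {un an bn : ℕ → P → ℝ}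
    (h : ∀ n, H0 U (un n) (an n) (bn n)) (h' : H0 U u a b) (h1 : Conv2 volume an a)
    (h2 : Conv2 volume bn b) :
    Tendsto (fun n => ∫ z, (an n z ^ 2 + bn n z ^ 2)) atTop (𝓝 (∫ z, (a z ^ 2 + b z ^ 2))) := by
  rw [integral_add h'.ma.integrable_sq h'.mb.integrable_sq]
  refine (h1.integral_sq.add h2.integral_sq).congr fun n => ?_
  rw [integral_add (h n).ma.integrable_sq (h n).mb.integrable_sq]

end forms

end M1

open M1

/-- existence of the torsion function -/
theorem exists_tor {U : Set P} (hU : IsOpen U) (hf : volume U ≠ ⊤) : ∃ w wx wy, Tor U w wx wy := by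
  have hbdd := torP_bdd hU hf
  have hne : {q | ∃ φ, IsTest U φ ∧ q = 2 * (∫ z, φ z) - En φ}.Nonempty := by
    refine ⟨_, fun _ => 0, ?_, rfl⟩
    refine ⟨contDiff_const, HasCompactSupport.zero, ?_⟩
    rw [show (fun _ : P => (0 : ℝ)) = 0 from rfl, tsupport_eq_empty_iff.2 rfl]
    exact empty_subset _
  have key : ∀ n : ℕ, ∃ φ, IsTest U φ ∧ torP U - 1 / ((n : ℝ) + 1) < 2 * (∫ z, φ z) - En φ := by
    intro n
    have h1 : torP U - 1 / ((n : ℝ) + 1) < torP U := by
      have : 0 < 1 / ((n : ℝ) + 1) := by positivity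
      linarith
    obtain ⟨q, ⟨φ, hφ, rfl⟩, hq⟩ := exists_lt_of_lt_csSup hne h1
    exact ⟨φ, hφ, hq⟩
  choose φ ht hJ using key
  have hH : ∀ n, H0 U (φ n) (dd ex (φ n)) (dd ey (φ n)) := fun n => H0.of_test (ht n)
  have hJ' : ∀ n : ℕ, torP U - 1 / ((n : ℝ) + 1) < 2 * (∫ z, φ n z) -
      ∫ z, (dd ex (φ n) z ^ 2 + dd ey (φ n) z ^ 2) := hJ
  obtain ⟨w, wx, wy, hw, c1, c2, c3⟩ := complete_en hU hf hH (by
    intro ε hε
    obtain ⟨N, hN⟩ := exists_nat_gt (4 / ε)
    refine ⟨N, fun m hm n hn => ?_⟩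
    have hs : ∀ m ≥ N, 1 / ((m : ℝ) + 1) ≤ ε / 4 := by
      intro m hm
      rw [div_le_iff₀ (by positivity)]
      have h1 : (N : ℝ) ≤ m := by exact_mod_cast hm
      have h3 : 4 / ε < (m : ℝ) + 1 := by linarith
      rw [div_lt_iff₀ hε] at h3
      linarith
    have h1 := ((hH m).comb (hH n) (1 / 2) (1 / 2)).le_torP hU hf
    rw [en_comb (hH m) (hH n)] at h1
    have h2 : ∫ z, ((1 / 2 : ℝ) * φ m z + 1 / 2 * φ n z) =
        1 / 2 * (∫ z, φ m z) + 1 / 2 * ∫ z, φ n z := by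
      rw [integral_add ((ht m).integrable.const_mul _) ((ht n).integrable.const_mul _),
        integral_const_mul, integral_const_mul]
    rw [h2] at h1
    rw [en_sub (hH m) (hH n)]
    have := hs m hm
    have := hs n hn
    have := hJ' m
    have := hJ' n
    linarith)
  have hJw : 2 * (∫ z, w z) - ∫ z, (wx z ^ 2 + wy z ^ 2) = torP U := by
    apply le_antisymm (hw.le_torP hU hf)
    have l1 := ((int_lim hU hf hH hw c1).const_mul 2).sub (en_lim hH hw c2 c3)
    have l2 : Tendsto (fun n : ℕ => torP U - 1 / ((n : ℝ) + 1)) atTop (𝓝 (torP U - 0)) :=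
      tendsto_const_nhds.sub tendsto_one_div_add_atTop_nhds_zero_nat
    rw [sub_zero] at l2
    exact le_of_tendsto_of_tendsto' l2 l1 (fun n => (hJ' n).le)
  have heq : ∀ η ηx ηy, H0 U η ηx ηy → ∫ z, (wx z * ηx z + wy z * ηy z) = ∫ z, η z := by
    intro η ηx ηy hη
    have hB : 0 ≤ ∫ z, (ηx z ^ 2 + ηy z ^ 2) := integral_nonneg fun z => by positivity
    have := lin_zero (A := (∫ z, η z) - ∫ z, (wx z * ηx z + wy z * ηy z)) hB (by
      intro t
      have h1 := (hw.comb hη 1 t).le_torP hU hf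
      rw [en_comb hw hη] at h1
      have h2 : ∫ z, ((1 : ℝ) * w z + t * η z) = (∫ z, w z) + t * ∫ z, η z := by
        have i1 := (hw.integrable_all hU hf).1
        have i2 := (hη.integrable_all hU hf).1
        rw [integral_add (i1.const_mul _) (i2.const_mul _), integral_const_mul, integral_const_mul,
          one_mul]
      rw [h2] at h1
      linarith)
    linarith
  refine ⟨w, wx, wy, hw, heq, ?_⟩
  -- nonnegativity
  have hn := hw.neg.posPart hU (l := 0) le_rfl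
  have h1 := heq _ _ _ hn
  have h2 : ∫ z, (wx z * (if (0 : ℝ) < - w z then - wx z else 0) +
      wy z * (if (0 : ℝ) < - w z then - wy z else 0)) ≤ 0 := by
    apply integral_nonpos
    intro z
    simp only [Pi.zero_apply]
    split_ifs
    · nlinarith [sq_nonneg (wx z), sq_nonneg (wy z)]
    · simp
  rw [h1] at h2
  have h3 : 0 ≤ ∫ z, max 0 (- w z - 0) := integral_nonneg fun z => le_max_left _ _
  have h4 : ∫ z, max 0 (- w z - 0) = 0 := le_antisymm h2 h3
  have h5 := (integral_eq_zero_iff_of_nonneg (fun z => le_max_left (0 : ℝ) (- w z - 0))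
    (hn.integrable_all hU hf).1).1 h4
  filter_upwards [h5] with z hz
  have h6 : max 0 (- w z - 0) = 0 := hz
  have h7 := le_max_right 0 (- w z - 0)
  linarith

theorem Tor.torP_eq {U : Set P} (hU : IsOpen U) (hf : volume U ≠ ⊤) {w wx wy : P → ℝ}
    (h : Tor U w wx wy) : torP U = ∫ z, w z ∧ torP U = ∫ z, (wx z ^ 2 + wy z ^ 2) := by
  have h1 := h.eq _ _ _ h.mem
  have e : ∀ z, wx z * wx z + wy z * wy z = wx z ^ 2 + wy z ^ 2 := fun z => by ring
  simp only [e] at h1
  have h2 := h.mem.le_torP hU hf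
  have h3 : torP U ≤ ∫ z, (wx z ^ 2 + wy z ^ 2) := by
    apply torP_le
    intro φ hφ
    have hH := H0.of_test hφ
    have h4 := h.eq _ _ _ hH
    have h5 := en_sub h.mem hH
    have h6 : 0 ≤ ∫ z, ((wx z - dd ex φ z) ^ 2 + (wy z - dd ey φ z) ^ 2) :=
      integral_nonneg fun z => by positivity
    unfold En
    linarith
  constructor <;> linarith

namespace M1

variable {U : Set P} {u a b : P → ℝ}

/-- minimising sequences for the first eigenvalue -/
theorem min_seq (hU : IsOpen U) (hne : U.Nonempty) (hf : volume U ≠ ⊤) {un an bn : ℕ → P → ℝ}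
    (h : ∀ n, H0 U (un n) (an n) (bn n)) (hn : ∀ n, ∫ z, un n z ^ 2 = 1)
    (hE : ∀ n : ℕ, ∫ z, (an n z ^ 2 + bn n z ^ 2) ≤ lamP U + 1 / ((n : ℝ) + 1)) :
    ∃ k : ℕ → ℕ, StrictMono k ∧ ∃ u a b, H0 U u a b ∧ Conv2 volume (fun n => un (k n)) u ∧
      ∫ z, u z ^ 2 = 1 ∧ ∫ z, (a z ^ 2 + b z ^ 2) = lamP U := by
  obtain ⟨k, hk, u0, hu0⟩ := compact_H0 hU hf h (C := lamP U + 1) (fun n => by
    have := hE n
    have := one_div_le n
    linarith)
  have hlam : 0 ≤ lamP U := (lamP_pos hU hne hf).le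
  obtain ⟨u, a, b, hu, c1, c2, c3⟩ := complete_en hU hf (fun n => h (k n)) (by
    intro ε hε
    obtain ⟨N1, hN1⟩ := exists_nat_gt (8 / ε)
    have t := (hu0.lim.eventually (ge_mem_nhds (show 0 < ε / (8 * (lamP U + 1)) by positivity)))
    obtain ⟨N2, hN2⟩ := eventually_atTop.1 t
    refine ⟨max N1 N2, fun m hm n hn' => ?_⟩
    have hs : ∀ m ≥ max N1 N2, 1 / ((k m : ℝ) + 1) ≤ ε / 8 := by
      intro m hm
      rw [div_le_iff₀ (by positivity)]
      have h1 : (N1 : ℝ) ≤ m := by exact_mod_cast (le_max_left _ _).trans hm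
      have h2 : (m : ℝ) ≤ k m := by exact_mod_cast hk.id_le m
      have h3 : 8 / ε < (k m : ℝ) + 1 := by linarith
      rw [div_lt_iff₀ hε] at h3
      linarith
    have h1 := hs m hm
    have h2 := hs n hn'
    have h3 := hE (k m)
    have h4 := hE (k n)
    have h5 := hN2 m ((le_max_right _ _).trans hm)
    have h6 := hN2 n ((le_max_right _ _).trans hn')
    have h7 : ∫ z, (un (k m) z - un (k n) z) ^ 2 ≤
        2 * (∫ z, (un (k m) z - u0 z) ^ 2) + 2 * ∫ z, (un (k n) z - u0 z) ^ 2 := by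
      have := int_sq_add2 (f := fun z => un (k m) z - u0 z) (g := fun z => -(un (k n) z - u0 z))
        (h := fun z => un (k m) z - un (k n) z) (hu0.sub_mem m) (hu0.sub_mem n).neg
        (fun z => by ring)
      simpa only [neg_sq] using this
    have h8 := ((h (k m)).comb (h (k n)) 1 1).lam_le
    rw [en_comb (h (k m)) (h (k n)), nm_comb (h (k m)) (h (k n))] at h8
    rw [nm_sub (h (k m)) (h (k n))] at h7
    rw [en_sub (h (k m)) (h (k n))]
    have h9 : lamP U * (ε / (8 * (lamP U + 1))) ≤ ε / 8 := by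
      rw [mul_div_assoc', div_le_div_iff₀ (by positivity) (by norm_num)]
      nlinarith
    rw [hn, hn] at h7 h8
    have h10 : lamP U * (1 - 2 * (∫ z, un (k m) z * un (k n) z) + 1) ≤
        lamP U * (4 * (ε / (8 * (lamP U + 1)))) := by
      apply mul_le_mul_of_nonneg_left _ hlam
      linarith
    nlinarith)
  refine ⟨k, hk, u, a, b, hu, c1, ?_, ?_⟩
  · have := c1.integral_sq
    simp only [hn] at this
    exact (tendsto_nhds_unique this tendsto_const_nhds)
  · apply le_antisymm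
    · have l1 := en_lim (fun n => h (k n)) hu c2 c3
      have l2 : Tendsto (fun n : ℕ => lamP U + 1 / ((k n : ℝ) + 1)) atTop (𝓝 (lamP U + 0)) :=
        tendsto_const_nhds.add
          ((tendsto_one_div_add_atTop_nhds_zero_nat (𝕜 := ℝ)).comp hk.tendsto_atTop)
      rw [add_zero] at l2
      exact le_of_tendsto_of_tendsto' l1 l2 (fun n => hE (k n))
    · have h1 := hu.lam_le
      have h2 : ∫ z, u z ^ 2 = 1 := by
        have := c1.integral_sq
        simp only [hn] at this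
        exact (tendsto_nhds_unique this tendsto_const_nhds)
      rw [h2] at h1
      linarith

/-- minimisers solve the eigenvalue equation -/
theorem weak_of_min (h : H0 U u a b) (hm : ∫ z, (a z ^ 2 + b z ^ 2) ≤ lamP U * ∫ z, u z ^ 2) :
    ∀ η ηx ηy, H0 U η ηx ηy → ∫ z, (a z * ηx z + b z * ηy z) = lamP U * ∫ z, u z * η z := by
  intro η ηx ηy hη
  have hB : 0 ≤ (∫ z, (ηx z ^ 2 + ηy z ^ 2)) - lamP U * ∫ z, η z ^ 2 := by
    have := hη.lam_le
    linarith
  have := lin_zero (A := -((∫ z, (a z * ηx z + b z * ηy z)) - lamP U * ∫ z, u z * η z)) hB (by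
    intro t
    have h1 := (h.comb hη 1 t).lam_le
    rw [en_comb h hη, nm_comb h hη] at h1
    nlinarith)
  linarith

/-- the energy of the absolute value -/
theorem en_abs (hU : IsOpen U) (h : H0 U u a b) :
    ∫ z, (((if 0 < u z then a z else 0) - (if u z < 0 then a z else 0)) ^ 2 +
      ((if 0 < u z then b z else 0) - (if u z < 0 then b z else 0)) ^ 2) =
      ∫ z, (a z ^ 2 + b z ^ 2) := by
  apply integral_congr_ae
  filter_upwards [h.kink_zero hU] with z hz
  rcases lt_trichotomy (u z) 0 with h' | h' | h'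
  · simp [h', not_lt.2 h'.le]
  · obtain ⟨e1, e2⟩ := hz h'
    simp [h', e1, e2]
  · simp [h', not_lt.2 h'.le]

theorem eigf_abs (hU : IsOpen U) (h : H0 U u a b)
    (hm : ∫ z, (a z ^ 2 + b z ^ 2) ≤ lamP U * ∫ z, u z ^ 2) :
    Eigf U (lamP U) (fun z => |u z|)
      (fun z => (if 0 < u z then a z else 0) - (if u z < 0 then a z else 0))
      (fun z => (if 0 < u z then b z else 0) - (if u z < 0 then b z else 0)) := by
  have h1 := h.abs' hU
  refine ⟨h1, weak_of_min h1 ?_, by filter_upwards with z using abs_nonneg _⟩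
  rw [en_abs hU h]
  simpa only [sq_abs] using hm

theorem normalise (h : H0 U u a b) (hp : 0 < ∫ z, u z ^ 2) :
    ∃ v c d, H0 U v c d ∧ ∫ z, v z ^ 2 = 1 ∧
      ∫ z, (c z ^ 2 + d z ^ 2) = (∫ z, (a z ^ 2 + b z ^ 2)) / (∫ z, u z ^ 2) ∧
      ∀ z, v z = (√(∫ z, u z ^ 2))⁻¹ * u z := by
  refine ⟨_, _, _, h.smul ((√(∫ z, u z ^ 2))⁻¹), ?_, ?_, fun z => rfl⟩
  · have e : ∀ z, ((√(∫ z, u z ^ 2))⁻¹ * u z) ^ 2 = (∫ z, u z ^ 2)⁻¹ * u z ^ 2 := by
      intro z
      rw [mul_pow, inv_pow, Real.sq_sqrt hp.le]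
    simp only [e]
    rw [integral_const_mul, inv_mul_cancel₀ hp.ne']
  · have e : ∀ z, ((√(∫ z, u z ^ 2))⁻¹ * a z) ^ 2 + ((√(∫ z, u z ^ 2))⁻¹ * b z) ^ 2 =
        (∫ z, u z ^ 2)⁻¹ * (a z ^ 2 + b z ^ 2) := by
      intro z
      rw [mul_pow, mul_pow, inv_pow, Real.sq_sqrt hp.le]
      ring
    simp only [e]
    rw [integral_const_mul, inv_mul_eq_div]

end M1

/-- existence of the first eigenfunction -/
theorem exists_eig {U : Set P} (hU : IsOpen U) (hne : U.Nonempty) (hf : volume U ≠ ⊤) :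
    ∃ φ φx φy, Eigf U (lamP U) φ φx φy ∧ ∫ z, φ z ^ 2 = 1 := by
  have hset : {q | ∃ φ, IsTest U φ ∧ 0 < Nm φ ∧ q = En φ / Nm φ}.Nonempty := by
    obtain ⟨φ, h1, h2, -⟩ := exists_test hU hne
    exact ⟨_, φ, h1, h2, rfl⟩
  have key : ∀ n : ℕ, ∃ v c d, H0 U v c d ∧ ∫ z, v z ^ 2 = 1 ∧
      ∫ z, (c z ^ 2 + d z ^ 2) ≤ lamP U + 1 / ((n : ℝ) + 1) := by
    intro n
    have h1 : lamP U < lamP U + 1 / ((n : ℝ) + 1) := by
      have : 0 < 1 / ((n : ℝ) + 1) := by positivity
      linarith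
    obtain ⟨q, ⟨φ, hφ, hp, rfl⟩, hq⟩ := exists_lt_of_csInf_lt hset h1
    obtain ⟨v, c, d, h2, h3, h4, -⟩ := normalise (H0.of_test hφ) hp
    refine ⟨v, c, d, h2, h3, ?_⟩
    rw [h4]
    exact hq.le
  choose v c d h1 h2 h3 using key
  obtain ⟨k, hk, u, a, b, hu, -, h4, h5⟩ := min_seq hU hne hf h1 h2 h3
  refine ⟨_, _, _, eigf_abs hU hu (by rw [h4, h5, mul_one]), ?_⟩
  simpa only [sq_abs] using h4

end Pool.Agent.Lib.MP_f46d6a
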