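import Pool.Agent.Lib.MP_f46d6a_h64.Fill3

/-!
# Filling a tiny hole of an optimal set
-/

set_option autoImplicit false

open MeasureTheory Set Filter Topology
open scoped ContDiff

namespace Pool.Agent.Lib.MP_f46d6a

open Pool.Agent.Lib.MP_dac83a

namespace B4

open M1 M2

/-- the subsolution inequality against the new eigenfunction -/
theorem fill_ineq {Ω B W : Set P} (hΩ : IsOpen Ω) (hB : IsOpen B) (hf : volume Ω ≠ ⊤)
    {w wx wy ψ ψx ψy ψ' ψx' ψy' : P → ℝ} (ht : Tor Ω w wx wy) (he : Eigf Ω 1 ψ ψx ψy) {l : ℝ}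
    (he' : Eigf (Ω ∪ B) l ψ' ψx' ψy') {a : ℝ}
    (hpos : ∀ᵐ z, z ∈ W → a * ψ z ≤ w z - ψ z) (hz : ∀ᵐ z, z ∈ W → (1 + a) * ψ z ≤ 1)
    {ε r s : ℝ} {x0 : P} {χ : P → ℝ} (hχ : Cutoff ε r s x0 χ) (hr : 0 < r) (hs : 0 < s)
    (hBs : B ⊆ Metric.ball x0 s) (hfin : volume (Ω ∪ B) ≠ ⊤)
    (hW : Metric.closedBall x0 (2 * r) ⊆ W) :
    (1 + a) * (1 - l) * (∫ z, ψ' z * ψ z) ≤ (∫ z, ψ' z) - l * ∫ z, ψ' z * w z := by
  have hO : IsOpen (Ω ∪ B) := hΩ.union hB
  have hv := ht.mem.comb he.mem 1 (-(1 + a))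
  set f1 : P → ℝ := fun z => Ω.indicator (fun _ => (1 : ℝ)) z - (1 + a) * ψ z with hf1
  have mf1 : MemLp f1 2 volume :=
    (memLp_indicator_const 2 hΩ.measurableSet 1 (Or.inr hf)).sub (he.mem.mu.const_mul _)
  have hint : ∀ η ηx ηy, H0 (Ω ∪ B) η ηx ηy → Integrable η := fun η ηx ηy hη =>
    (hη.integrable_all hO hfin).1
  have heqv : ∀ η ηx ηy, H0 Ω η ηx ηy →
      ∫ z, ((1 * wx z + -(1 + a) * ψx z) * ηx z + (1 * wy z + -(1 + a) * ψy z) * ηy z) =
        ∫ z, f1 z * η z := by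
    intro η ηx ηy hη
    rw [en2_comb ht.mem he.mem hη, ht.eq _ _ _ hη, he.eq _ _ _ hη]
    have hηi : Integrable η := (hη.integrable_all hΩ hf).1
    have e1 : ∫ z, f1 z * η z = ∫ z, (1 * η z + -(1 + a) * (ψ z * η z)) := by
      apply integral_congr_ae
      filter_upwards [hη.zero_off] with z hz0
      by_cases hzΩ : z ∈ Ω
      · simp only [hf1, indicator_of_mem hzΩ]; ring
      · rw [(hz0 hzΩ).1]; ring
    rw [e1, integral_add (hηi.const_mul _) ((int_nm2 he.mem hη).const_mul _),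
      integral_const_mul, integral_const_mul]
    ring
  have hvpos : ∀ᵐ z, z ∈ W → 0 ≤ 1 * w z + -(1 + a) * ψ z := by
    filter_upwards [hpos] with z h1 h2
    have := h1 h2
    linarith
  have hfpos : ∀ᵐ z, z ∈ W → 0 ≤ f1 z := by
    filter_upwards [hz, he.mem.zero_off] with z h1 h2 hzW
    by_cases hzΩ : z ∈ Ω
    · simp only [hf1, indicator_of_mem hzΩ]
      have := h1 hzW
      linarith
    · simp only [hf1, indicator_of_notMem hzΩ, (h2 hzΩ).1]; simp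
  -- the two parts of the new eigenfunction
  have m1 := hχ.co_mem hs hΩ hBs he'.mem
  have m2 := hχ.mul_mem' hO he'.mem
  have p1 := heqv _ _ _ m1
  have p2 := sub_local_H0 hΩ hv mf1 heqv hvpos hfpos hr
    (by rw [← two_mul]; exact hW) m2
    (by filter_upwards [he'.nonneg] with z h1 using mul_nonneg (hχ.nonneg z) h1)
    (fun z hzo => by rw [hχ.outer z hzo, zero_mul])
  have m1' := m1.mono (subset_union_left (t := B))
  have e1 : ∫ z, ((1 * wx z + -(1 + a) * ψx z) * ψx' z + (1 * wy z + -(1 + a) * ψy z) * ψy' z) =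
      (∫ z, ((1 * wx z + -(1 + a) * ψx z) * ((1 - χ z) * ψx' z - dd ex χ z * ψ' z) +
        (1 * wy z + -(1 + a) * ψy z) * ((1 - χ z) * ψy' z - dd ey χ z * ψ' z))) +
      ∫ z, ((1 * wx z + -(1 + a) * ψx z) * (χ z * ψx' z + dd ex χ z * ψ' z) +
        (1 * wy z + -(1 + a) * ψy z) * (χ z * ψy' z + dd ey χ z * ψ' z)) := by
    rw [← integral_add (int_en2 hv m1) (int_en2 hv m2)]
    congr 1; ext z; ring
  have e2 : ∫ z, f1 z * ψ' z = (∫ z, f1 z * ((1 - χ z) * ψ' z)) + ∫ z, f1 z * (χ z * ψ' z) := by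
    rw [← integral_add (integrable_mul2 mf1 m1.mu) (integrable_mul2 mf1 m2.mu)]
    congr 1; ext z; ring
  have p3 : ∫ z, ((1 * wx z + -(1 + a) * ψx z) * ψx' z + (1 * wy z + -(1 + a) * ψy z) * ψy' z) ≤
      ∫ z, f1 z * ψ' z := by
    rw [e1, e2]; linarith
  have htm := ht.mem.mono (subset_union_left (t := B))
  have hem := he.mem.mono (subset_union_left (t := B))
  rw [en2_comb ht.mem he.mem he'.mem] at p3
  have e3 : ∫ z, (wx z * ψx' z + wy z * ψy' z) = l * ∫ z, ψ' z * w z := by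
    rw [← he'.eq _ _ _ htm]; congr 1; ext z; ring
  have e4 : ∫ z, (ψx z * ψx' z + ψy z * ψy' z) = l * ∫ z, ψ' z * ψ z := by
    rw [← he'.eq _ _ _ hem]; congr 1; ext z; ring
  rw [e3, e4] at p3
  have p4 : ∫ z, f1 z * ψ' z ≤ (∫ z, ψ' z) - (1 + a) * ∫ z, ψ' z * ψ z := by
    have i1 := hint _ _ _ he'.mem
    rw [← integral_const_mul, ← integral_sub i1 ((int_nm2 he'.mem hem).const_mul _)]
    apply integral_mono_ae (integrable_mul2 mf1 he'.mem.mu)
      (i1.sub ((int_nm2 he'.mem hem).const_mul _))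
    filter_upwards [he'.nonneg] with z h1
    show (Ω.indicator (fun _ => (1 : ℝ)) z - (1 + a) * ψ z) * ψ' z ≤
      ψ' z - (1 + a) * (ψ' z * ψ z)
    have h2 : Ω.indicator (fun _ => (1 : ℝ)) z ≤ 1 := by
      by_cases hzΩ : z ∈ Ω <;> simp [hzΩ]
    have h3 := mul_le_mul_of_nonneg_right h2 h1
    linarith
  linarith

/-- lower bound of the torsion of the filled set -/
theorem tor_fill {Ω B : Set P} (hΩ : IsOpen Ω) (hB : IsOpen B)
    (hfin : volume (Ω ∪ B) ≠ ⊤) (hf : volume Ω ≠ ⊤)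
    {w wx wy ψ ψx ψy ψ' ψx' ψy' : P → ℝ} (ht : Tor Ω w wx wy) (he : Eigf Ω 1 ψ ψx ψy) {l k : ℝ}
    (hk : ∫ z, ψ z ^ 2 = k) (he' : Eigf (Ω ∪ B) l ψ' ψx' ψy') (hk' : ∫ z, ψ' z ^ 2 = k) {a : ℝ}
    (ha : 0 ≤ a)
    (hI : (1 + a) * (1 - l) * (∫ z, ψ' z * ψ z) ≤ (∫ z, ψ' z) - l * ∫ z, ψ' z * w z) :
    torP Ω + (1 + a) ^ 2 * (k * (1 - l) - ∫ z, (ψ' z - ψ z) ^ 2) ≤ torP (Ω ∪ B) := by
  have hO : IsOpen (Ω ∪ B) := hΩ.union hB
  have htm := ht.mem.mono (subset_union_left (t := B))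
  have hem := he.mem.mono (subset_union_left (t := B))
  obtain ⟨hT1, hT2⟩ := ht.torP_eq hΩ hf
  obtain ⟨hE, hN⟩ := eta_en he hk he' hk'
  have hη := he'.mem.sub hem
  have J := (htm.comb hη 1 (1 + a)).le_torP hO hfin
  rw [en_comb htm hη, hE, ← hT2] at J
  have e1 : ∫ z, (wx z * (ψx' z - ψx z) + wy z * (ψy' z - ψy z)) =
      l * (∫ z, ψ' z * w z) - ∫ z, ψ z := by
    rw [← he'.eq _ _ _ htm, ← ht.eq _ _ _ he.mem,
      ← integral_sub (int_en2 he'.mem htm) (int_en2 ht.mem he.mem)]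
    congr 1; ext z; ring
  have iψ' := (he'.mem.integrable_all hO hfin).1
  have iψ := (he.mem.integrable_all hΩ hf).1
  have iw := (ht.mem.integrable_all hΩ hf).1
  have e2 : ∫ z, (1 * w z + (1 + a) * (ψ' z - ψ z)) =
      torP Ω + (1 + a) * ((∫ z, ψ' z) - ∫ z, ψ z) := by
    have i1 : Integrable (fun z => (1 + a) * (ψ' z - ψ z)) := (iψ'.sub iψ).const_mul _
    rw [hT1, ← integral_sub iψ' iψ, ← integral_const_mul, ← integral_add iw i1]
    congr 1; ext z; ring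
  rw [e1, e2] at J
  set X := ∫ z, ψ' z * ψ z with hX
  set N := ∫ z, (ψ' z - ψ z) ^ 2 with hNd
  have h1 := mul_le_mul_of_nonneg_left hI (show 0 ≤ 2 * (1 + a) by linarith)
  have hX' : X = k - N / 2 := by linarith
  rw [hX'] at h1
  have e3 : 2 * (1 + a) * ((1 + a) * (1 - l) * (k - N / 2)) - (1 + a) ^ 2 * (k * (1 - l) + l * N) =
      (1 + a) ^ 2 * (k * (1 - l) - N) := by ring
  linarith

/-- real inequality -/
theorem pow_low {D α : ℝ} (hD0 : 0 ≤ D) (hD : D ≤ 1 / 2) (hα0 : 0 < α) (hα : α ≤ 1) :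
    1 - α * D - 2 * α * D ^ 2 ≤ (1 - D) ^ α := by
  have hpos : 0 < 1 - D := by linarith
  have h1 : (1 / (1 - D)) ^ α ≤ 1 + α * (D / (1 - D)) := by
    have e : 1 / (1 - D) = 1 + D / (1 - D) := by field_simp; ring
    rw [e]
    apply rpow_one_add_le_one_add_mul_self _ hα0.le hα
    have : 0 ≤ D / (1 - D) := div_nonneg hD0 hpos.le
    linarith
  have h2 : D / (1 - D) ≤ D + 2 * D ^ 2 := by
    rw [div_le_iff₀ hpos]
    nlinarith [sq_nonneg D, mul_nonneg (sq_nonneg D) (show 0 ≤ 1 - 2 * D by linarith)]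
  rw [Real.div_rpow zero_le_one hpos.le, Real.one_rpow, div_le_iff₀ (Real.rpow_pos_of_pos hpos _)]
    at h1
  set y := (1 - D) ^ α with hy
  have hy0 : 0 < y := Real.rpow_pos_of_pos hpos _
  set x := α * (D / (1 - D)) with hx
  have hx0 : 0 ≤ x := mul_nonneg hα0.le (div_nonneg hD0 hpos.le)
  have h3 : 1 - x ≤ y := by
    have : (1 - x) * (1 + x) ≤ y * (1 + x) := by nlinarith
    exact le_of_mul_le_mul_right this (by linarith)
  have h4 : x ≤ α * (D + 2 * D ^ 2) := mul_le_mul_of_nonneg_left h2 hα0.le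
  nlinarith

/-- arithmetic conclusion -/
theorem fill_arith {a α T V β k D l T' L' V' : ℝ} (ha : 0 < a) (ha1 : a ≤ 1) (hα0 : 0 < α)
    (hα : α < 1) (hT : 0 < T) (hV : 0 < V) (hTV : T ≤ V) (hβ : 0 ≤ β) (hβV : β ≤ V)
    (hk : k = α * T) (hD0 : 0 ≤ D) (hD : D ≤ a / 16) (hL : L' = 1 - D) (hV' : V' = V + β)
    (hT' : T + (1 + a) ^ 2 * (k * D - a / 8 * (k * D)) ≤ T')
    (opt : L' ^ α * T' * V ^ (2 - α) ≤ l * V' ^ (2 - α)) (hl : l = T) :
    a * k * D ≤ 6 * β := by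
  have hk0 : 0 < k := by rw [hk]; positivity
  have hkD : 0 ≤ k * D := mul_nonneg hk0.le hD0
  have hVp : 0 < V ^ (2 - α) := Real.rpow_pos_of_pos hV _
  have hratio : V' ^ (2 - α) ≤ V ^ (2 - α) * (1 + 3 * (β / V)) := by
    have e : V' = V * (1 + β / V) := by rw [hV']; field_simp
    have hβV' : 0 ≤ β / V := div_nonneg hβ hV.le
    have hβV1 : β / V ≤ 1 := (div_le_one hV).2 hβV
    rw [e, Real.mul_rpow hV.le (by linarith)]
    apply mul_le_mul_of_nonneg_left _ hVp.le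
    calc (1 + β / V) ^ (2 - α) ≤ (1 + β / V) ^ (2 : ℝ) :=
          Real.rpow_le_rpow_of_exponent_le (by linarith) (by linarith)
      _ = (1 + β / V) ^ 2 := by norm_num
      _ ≤ 1 + 3 * (β / V) := by nlinarith
  have h1 : L' ^ α * T' ≤ T * (1 + 3 * (β / V)) := by
    have h2 : L' ^ α * T' * V ^ (2 - α) ≤ T * (1 + 3 * (β / V)) * V ^ (2 - α) := by
      calc _ ≤ l * V' ^ (2 - α) := opt
        _ ≤ l * (V ^ (2 - α) * (1 + 3 * (β / V))) := by
            apply mul_le_mul_of_nonneg_left hratio; rw [hl]; exact hT.le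
        _ = T * (1 + 3 * (β / V)) * V ^ (2 - α) := by rw [hl]; ring
    exact le_of_mul_le_mul_right h2 hVp
  have hpl := pow_low hD0 (by linarith) hα0 hα.le
  rw [hL] at h1
  have hp : 0 ≤ (1 - D) ^ α := (Real.rpow_pos_of_pos (by linarith) _).le
  have hT0' : T + (1 + 2 * a) * (1 - a / 8) * (k * D) ≤ T' := by
    refine le_trans ?_ hT'
    have : (1 + 2 * a) * (1 - a / 8) * (k * D) ≤ (1 + a) ^ 2 * (k * D - a / 8 * (k * D)) := by
      have h3 : 0 ≤ (1 - a / 8) * (k * D) := mul_nonneg (by linarith) hkD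
      nlinarith [mul_nonneg (sq_nonneg a) h3]
    linarith
  have hpos1 : 0 ≤ T + (1 + 2 * a) * (1 - a / 8) * (k * D) := by
    have : 0 ≤ (1 + 2 * a) * (1 - a / 8) * (k * D) :=
      mul_nonneg (mul_nonneg (by linarith) (by linarith)) hkD
    linarith
  have h4 : (1 - α * D - 2 * α * D ^ 2) * (T + (1 + 2 * a) * (1 - a / 8) * (k * D)) ≤
      T * (1 + 3 * (β / V)) := by
    refine le_trans ?_ h1
    exact mul_le_mul hpl hT0' hpos1 hp
  have h5 : T * (3 * (β / V)) ≤ 3 * β := by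
    have : T * (β / V) ≤ β := by
      rw [mul_div_assoc', div_le_iff₀ hV]
      nlinarith
    linarith
  have hαT : α * T = k := hk.symm
  -- expand
  have h6 : (1 - α * D - 2 * α * D ^ 2) * (T + (1 + 2 * a) * (1 - a / 8) * (k * D)) =
      T - k * D - 2 * (k * D) * D + (1 - α * D - 2 * α * D ^ 2) *
        ((1 + 2 * a) * (1 - a / 8) * (k * D)) := by
    rw [← hαT]; ring
  have h7 : 1 - 2 * D ≤ 1 - α * D - 2 * α * D ^ 2 := by
    have a1 : α * D ≤ D := mul_le_of_le_one_left hD0 hα.le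
    have a2 : 2 * α * D ^ 2 ≤ D := by
      have b1 : α * D ^ 2 ≤ D ^ 2 := mul_le_of_le_one_left (sq_nonneg _) hα.le
      have b2 : D ^ 2 ≤ D * (1 / 2) := by nlinarith
      linarith
    linarith
  have hc0 : 0 ≤ (1 + 2 * a) * (1 - a / 8) * (k * D) :=
    mul_nonneg (mul_nonneg (by linarith) (by linarith)) hkD
  have h8 : (1 - 2 * D) * ((1 + 2 * a) * (1 - a / 8) * (k * D)) ≤
      (1 - α * D - 2 * α * D ^ 2) * ((1 + 2 * a) * (1 - a / 8) * (k * D)) :=
    mul_le_mul_of_nonneg_right h7 hc0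
  have h9 : (1 - a / 8) * ((1 + 2 * a) * (1 - a / 8)) ≤ (1 - 2 * D) * ((1 + 2 * a) * (1 - a / 8)) := by
    apply mul_le_mul_of_nonneg_right (by linarith) (mul_nonneg (by linarith) (by linarith))
  have h10 : 1 + a / 8 + a / 2 ≤ (1 - a / 8) * ((1 + 2 * a) * (1 - a / 8)) := by
    nlinarith [mul_nonneg ha.le (show 0 ≤ 1 - a by linarith), mul_nonneg (sq_nonneg a)
      (show 0 ≤ 1 - a by linarith), sq_nonneg a]
  have h11 : (1 + a / 8 + a / 2) * (k * D) ≤
      (1 - 2 * D) * ((1 + 2 * a) * (1 - a / 8) * (k * D)) := by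
    have := mul_le_mul_of_nonneg_right (h10.trans h9) hkD
    linarith
  have h12 : 2 * (k * D) * D ≤ a / 8 * (k * D) := by
    have := mul_le_mul_of_nonneg_left (show 2 * D ≤ a / 8 by linarith) hkD
    linarith
  linarith

end B4

open M1 M2 B4

theorem gap_psi {Ω : Set P} (hΩ : IsOpen Ω) (hne : Ω.Nonempty) (hc : IsPreconnected Ω)
    (hf : volume Ω ≠ ⊤) (hl : lamP Ω = 1) {ψ ψx ψy : P → ℝ} (he : Eigf Ω 1 ψ ψx ψy)
    (hk0 : 0 < ∫ z, ψ z ^ 2) :
    ∃ γ > 0, ∀ v a b, H0 Ω v a b → ∫ z, v z * ψ z = 0 →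
      (1 + γ) * ∫ z, v z ^ 2 ≤ ∫ z, (a z ^ 2 + b z ^ 2) := by
  set c := (√(∫ z, ψ z ^ 2))⁻¹ with hcd
  have hc0 : 0 < c := inv_pos.2 (Real.sqrt_pos.2 hk0)
  have he1 : Eigf Ω (lamP Ω) (fun z => c * ψ z) (fun z => c * ψx z) (fun z => c * ψy z) := by
    refine ⟨he.mem.smul c, ?_, ?_⟩
    · intro η ηx ηy hη
      have e1 : ∫ z, (c * ψx z * ηx z + c * ψy z * ηy z) =
          c * ∫ z, (ψx z * ηx z + ψy z * ηy z) := by
        rw [← integral_const_mul]; congr 1; ext z; ring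
      have e2 : ∫ z, c * ψ z * η z = c * ∫ z, ψ z * η z := by
        rw [← integral_const_mul]; congr 1; ext z; ring
      rw [e1, e2, he.eq _ _ _ hη, hl]; ring
    · filter_upwards [he.nonneg] with z hz using mul_nonneg hc0.le hz
  have hn : ∫ z, (c * ψ z) ^ 2 = 1 := by
    have e : ∀ z, (c * ψ z) ^ 2 = (∫ z, ψ z ^ 2)⁻¹ * ψ z ^ 2 := by
      intro z
      rw [mul_pow, hcd, inv_pow, Real.sq_sqrt hk0.le]
    simp only [e]
    rw [integral_const_mul, inv_mul_cancel₀ hk0.ne']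
  obtain ⟨γ, hγ, h⟩ := gap hΩ hne hc hf he1 hn
  refine ⟨γ, hγ, fun v a b hv hperp => ?_⟩
  have := h v a b hv (by
    have e : ∀ z, v z * (c * ψ z) = c * (v z * ψ z) := fun z => by ring
    simp only [e]
    rw [integral_const_mul, hperp, mul_zero])
  rwa [hl] at this

/-- **filling a tiny open set** -/
theorem fill {Ω : Set P} (hΩ : IsOpen Ω) (hne : Ω.Nonempty) (hf : volume Ω ≠ ⊤)
    (hc : IsPreconnected Ω) {α : ℝ} (hα0 : 0 < α) (hα : α < 1) (hl : lamP Ω = 1)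
    (hopt : Opt α Ω) {w wx wy ψ ψx ψy : P → ℝ} (ht : Tor Ω w wx wy) (he : Eigf Ω 1 ψ ψx ψy)
    (hk : ∫ z, ψ z ^ 2 = α * torP Ω) {a : ℝ} (ha : 0 < a) (ha1 : a ≤ 1) {y : P} {r : ℝ}
    (hr : 0 < r) (hpos : ∀ᵐ z, z ∈ Metric.ball y r → a * ψ z ≤ w z - ψ z)
    (hz : ∀ᵐ z, z ∈ Metric.ball y r → (1 + a) * ψ z ≤ 1) :
    ∃ s0 > 0, ∀ (y' : P) (B : Set P), y' ∈ Metric.ball y (r / 2) → IsOpen B →
      B ⊆ Metric.ball y' s0 →
      a * (α * torP Ω) * (1 - lamP (Ω ∪ B)) ≤ 6 * vol (B \ Ω) ∧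
      (vol (B \ Ω) = 0 → ∀ η ηx ηy, H0 (Ω ∪ B) η ηx ηy →
        ∫ z, (ψx z * ηx z + ψy z * ηy z) = ∫ z, ψ z * η z) := by
  have hT := torP_pos hΩ hne hf
  have hV := vol_pos hΩ hne hf
  set k := α * torP Ω with hkd
  have hk0 : 0 < k := by positivity
  obtain ⟨γ, hγ, hgap⟩ := gap_psi hΩ hne hc hf hl he (by rw [hk]; exact hk0)
  obtain ⟨s1, hs1, hsm⟩ := eta_small hΩ hne hf hl he hk hk0 hγ hgap (show 0 < a / 8 by positivity)
  obtain ⟨s2, hs2, hD⟩ := D_small hΩ hne hf hl he (by rw [hk]; exact hk0)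
    (show 0 < a / 16 by positivity)
  obtain ⟨s3, hs3, hcut⟩ := exists_cutoff one_pos (show 0 < r / 8 by positivity)
  set s4 := √(vol Ω / 4) with hs4
  have hs4p : 0 < s4 := Real.sqrt_pos.2 (by positivity)
  refine ⟨min (min s1 s2) (min s3 s4), lt_min (lt_min hs1 hs2) (lt_min hs3 hs4p), ?_⟩
  intro y' B hy' hB hBs
  have b1 : B ⊆ Metric.ball y' s1 :=
    hBs.trans (Metric.ball_subset_ball ((min_le_left _ _).trans (min_le_left _ _)))
  have b2 : B ⊆ Metric.ball y' s2 :=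
    hBs.trans (Metric.ball_subset_ball ((min_le_left _ _).trans (min_le_right _ _)))
  have b3 : B ⊆ Metric.ball y' s3 :=
    hBs.trans (Metric.ball_subset_ball ((min_le_right _ _).trans (min_le_left _ _)))
  have b4 : B ⊆ Metric.ball y' s4 :=
    hBs.trans (Metric.ball_subset_ball ((min_le_right _ _).trans (min_le_right _ _)))
  have hO : IsOpen (Ω ∪ B) := hΩ.union hB
  have hBfin : volume B ≠ ⊤ := ((measure_mono b1).trans_lt ball_ne_top.lt_top).ne
  have hfin : volume (Ω ∪ B) ≠ ⊤ :=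
    ((measure_union_le _ _).trans_lt (ENNReal.add_lt_top.2 ⟨hf.lt_top, hBfin.lt_top⟩)).ne
  have hneU : (Ω ∪ B).Nonempty := hne.mono subset_union_left
  have hvol : vol (Ω ∪ B) = vol Ω + vol (B \ Ω) := by
    unfold vol
    rw [← union_sdiff_self, measure_union disjoint_sdiff_right (hB.measurableSet.diff hΩ.measurableSet),
      ENNReal.toReal_add hf ((measure_mono sdiff_subset).trans_lt hBfin.lt_top).ne]
  have hβ0 : 0 ≤ vol (B \ Ω) := ENNReal.toReal_nonneg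
  have hβV : vol (B \ Ω) ≤ vol Ω := by
    calc vol (B \ Ω) ≤ vol (Metric.ball y' s4) :=
          ENNReal.toReal_mono ball_ne_top (measure_mono (sdiff_subset.trans b4))
      _ = 4 * s4 ^ 2 := vol_ball hs4p.le
      _ = vol Ω := by rw [hs4, Real.sq_sqrt (by positivity)]; ring
  -- the new eigenfunction
  obtain ⟨φ', φx', φy', hφ', hφn⟩ := exists_eig hO hneU hfin
  set l := lamP (Ω ∪ B) with hldef
  have hl1 : l ≤ 1 := lam_union_le he (by rw [hk]; exact hk0)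
  set c := √k with hcdef
  have hc0 : 0 < c := Real.sqrt_pos.2 hk0
  have he' : Eigf (Ω ∪ B) l (fun z => c * φ' z) (fun z => c * φx' z) (fun z => c * φy' z) := by
    refine ⟨hφ'.mem.smul c, ?_, ?_⟩
    · intro η ηx ηy hη
      have e1 : ∫ z, (c * φx' z * ηx z + c * φy' z * ηy z) =
          c * ∫ z, (φx' z * ηx z + φy' z * ηy z) := by
        rw [← integral_const_mul]; congr 1; ext z; ring
      have e2 : ∫ z, c * φ' z * η z = c * ∫ z, φ' z * η z := by
        rw [← integral_const_mul]; congr 1; ext z; ring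
      rw [e1, e2, hφ'.eq _ _ _ hη]; ring
    · filter_upwards [hφ'.nonneg] with z hz using mul_nonneg hc0.le hz
  have hk' : ∫ z, (c * φ' z) ^ 2 = k := by
    have e : ∀ z, (c * φ' z) ^ 2 = k * φ' z ^ 2 := by
      intro z
      rw [mul_pow, hcdef, Real.sq_sqrt hk0.le]
    simp only [e]
    rw [integral_const_mul, hφn, mul_one]
  have hN := hsm y' B hB b1 _ _ _ he' hk'
  obtain ⟨χ, hχ⟩ := hcut y'
  have hWsub : Metric.closedBall y' (2 * (r / 8)) ⊆ Metric.ball y r := by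
    intro x hx
    rw [Metric.mem_closedBall] at hx
    rw [Metric.mem_ball] at hy' ⊢
    linarith [dist_triangle x y' y]
  have hI := fill_ineq hΩ hB hf ht he he' hpos hz hχ (by positivity) hs3 b3 hfin hWsub
  have hTf := tor_fill hΩ hB hfin hf ht he hk he' hk' ha.le hI
  have hD0 : 0 ≤ 1 - l := by linarith
  have hT' : torP Ω + (1 + a) ^ 2 * (k * (1 - l) - a / 8 * (k * (1 - l))) ≤ torP (Ω ∪ B) := by
    refine le_trans ?_ hTf
    have := mul_le_mul_of_nonneg_left hN (sq_nonneg (1 + a))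
    linarith
  have hTV : torP Ω ≤ vol Ω := by
    have := lam_tor_le hΩ hne hf
    rwa [hl, one_mul] at this
  have hop := hopt (Ω ∪ B) hO hneU hfin
  rw [hl, Real.one_rpow, one_mul] at hop
  have hmain : a * k * (1 - l) ≤ 6 * vol (B \ Ω) :=
    fill_arith ha ha1 hα0 hα hT hV hTV hβ0 hβV hkd hD0 (hD y' B hB b2) (by ring) hvol hT' hop rfl
  refine ⟨hmain, fun h0 η ηx ηy hη => ?_⟩
  rw [h0, mul_zero] at hmain
  have hl1' : l = 1 := by
    have h1 : 0 < a * k := by positivity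
    have h2 : 1 - l ≤ 0 := by
      by_contra hcon
      push Not at hcon
      have := mul_pos h1 hcon
      linarith
    linarith
  have hN0 : ∫ z, (c * φ' z - ψ z) ^ 2 ≤ 0 := by
    rw [← hldef, hl1'] at hN; simpa using hN
  have hem := he.mem.mono (subset_union_left (t := B))
  have hN1 : ∫ z, (c * φ' z - ψ z) ^ 2 = 0 :=
    le_antisymm hN0 (integral_nonneg fun z => sq_nonneg _)
  have hae : (fun z => c * φ' z) =ᵐ[volume] ψ := by
    have h1 := (integral_eq_zero_iff_of_nonneg (fun z => sq_nonneg (c * φ' z - ψ z))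
      (he'.mem.mu.sub hem.mu).integrable_sq).1 hN1
    filter_upwards [h1] with z hz
    have h2 : (c * φ' z - ψ z) ^ 2 = 0 := hz
    have h3 := pow_eq_zero_iff (two_ne_zero) |>.1 h2
    linarith
  obtain ⟨ha1', ha2'⟩ := he'.mem.unique hem hae
  have h4 := he'.eq _ _ _ hη
  rw [hl1', one_mul] at h4
  have h5 : ∫ z, (ψx z * ηx z + ψy z * ηy z) =
      ∫ z, (c * φx' z * ηx z + c * φy' z * ηy z) := by
    apply integral_congr_ae
    filter_upwards [ha1', ha2'] with z z1 z2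
    rw [← z1, ← z2]
  have h6 : ∫ z, ψ z * η z = ∫ z, c * φ' z * η z := by
    apply integral_congr_ae
    filter_upwards [hae] with z z1
    rw [← z1]
  rw [h5, h6, h4]

end Pool.Agent.Lib.MP_f46d6a
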