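import Pool.Agent.Lib.MP_f46d6a_h64.Hole2

/-!
# Double logarithmic cutoffs and a Hardy inequality
-/

set_option autoImplicit false

open MeasureTheory Set Filter Topology
open scoped ContDiff

namespace Pool.Agent.Lib.MP_f46d6a

open Pool.Agent.Lib.MP_dac83a

namespace B4

open M1 M2

section

variable {ρ R : ℝ} {x0 : P}

theorem one_add_pos (hρ : 0 < ρ) (h : ρ ≤ R) (z : P) : 0 < 1 + gk ρ R (z - x0) := by
  have := gk_nonneg hρ h (z - x0)
  linarith

theorem dd_one_div {f : P → ℝ} {z : P} (hf : DifferentiableAt ℝ f z) (h0 : 1 + f z ≠ 0) (v : P) :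
    dd v (fun z => (1 + f z)⁻¹) z = -(dd v f z / (1 + f z) ^ 2) := by
  have hF : HasDerivAt (fun s : ℝ => (1 + s)⁻¹) (-(1 / (1 + f z) ^ 2)) (f z) := by
    have h1 : HasDerivAt (fun s : ℝ => 1 + s) 1 (f z) := (hasDerivAt_id _).const_add 1
    have h2 := h1.inv h0
    refine h2.congr_deriv ?_
    ring
  have := dd_comp (F := fun s => (1 + s)⁻¹) (f := f) (z := z) hF.differentiableAt hf v
  rw [hF.deriv] at this
  rw [this]; ring

/-- Hardy type inequality with the weight `|∇ log (1 + g)|²` -/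
theorem hardy_test (hρ : 0 < ρ) (h : ρ ≤ R) {U : Set P} {φ : P → ℝ} (hφ : IsTest U φ) :
    ∫ z, φ z ^ 2 * ((dd ex (fun z => gk ρ R (z - x0)) z ^ 2 +
      dd ey (fun z => gk ρ R (z - x0)) z ^ 2) / (1 + gk ρ R (z - x0)) ^ 2) ≤
      4 * En φ + 48 / R ^ 2 * Nm φ := by
  have hR : 0 < R := hρ.trans_le h
  set G : P → ℝ := fun z => gk ρ R (z - x0) with hG
  have hG2 : ContDiff ℝ 2 G := gkt_contDiff hρ h x0
  have hG1 : ContDiff ℝ 1 G := hG2.of_le (by norm_num)
  have hpos : ∀ z, 0 < 1 + G z := fun z => one_add_pos hρ h z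
  have hGd : ∀ z, DifferentiableAt ℝ G z := fun z => hG1.differentiable (by norm_num) z
  have hdd : ∀ v, ContDiff ℝ 1 (dd v G) := fun v => dd_contDiff (m := 1) hG2 (by norm_num) v
  have hinv : ContDiff ℝ 1 (fun z => (1 + G z)⁻¹) :=
    (contDiff_const.add hG1).inv (fun z => (hpos z).ne')
  have hY : ∀ v, ContDiff ℝ 1 (fun z => dd v G z * (1 + G z)⁻¹) := fun v => (hdd v).mul hinv
  have hYd : ∀ v z, dd v (fun z => dd v G z * (1 + G z)⁻¹) z =
      dd v (dd v G) z / (1 + G z) - dd v G z ^ 2 / (1 + G z) ^ 2 := by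
    intro v z
    rw [H0.dd_mul' ((hdd v).differentiable (by norm_num) z) (hinv.differentiable (by norm_num) z),
      dd_one_div (hGd z) (hpos z).ne']
    have := (hpos z).ne'
    field_simp
    ring
  have ht : IsTest1 U (fun z => φ z * φ z) := hφ.isTest1.mul hφ.isTest1.smooth
  have htd : ∀ v z, dd v (fun z => φ z * φ z) z = 2 * φ z * dd v φ z := by
    intro v z
    rw [H0.dd_mul' (hφ.diffAt z) (hφ.diffAt z)]; ring
  have hibp : ∀ v, ∫ z, (φ z * φ z) * dd v (fun z => dd v G z * (1 + G z)⁻¹) z =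
      - ∫ z, dd v (fun z => φ z * φ z) z * (dd v G z * (1 + G z)⁻¹) := fun v =>
    ibp isOpen_univ (D := univ) ⟨ht.smooth, ht.cpt, subset_univ _⟩ (hY v).contDiffOn v
  have cφ : Continuous φ := hφ.smooth.continuous
  have cdφ : ∀ v, Continuous (dd v φ) := fun v => (hφ.dd v).smooth.continuous
  have cG : Continuous G := hG1.continuous
  have cdG : ∀ v, Continuous (dd v G) := fun v => (hdd v).continuous
  have cinv : Continuous (fun z => (1 + G z)⁻¹) := hinv.continuous
  have cddG : ∀ v, Continuous (dd v (dd v G)) := fun v =>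
    (dd_contDiff (m := 0) (hdd v) (by norm_num) v).continuous
  have cpt : ∀ {F : P → ℝ}, Continuous F → Integrable (fun z => φ z ^ 2 * F z) := by
    intro F hF
    apply ((cφ.pow 2).mul hF).integrable_of_hasCompactSupport
    have : HasCompactSupport (fun z => φ z ^ 2) := by
      have h1 : HasCompactSupport (fun z => φ z * φ z) := hφ.cpt.mul_right
      simpa [sq] using h1
    exact this.mul_right
  have cpt' : ∀ v, Integrable (fun z => (2 * φ z * dd v φ z) * (dd v G z * (1 + G z)⁻¹)) := by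
    intro v
    apply Continuous.integrable_of_hasCompactSupport
    · have := cdφ v; have := cdG v; fun_prop
    · have h1 : HasCompactSupport (fun z => (2 * φ z * dd v φ z)) := by
        have h2 : HasCompactSupport (fun z => φ z * (2 * dd v φ z)) := hφ.cpt.mul_right
        have e : (fun z => (2 * φ z * dd v φ z)) = fun z => φ z * (2 * dd v φ z) := by
          ext z; ring
        rw [e]
        exact h2
      exact h1.mul_right
  -- the identity
  have id1 : ∀ v, ∫ z, φ z ^ 2 * (dd v G z ^ 2 / (1 + G z) ^ 2) =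
      (∫ z, φ z ^ 2 * (dd v (dd v G) z / (1 + G z))) +
        ∫ z, (2 * φ z * dd v φ z) * (dd v G z * (1 + G z)⁻¹) := by
    intro v
    have e := hibp v
    simp only [hYd, htd] at e
    have c1 : Continuous (fun z => dd v (dd v G) z / (1 + G z)) :=
      (cddG v).div (continuous_const.add cG) (fun z => (hpos z).ne')
    have c2 : Continuous (fun z => dd v G z ^ 2 / (1 + G z) ^ 2) :=
      ((cdG v).pow 2).div ((continuous_const.add cG).pow 2) (fun z => (pow_pos (hpos z) 2).ne')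
    have e2 : ∫ z, (φ z * φ z) * (dd v (dd v G) z / (1 + G z) - dd v G z ^ 2 / (1 + G z) ^ 2) =
        (∫ z, φ z ^ 2 * (dd v (dd v G) z / (1 + G z))) -
          ∫ z, φ z ^ 2 * (dd v G z ^ 2 / (1 + G z) ^ 2) := by
      rw [← integral_sub (cpt c1) (cpt c2)]
      congr 1; ext z; ring
    rw [e2] at e
    linarith
  have c1 : Continuous (fun z => (dd ex G z ^ 2 + dd ey G z ^ 2) / (1 + G z) ^ 2) :=
    (((cdG ex).pow 2).add ((cdG ey).pow 2)).div ((continuous_const.add cG).pow 2)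
      (fun z => (pow_pos (hpos z) 2).ne')
  have c3 : ∀ v, Continuous (fun z => dd v (dd v G) z / (1 + G z)) := fun v =>
    (cddG v).div (continuous_const.add cG) (fun z => (hpos z).ne')
  have c4 : ∀ v, Continuous (fun z => dd v G z ^ 2 / (1 + G z) ^ 2) := fun v =>
    ((cdG v).pow 2).div ((continuous_const.add cG).pow 2) (fun z => (pow_pos (hpos z) 2).ne')
  set X := ∫ z, φ z ^ 2 * ((dd ex G z ^ 2 + dd ey G z ^ 2) / (1 + G z) ^ 2) with hX
  have id2 : X = (∫ z, φ z ^ 2 * (lap G z / (1 + G z))) +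
      ∫ z, ((2 * φ z * dd ex φ z) * (dd ex G z * (1 + G z)⁻¹) +
        (2 * φ z * dd ey φ z) * (dd ey G z * (1 + G z)⁻¹)) := by
    rw [integral_add (cpt' ex) (cpt' ey)]
    have e1 : X = (∫ z, φ z ^ 2 * (dd ex G z ^ 2 / (1 + G z) ^ 2)) +
        ∫ z, φ z ^ 2 * (dd ey G z ^ 2 / (1 + G z) ^ 2) := by
      rw [hX, ← integral_add (cpt (c4 ex)) (cpt (c4 ey))]
      congr 1; ext z; ring
    have e2 : ∫ z, φ z ^ 2 * (lap G z / (1 + G z)) =
        (∫ z, φ z ^ 2 * (dd ex (dd ex G) z / (1 + G z))) +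
          ∫ z, φ z ^ 2 * (dd ey (dd ey G) z / (1 + G z)) := by
      rw [← integral_add (cpt (c3 ex)) (cpt (c3 ey))]
      congr 1; ext z; simp only [lap]; ring
    rw [e1, e2, id1 ex, id1 ey]; ring
  have clap : Continuous (fun z => lap G z / (1 + G z)) := by
    have : (fun z => lap G z / (1 + G z)) = fun z => dd ex (dd ex G) z / (1 + G z) +
        dd ey (dd ey G) z / (1 + G z) := by
      ext z; simp only [lap]; ring
    rw [this]
    exact (c3 ex).add (c3 ey)
  have b1 : ∫ z, φ z ^ 2 * (lap G z / (1 + G z)) ≤ 24 / R ^ 2 * Nm φ := by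
    unfold Nm
    rw [← integral_const_mul]
    apply integral_mono (cpt clap) (hφ.int_sq.const_mul _)
    intro z
    show φ z ^ 2 * (lap G z / (1 + G z)) ≤ 24 / R ^ 2 * φ z ^ 2
    rw [mul_comm (24 / R ^ 2)]
    apply mul_le_mul_of_nonneg_left _ (sq_nonneg _)
    rw [div_le_iff₀ (hpos z)]
    have h1 : lap G z = mker R (z - x0) - mker ρ (z - x0) := by
      rw [hG, lap_trans, lap_gk hρ h]
    have h2 := mk_le hR (z - x0)
    have h3 := mk_nonneg ρ (z - x0)
    have h4 := gk_nonneg hρ h (z - x0)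
    have h5 : (0 : ℝ) ≤ 24 / R ^ 2 := by positivity
    have h6 : 24 / R ^ 2 ≤ 24 / R ^ 2 * (1 + G z) := by
      have : 0 ≤ 24 / R ^ 2 * G z := mul_nonneg h5 h4
      linarith
    linarith
  have b2 : ∫ z, ((2 * φ z * dd ex φ z) * (dd ex G z * (1 + G z)⁻¹) +
        (2 * φ z * dd ey φ z) * (dd ey G z * (1 + G z)⁻¹)) ≤ 1 / 2 * X + 2 * En φ := by
    rw [hX]
    unfold En
    rw [← integral_const_mul, ← integral_const_mul,
      ← integral_add ((cpt c1).const_mul _) ((tint_en hφ).const_mul _)]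
    apply integral_mono ((cpt' ex).add (cpt' ey))
      (((cpt c1).const_mul _).add ((tint_en hφ).const_mul _))
    intro z
    show (2 * φ z * dd ex φ z) * (dd ex G z * (1 + G z)⁻¹) +
        (2 * φ z * dd ey φ z) * (dd ey G z * (1 + G z)⁻¹) ≤
      1 / 2 * (φ z ^ 2 * ((dd ex G z ^ 2 + dd ey G z ^ 2) / (1 + G z) ^ 2)) +
        2 * (dd ex φ z ^ 2 + dd ey φ z ^ 2)
    have e : φ z ^ 2 * ((dd ex G z ^ 2 + dd ey G z ^ 2) / (1 + G z) ^ 2) =
        (φ z * (dd ex G z * (1 + G z)⁻¹)) ^ 2 + (φ z * (dd ey G z * (1 + G z)⁻¹)) ^ 2 := by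
      have := (hpos z).ne'
      field_simp
    rw [e]
    nlinarith [sq_nonneg (φ z * (dd ex G z * (1 + G z)⁻¹) - 2 * dd ex φ z),
      sq_nonneg (φ z * (dd ey G z * (1 + G z)⁻¹) - 2 * dd ey φ z)]
  have e3 : 48 / R ^ 2 * Nm φ = 2 * (24 / R ^ 2 * Nm φ) := by ring
  rw [e3]
  linarith

/-- the double logarithmic cutoff -/
noncomputable def llc (ρ R : ℝ) (x0 z : P) : ℝ :=
  Real.log (1 + gk ρ R (z - x0)) / Real.log (1 + 2 * Real.log (R / ρ))

theorem llc_contDiff (hρ : 0 < ρ) (h : ρ ≤ R) : ContDiff ℝ 1 (llc ρ R x0) := by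
  unfold llc
  exact ((contDiff_const.add ((gkt_contDiff hρ h x0).of_le (by norm_num))).log
    (fun z => (one_add_pos hρ h z).ne')).div_const _

theorem llc_range (hρ : 0 < ρ) (h : ρ < R) (z : P) : 0 ≤ llc ρ R x0 z ∧ llc ρ R x0 z ≤ 1 := by
  have h1 := gk_nonneg hρ h.le (z - x0)
  have h2 := gk_le hρ h.le (z - x0)
  have hL : 0 < Real.log (R / ρ) := Real.log_pos (by rw [lt_div_iff₀ hρ]; linarith)
  have h3 : 0 < Real.log (1 + 2 * Real.log (R / ρ)) := Real.log_pos (by linarith)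
  unfold llc
  refine ⟨div_nonneg (Real.log_nonneg (by linarith)) h3.le, ?_⟩
  rw [div_le_one h3]
  exact Real.log_le_log (by linarith) (by linarith)

theorem llc_inner (hρ : 0 < ρ) (h : ρ < R) {z : P} (hz : r2 (z - x0) ≤ Real.exp (-1) * ρ ^ 2) :
    llc ρ R x0 z = 1 := by
  have hL : 0 < Real.log (R / ρ) := Real.log_pos (by rw [lt_div_iff₀ hρ]; linarith)
  unfold llc
  rw [gk_inner hρ h.le hz, div_self]
  exact (Real.log_pos (by linarith)).ne'

theorem llc_outer (hρ : 0 < ρ) (h : ρ ≤ R) {z : P} (hz : z ∉ Metric.closedBall x0 R) :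
    llc ρ R x0 z = 0 := by
  unfold llc
  rw [gkt_out hρ h hz]; simp

theorem llc_dd (hρ : 0 < ρ) (h : ρ ≤ R) (v z : P) : dd v (llc ρ R x0) z =
    dd v (fun z => gk ρ R (z - x0)) z / (1 + gk ρ R (z - x0)) /
      Real.log (1 + 2 * Real.log (R / ρ)) := by
  have hpos := one_add_pos (x0 := x0) hρ h z
  have hF : HasDerivAt (fun s : ℝ => Real.log (1 + s) / Real.log (1 + 2 * Real.log (R / ρ)))
      (1 / (1 + gk ρ R (z - x0)) / Real.log (1 + 2 * Real.log (R / ρ))) (gk ρ R (z - x0)) := by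
    have h1 : HasDerivAt (fun s : ℝ => 1 + s) 1 (gk ρ R (z - x0)) := (hasDerivAt_id _).const_add 1
    exact (h1.log hpos.ne').div_const _
  have hd : DifferentiableAt ℝ (fun z => gk ρ R (z - x0)) z :=
    (gkt_contDiff hρ h x0).differentiable (by norm_num) z
  have := dd_comp (f := fun z => gk ρ R (z - x0)) (z := z) hF.differentiableAt hd v
  rw [hF.deriv] at this
  have e : dd v (llc ρ R x0) z = 1 / (1 + gk ρ R (z - x0)) /
      Real.log (1 + 2 * Real.log (R / ρ)) * dd v (fun z => gk ρ R (z - x0)) z := this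
  rw [e]; ring

end

/-- all the properties of a cutoff function needed later -/
structure Cutoff (ε r s : ℝ) (x0 : P) (χ : P → ℝ) : Prop where
  smooth : ContDiff ℝ 1 χ
  nonneg : ∀ z, 0 ≤ χ z
  le_one : ∀ z, χ z ≤ 1
  inner : ∀ z, z ∈ Metric.ball x0 (2 * s) → χ z = 1
  outer : ∀ z, z ∉ Metric.closedBall x0 r → χ z = 0
  bdd : ∃ C, (∀ z, |dd ex χ z| ≤ C) ∧ (∀ z, |dd ey χ z| ≤ C)
  hardy : ∀ (U : Set P) (f a b : P → ℝ), H0 U f a b →
    ∫ z, f z ^ 2 * (dd ex χ z ^ 2 + dd ey χ z ^ 2) ≤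
      ε * ((∫ z, (a z ^ 2 + b z ^ 2)) + ∫ z, f z ^ 2)

theorem exists_cutoff {ε r : ℝ} (hε : 0 < ε) (hr : 0 < r) :
    ∃ s > 0, ∀ x0 : P, ∃ χ, Cutoff ε r s x0 χ := by
  -- choose L
  obtain ⟨L, hL0, hL⟩ : ∃ L : ℝ, 0 < L ∧ (4 + 48 / r ^ 2) / Real.log (1 + L) ^ 2 ≤ ε := by
    have t : Tendsto (fun L : ℝ => (4 + 48 / r ^ 2) / Real.log (1 + L) ^ 2) atTop (𝓝 0) := by
      apply tendsto_const_nhds.div_atTop
      exact (tendsto_pow_atTop (by norm_num)).comp
        (Real.tendsto_log_atTop.comp (tendsto_atTop_add_const_left _ _ tendsto_id))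
    obtain ⟨L, h1, h2⟩ := ((eventually_gt_atTop (0 : ℝ)).and
      (t.eventually (ge_mem_nhds hε))).exists
    exact ⟨L, h1, h2⟩
  set ρ := r * Real.exp (-(L / 2)) with hρd
  have hρ : 0 < ρ := by positivity
  have hρr : ρ < r := by
    rw [hρd]
    have : Real.exp (-(L / 2)) < 1 := by rw [Real.exp_lt_one_iff]; linarith
    nlinarith
  have hlog : 2 * Real.log (r / ρ) = L := by
    rw [hρd, Real.log_div hr.ne' (by positivity), Real.log_mul hr.ne' (Real.exp_pos _).ne',
      Real.log_exp]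
    ring
  refine ⟨ρ / 6, by positivity, fun x0 => ⟨llc ρ r x0, ?_⟩⟩
  have hcd := llc_contDiff (x0 := x0) hρ hρr.le
  have hcpt : HasCompactSupport (llc ρ r x0) :=
    HasCompactSupport.intro (isCompact_closedBall x0 r) (fun z hz => llc_outer hρ hρr.le hz)
  have ht : IsTest1 univ (llc ρ r x0) := ⟨hcd, hcpt, subset_univ _⟩
  obtain ⟨C, hC0, hC1, hC2, hC3⟩ := ht.bdd
  have hlogp : 0 < Real.log (1 + L) := Real.log_pos (by linarith)
  refine ⟨hcd, fun z => (llc_range hρ hρr z).1, fun z => (llc_range hρ hρr z).2, ?_,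
    fun z hz => llc_outer hρ hρr.le hz, ⟨C, hC2, hC3⟩, ?_⟩
  · intro z hz
    apply llc_inner hρ hρr
    have h1 := r2_le_norm_sq (z - x0)
    have h2 : ‖z - x0‖ < ρ / 3 := by
      have := Metric.mem_ball.1 hz
      rw [dist_eq_norm] at this
      linarith
    have h3 : ‖z - x0‖ ^ 2 ≤ (ρ / 3) ^ 2 := pow_le_pow_left₀ (norm_nonneg _) h2.le 2
    have h4 := exp_neg_one_gt
    nlinarith [sq_nonneg ρ]
  · intro U f a b hf
    obtain ⟨φ, hφt, c1, c2, c3⟩ := hf.app
    have key : ∀ n, ∫ z, φ n z ^ 2 * (dd ex (llc ρ r x0) z ^ 2 + dd ey (llc ρ r x0) z ^ 2) ≤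
        ε * (En (φ n) + Nm (φ n)) := by
      intro n
      have h1 := hardy_test (x0 := x0) hρ hρr.le (hφt n)
      have e : ∀ z, φ n z ^ 2 * (dd ex (llc ρ r x0) z ^ 2 + dd ey (llc ρ r x0) z ^ 2) =
          (φ n z ^ 2 * ((dd ex (fun z => gk ρ r (z - x0)) z ^ 2 +
            dd ey (fun z => gk ρ r (z - x0)) z ^ 2) / (1 + gk ρ r (z - x0)) ^ 2)) /
            Real.log (1 + L) ^ 2 := by
        intro z
        rw [llc_dd hρ hρr.le, llc_dd hρ hρr.le, hlog]
        have := (one_add_pos (x0 := x0) hρ hρr.le z).ne'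
        have := hlogp.ne'
        field_simp
      simp only [e]
      rw [integral_div]
      have hE := En_nonneg (φ n)
      have hN := Nm_nonneg (φ n)
      calc _ ≤ (4 * En (φ n) + 48 / r ^ 2 * Nm (φ n)) / Real.log (1 + L) ^ 2 :=
            div_le_div_of_nonneg_right h1 (by positivity)
        _ ≤ ((4 + 48 / r ^ 2) * (En (φ n) + Nm (φ n))) / Real.log (1 + L) ^ 2 := by
            apply div_le_div_of_nonneg_right _ (by positivity)
            have : 0 ≤ 48 / r ^ 2 := by positivity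
            nlinarith [mul_nonneg this hE]
        _ = ((4 + 48 / r ^ 2) / Real.log (1 + L) ^ 2) * (En (φ n) + Nm (φ n)) := by ring
        _ ≤ ε * (En (φ n) + Nm (φ n)) := mul_le_mul_of_nonneg_right hL (by positivity)
    -- pass to the limit
    have hm : ∀ v, AEStronglyMeasurable (dd v (llc ρ r x0)) volume := fun v =>
      (dd_contDiff (m := 0) hcd (by norm_num) v).continuous.aestronglyMeasurable
    have l1 := (c1.mul_fix (hm ex) (by filter_upwards with z; exact hC2 z)).integral_sq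
    have l2 := (c1.mul_fix (hm ey) (by filter_upwards with z; exact hC3 z)).integral_sq
    have l3 := l1.add l2
    have l4 := ((c2.integral_sq.add c3.integral_sq).add c1.integral_sq).const_mul ε
    have split : ∀ g : P → ℝ, MemLp g 2 volume →
        (∫ z, (dd ex (llc ρ r x0) z * g z) ^ 2) + (∫ z, (dd ey (llc ρ r x0) z * g z) ^ 2) =
        ∫ z, g z ^ 2 * (dd ex (llc ρ r x0) z ^ 2 + dd ey (llc ρ r x0) z ^ 2) := by
      intro g hg
      have i1 : MemLp (fun z => dd ex (llc ρ r x0) z * g z) 2 volume := by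
        refine (hg.const_mul C).of_le ((hm ex).mul hg.aestronglyMeasurable) ?_
        filter_upwards with z
        rw [norm_mul, norm_mul]
        exact mul_le_mul_of_nonneg_right ((hC2 z).trans (le_abs_self _)) (norm_nonneg _)
      have i2 : MemLp (fun z => dd ey (llc ρ r x0) z * g z) 2 volume := by
        refine (hg.const_mul C).of_le ((hm ey).mul hg.aestronglyMeasurable) ?_
        filter_upwards with z
        rw [norm_mul, norm_mul]
        exact mul_le_mul_of_nonneg_right ((hC3 z).trans (le_abs_self _)) (norm_nonneg _)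
      rw [← integral_add i1.integrable_sq i2.integrable_sq]
      congr 1; ext z; ring
    rw [split f hf.mu] at l3
    rw [integral_add hf.ma.integrable_sq hf.mb.integrable_sq]
    refine le_of_tendsto_of_tendsto' l3 l4 (fun n => ?_)
    rw [split _ (hφt n).memLp]
    have := key n
    unfold En Nm at this
    rwa [integral_add ((hφt n).dd ex).int_sq ((hφt n).dd ey).int_sq] at this

end B4

end Pool.Agent.Lib.MP_f46d6a
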