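import Pool.Agent.Lib.MP_f46d6a_h64.Fill1

/-!
# Adding a tiny open set: the eigenvalue and the eigenfunction change little
-/

set_option autoImplicit false

open MeasureTheory Set Filter Topology
open scoped ContDiff

namespace Pool.Agent.Lib.MP_f46d6a

open Pool.Agent.Lib.MP_dac83a

namespace B4

open M1 M2

section cutoff

variable {ε r s : ℝ} {x0 : P} {χ : P → ℝ} {U Ω B : Set P} {f a b : P → ℝ}

theorem Cutoff.abs_le (h : Cutoff ε r s x0 χ) (z : P) : |χ z| ≤ 1 := by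
  rw [abs_of_nonneg (h.nonneg z)]; exact h.le_one z

theorem Cutoff.co_abs_le (h : Cutoff ε r s x0 χ) (z : P) : |1 - χ z| ≤ 1 := by
  have := h.nonneg z
  rw [abs_of_nonneg (by linarith [h.le_one z])]; linarith

theorem Cutoff.co_smooth (h : Cutoff ε r s x0 χ) : ContDiff ℝ 1 (fun z => 1 - χ z) :=
  contDiff_const.sub h.smooth

theorem Cutoff.co_dd (h : Cutoff ε r s x0 χ) (v z : P) : dd v (fun z => 1 - χ z) z = - dd v χ z := by
  rw [dd_sub (differentiableAt_const _) (h.smooth.differentiable (by norm_num) z)]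
  simp [dd]

theorem Cutoff.bdd' (h : Cutoff ε r s x0 χ) : ∃ C, (∀ z, |χ z| ≤ C) ∧ (∀ z, |1 - χ z| ≤ C) ∧
    (∀ z, |dd ex χ z| ≤ C) ∧ (∀ z, |dd ey χ z| ≤ C) := by
  obtain ⟨C, h1, h2⟩ := h.bdd
  refine ⟨max C 1, fun z => (h.abs_le z).trans (le_max_right _ _),
    fun z => (h.co_abs_le z).trans (le_max_right _ _),
    fun z => (h1 z).trans (le_max_left _ _), fun z => (h2 z).trans (le_max_left _ _)⟩

theorem Cutoff.tsupp (h : Cutoff ε r s x0 χ) : tsupport χ ⊆ Metric.closedBall x0 r := by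
  apply closure_minimal _ Metric.isClosed_closedBall
  intro z hz
  by_contra hc
  exact hz (h.outer z hc)

theorem Cutoff.co_tsupp (h : Cutoff ε r s x0 χ) :
    tsupport (fun z => 1 - χ z) ⊆ (Metric.ball x0 (2 * s))ᶜ := by
  apply closure_minimal _ Metric.isOpen_ball.isClosed_compl
  intro z hz hc
  exact hz (by simp only; rw [h.inner z hc, sub_self])

/-- the product with the cutoff lives in a ball -/
theorem Cutoff.mul_mem (h : Cutoff ε r s x0 χ) (hr : 0 < r) (hf : H0 U f a b) :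
    H0 (Metric.ball x0 (2 * r)) (fun z => χ z * f z) (fun z => χ z * a z + dd ex χ z * f z)
      (fun z => χ z * b z + dd ey χ z * f z) := by
  obtain ⟨C, h1, h2, h3, h4⟩ := h.bdd'
  refine mul_C1_to Metric.isOpen_ball hf h.smooth h1 h3 h4 ?_
  exact inter_subset_right.trans (h.tsupp.trans (Metric.closedBall_subset_ball (by linarith)))

/-- the product with the cutoff -/
theorem Cutoff.mul_mem' (h : Cutoff ε r s x0 χ) (hU : IsOpen U) (hf : H0 U f a b) :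
    H0 U (fun z => χ z * f z) (fun z => χ z * a z + dd ex χ z * f z)
      (fun z => χ z * b z + dd ey χ z * f z) := by
  obtain ⟨C, h1, h2, h3, h4⟩ := h.bdd'
  exact hf.mul_C1 hU h.smooth h1 h3 h4

/-- the product with the complementary cutoff avoids the ball -/
theorem Cutoff.co_mem (h : Cutoff ε r s x0 χ) (hs : 0 < s) (hΩ : IsOpen Ω)
    (hB : B ⊆ Metric.ball x0 s) (hf : H0 (Ω ∪ B) f a b) :
    H0 Ω (fun z => (1 - χ z) * f z) (fun z => (1 - χ z) * a z - dd ex χ z * f z)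
      (fun z => (1 - χ z) * b z - dd ey χ z * f z) := by
  obtain ⟨C, h1, h2, h3, h4⟩ := h.bdd'
  have := mul_C1_to (U := Ω ∪ B) hΩ hf h.co_smooth (C := C) h2
    (fun z => by rw [h.co_dd, abs_neg]; exact h3 z) (fun z => by rw [h.co_dd, abs_neg]; exact h4 z)
    (by
      rintro z ⟨hz1, hz2⟩
      rcases hz1 with hz | hz
      · exact hz
      · exfalso
        exact h.co_tsupp hz2 (Metric.ball_subset_ball (by linarith) (hB hz)))
  refine this.congr EventuallyEq.rfl ?_ ?_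
  · filter_upwards with z; rw [h.co_dd]; ring
  · filter_upwards with z; rw [h.co_dd]; ring

theorem Cutoff.mul_memLp (h : Cutoff ε r s x0 χ) (hf : MemLp f 2 volume) :
    MemLp (fun z => dd ex χ z * f z) 2 volume ∧ MemLp (fun z => dd ey χ z * f z) 2 volume := by
  obtain ⟨C, h3, h4⟩ := h.bdd
  have hm : ∀ v, AEStronglyMeasurable (dd v χ) volume := fun v =>
    (dd_contDiff (m := 0) h.smooth (by norm_num) v).continuous.aestronglyMeasurable
  constructor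
  · refine (hf.const_mul C).of_le ((hm ex).mul hf.aestronglyMeasurable) ?_
    filter_upwards with z
    rw [norm_mul, norm_mul]
    exact mul_le_mul_of_nonneg_right ((h3 z).trans (le_abs_self _)) (norm_nonneg _)
  · refine (hf.const_mul C).of_le ((hm ey).mul hf.aestronglyMeasurable) ?_
    filter_upwards with z
    rw [norm_mul, norm_mul]
    exact mul_le_mul_of_nonneg_right ((h4 z).trans (le_abs_self _)) (norm_nonneg _)

theorem Cutoff.hardy_int (h : Cutoff ε r s x0 χ) (hf : MemLp f 2 volume) :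
    Integrable (fun z => f z ^ 2 * (dd ex χ z ^ 2 + dd ey χ z ^ 2)) := by
  obtain ⟨m1, m2⟩ := h.mul_memLp hf
  refine (m1.integrable_sq.add m2.integrable_sq).congr ?_
  filter_upwards with z
  simp only [Pi.add_apply]
  ring

theorem Cutoff.small_nm (h : Cutoff ε r s x0 χ) (hr : 0 < r) (hf : H0 U f a b) :
    ∫ z, (χ z * f z) ^ 2 ≤ 8 * r ^ 2 * (2 * (∫ z, (a z ^ 2 + b z ^ 2)) +
      2 * (ε * ((∫ z, (a z ^ 2 + b z ^ 2)) + ∫ z, f z ^ 2))) := by
  have h1 := (h.mul_mem hr hf).poinc Metric.isOpen_ball ball_ne_top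
  rw [vol_ball (by positivity)] at h1
  have h2 : ∫ z, ((χ z * a z + dd ex χ z * f z) ^ 2 + (χ z * b z + dd ey χ z * f z) ^ 2) ≤
      2 * (∫ z, (a z ^ 2 + b z ^ 2)) + 2 * ∫ z, f z ^ 2 * (dd ex χ z ^ 2 + dd ey χ z ^ 2) := by
    rw [← integral_const_mul, ← integral_const_mul,
      ← integral_add (hf.int_en.const_mul 2) ((h.hardy_int hf.mu).const_mul 2)]
    apply integral_mono (h.mul_mem hr hf).int_en
      ((hf.int_en.const_mul 2).add ((h.hardy_int hf.mu).const_mul 2))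
    intro z
    show (χ z * a z + dd ex χ z * f z) ^ 2 + (χ z * b z + dd ey χ z * f z) ^ 2 ≤
      2 * (a z ^ 2 + b z ^ 2) + 2 * (f z ^ 2 * (dd ex χ z ^ 2 + dd ey χ z ^ 2))
    have hc : χ z ^ 2 ≤ 1 := pow_le_one₀ (h.nonneg z) (h.le_one z)
    have b1 : (χ z * a z + dd ex χ z * f z) ^ 2 ≤
        2 * (χ z ^ 2 * a z ^ 2) + 2 * (dd ex χ z ^ 2 * f z ^ 2) := by
      nlinarith [sq_nonneg (χ z * a z - dd ex χ z * f z)]
    have b2 : (χ z * b z + dd ey χ z * f z) ^ 2 ≤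
        2 * (χ z ^ 2 * b z ^ 2) + 2 * (dd ey χ z ^ 2 * f z ^ 2) := by
      nlinarith [sq_nonneg (χ z * b z - dd ey χ z * f z)]
    have c1 : χ z ^ 2 * a z ^ 2 ≤ 1 * a z ^ 2 := by gcongr
    have c2 : χ z ^ 2 * b z ^ 2 ≤ 1 * b z ^ 2 := by gcongr
    nlinarith
  have h3 := h.hardy U f a b hf
  have h4 := mul_le_mul_of_nonneg_left (h2.trans (by linarith :
    2 * (∫ z, (a z ^ 2 + b z ^ 2)) + 2 * (∫ z, f z ^ 2 * (dd ex χ z ^ 2 + dd ey χ z ^ 2)) ≤
    2 * (∫ z, (a z ^ 2 + b z ^ 2)) + 2 * (ε * ((∫ z, (a z ^ 2 + b z ^ 2)) + ∫ z, f z ^ 2))))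
    (show 0 ≤ 4 * (2 * r) ^ 2 by positivity)
  nlinarith

/-- energy of the truncated function -/
theorem Cutoff.en_co (h : Cutoff ε r s x0 χ) (hf : H0 U f a b)
    (hint : Integrable (fun z => a z * ((1 - χ z) * ((1 - χ z) * a z - dd ex χ z * f z) -
        dd ex χ z * ((1 - χ z) * f z)) + b z * ((1 - χ z) * ((1 - χ z) * b z - dd ey χ z * f z) -
        dd ey χ z * ((1 - χ z) * f z)))) :
    ∫ z, (((1 - χ z) * a z - dd ex χ z * f z) ^ 2 + ((1 - χ z) * b z - dd ey χ z * f z) ^ 2) =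
      (∫ z, (a z * ((1 - χ z) * ((1 - χ z) * a z - dd ex χ z * f z) -
        dd ex χ z * ((1 - χ z) * f z)) + b z * ((1 - χ z) * ((1 - χ z) * b z - dd ey χ z * f z) -
        dd ey χ z * ((1 - χ z) * f z)))) +
      ∫ z, f z ^ 2 * (dd ex χ z ^ 2 + dd ey χ z ^ 2) := by
  rw [← integral_add hint (h.hardy_int hf.mu)]
  congr 1
  ext z
  ring

/-- twice truncated -/
theorem Cutoff.co_mem2 (h : Cutoff ε r s x0 χ) (hs : 0 < s) (hΩ : IsOpen Ω)
    (hB : B ⊆ Metric.ball x0 s) (hf : H0 (Ω ∪ B) f a b) :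
    H0 Ω (fun z => (1 - χ z) * ((1 - χ z) * f z))
      (fun z => (1 - χ z) * ((1 - χ z) * a z - dd ex χ z * f z) - dd ex χ z * ((1 - χ z) * f z))
      (fun z => (1 - χ z) * ((1 - χ z) * b z - dd ey χ z * f z) - dd ey χ z * ((1 - χ z) * f z)) := by
  have h1 := h.co_mem hs hΩ hB hf
  exact h.co_mem hs hΩ hB (h1.mono subset_union_left)

end cutoff

/-- monotonicity, through an eigenfunction -/
theorem lam_union_le {Ω B : Set P} {ψ ψx ψy : P → ℝ} (he : Eigf Ω 1 ψ ψx ψy)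
    (hk : 0 < ∫ z, ψ z ^ 2) : lamP (Ω ∪ B) ≤ 1 := by
  have h1 := (he.mem.mono (subset_union_left (t := B))).lam_le
  have h2 := he.eq _ _ _ he.mem
  have e1 : ∫ z, (ψx z * ψx z + ψy z * ψy z) = ∫ z, (ψx z ^ 2 + ψy z ^ 2) := by
    congr 1; ext z; ring
  have e2 : ∫ z, ψ z * ψ z = ∫ z, ψ z ^ 2 := by congr 1; ext z; ring
  rw [e1, e2, one_mul] at h2
  rw [h2] at h1
  by_contra hc
  push Not at hc
  nlinarith

theorem eig_en {U : Set P} {l : ℝ} {ψ ψx ψy : P → ℝ} (he : Eigf U l ψ ψx ψy) :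
    ∫ z, (ψx z ^ 2 + ψy z ^ 2) = l * ∫ z, ψ z ^ 2 := by
  have h2 := he.eq _ _ _ he.mem
  have e1 : ∫ z, (ψx z * ψx z + ψy z * ψy z) = ∫ z, (ψx z ^ 2 + ψy z ^ 2) := by
    congr 1; ext z; ring
  have e2 : ∫ z, ψ z * ψ z = ∫ z, ψ z ^ 2 := by congr 1; ext z; ring
  rw [e1, e2] at h2
  exact h2

/-- the eigenvalue changes little -/
theorem D_small {Ω : Set P} (hΩ : IsOpen Ω) (hne : Ω.Nonempty) (hf : volume Ω ≠ ⊤)
    (hl : lamP Ω = 1) {ψ ψx ψy : P → ℝ} (he : Eigf Ω 1 ψ ψx ψy) (hk : 0 < ∫ z, ψ z ^ 2)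
    {ε : ℝ} (hε : 0 < ε) : ∃ s0 > 0, ∀ (x0 : P) (B : Set P), IsOpen B → B ⊆ Metric.ball x0 s0 →
      1 - lamP (Ω ∪ B) ≤ ε := by
  obtain ⟨s, hs, hcut⟩ := exists_cutoff (ε := min (ε / 8) 1) (r := 1 / 16)
    (lt_min (by positivity) one_pos) (by norm_num)
  refine ⟨s, hs, fun x0 B hB hBs => ?_⟩
  obtain ⟨χ, hχ⟩ := hcut x0
  have hε1 : min (ε / 8) 1 ≤ 1 := min_le_right _ _
  have hε2 : min (ε / 8) 1 ≤ ε / 8 := min_le_left _ _
  have hε0 : 0 < min (ε / 8) 1 := lt_min (by positivity) one_pos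
  set ε1 := min (ε / 8) 1 with hε1d
  have hO : IsOpen (Ω ∪ B) := hΩ.union hB
  have hfin : volume (Ω ∪ B) ≠ ⊤ := by
    refine ((measure_union_le _ _).trans_lt (ENNReal.add_lt_top.2 ⟨hf.lt_top, ?_⟩)).ne
    exact (measure_mono hBs).trans_lt (ball_ne_top.lt_top)
  obtain ⟨v, a, b, hv, hv1⟩ := exists_eig hO (hne.mono subset_union_left) hfin
  set l := lamP (Ω ∪ B) with hl'
  have hl1 : l ≤ 1 := lam_union_le he hk
  have hl0 : 0 < l := lamP_pos hO (hne.mono subset_union_left) hfin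
  have hE : ∫ z, (a z ^ 2 + b z ^ 2) = l := by rw [eig_en hv, hv1, mul_one]
  have m1 := hχ.co_mem hs hΩ hBs hv.mem
  have m2 := hχ.co_mem2 hs hΩ hBs hv.mem
  have m2' := m2.mono (subset_union_left (t := B))
  have e1 := hχ.en_co hv.mem (int_en2 hv.mem m2')
  rw [hv.eq _ _ _ m2'] at e1
  have e2 : ∫ z, v z * ((1 - χ z) * ((1 - χ z) * v z)) = ∫ z, ((1 - χ z) * v z) ^ 2 := by
    congr 1; ext z; ring
  rw [e2] at e1
  have h3 := m1.lam_le
  rw [hl, one_mul, e1] at h3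
  have h4 := hχ.hardy _ _ _ _ hv.mem
  rw [hE, hv1] at h4
  have h5 := hχ.small_nm (by norm_num) hv.mem
  rw [hE, hv1] at h5
  have h6 : ∫ z, v z ^ 2 ≤ 2 * (∫ z, ((1 - χ z) * v z) ^ 2) + 2 * ∫ z, (χ z * v z) ^ 2 :=
    int_sq_add2 (f := fun z => (1 - χ z) * v z) (g := fun z => χ z * v z) (h := v) m1.mu
      (hχ.mul_mem' hO hv.mem).mu (fun z => by ring)
  rw [hv1] at h6
  set N := ∫ z, ((1 - χ z) * v z) ^ 2 with hN
  have h7 : 1 / 4 ≤ N := by
    have : ε1 * (l + 1) ≤ 2 := by nlinarith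
    nlinarith
  have h8 : (1 - l) * N ≤ ε1 * (l + 1) := by linarith
  have h9 : ε1 * (l + 1) ≤ ε / 8 * 2 := by
    apply mul_le_mul hε2 (by linarith) (by linarith) (by positivity)
  have h10 : (1 - l) * (1 / 4) ≤ (1 - l) * N := mul_le_mul_of_nonneg_left h7 (by linarith)
  linarith

/-- the gap in quantitative form -/
theorem gap_quant {Ω : Set P} {γ k : ℝ} {ψ ψx ψy : P → ℝ} (he : Eigf Ω 1 ψ ψx ψy)
    (hk : ∫ z, ψ z ^ 2 = k) (hk0 : 0 < k)
    (hgap : ∀ v a b, H0 Ω v a b → ∫ z, v z * ψ z = 0 →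
      (1 + γ) * ∫ z, v z ^ 2 ≤ ∫ z, (a z ^ 2 + b z ^ 2)) {ζ a b : P → ℝ} (hζ : H0 Ω ζ a b) :
    γ * ((∫ z, ζ z ^ 2) - (∫ z, ζ z * ψ z) ^ 2 / k) ≤
      (∫ z, (a z ^ 2 + b z ^ 2)) - ∫ z, ζ z ^ 2 := by
  set c := (∫ z, ζ z * ψ z) / k with hc
  have hck : c * k = ∫ z, ζ z * ψ z := by rw [hc]; field_simp
  have hm := hζ.comb he.mem 1 (-c)
  have hperp : ∫ z, (1 * ζ z + (-c) * ψ z) * ψ z = 0 := by
    rw [nm2_comb hζ he.mem he.mem]
    have e1 : ∫ z, ψ z * ψ z = k := by rw [← hk]; congr 1; ext z; ring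
    rw [e1, one_mul, neg_mul, hck]; ring
  have h1 := hgap _ _ _ hm hperp
  rw [en_comb hζ he.mem, nm_comb hζ he.mem] at h1
  have e2 : ∫ z, (a z * ψx z + b z * ψy z) = ∫ z, ζ z * ψ z := by
    have h2 := he.eq _ _ _ hζ
    rw [one_mul] at h2
    have e3 : ∫ z, (a z * ψx z + b z * ψy z) = ∫ z, (ψx z * a z + ψy z * b z) := by
      congr 1; ext z; ring
    have e4 : ∫ z, ψ z * ζ z = ∫ z, ζ z * ψ z := by congr 1; ext z; ring
    rw [e3, h2, e4]
  rw [e2, eig_en he, hk] at h1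
  have e5 : (∫ z, ζ z * ψ z) ^ 2 / k = c * ∫ z, ζ z * ψ z := by rw [hc]; ring
  have e6 : c ^ 2 * k = c * ∫ z, ζ z * ψ z := by rw [← hck]; ring
  rw [e5]
  set S := ∫ z, ζ z * ψ z with hS
  have e7 : 1 ^ 2 * (∫ z, ζ z ^ 2) + 2 * 1 * (-c) * S + (-c) ^ 2 * k =
      (∫ z, ζ z ^ 2) - c * S := by linear_combination e6
  have e8 : 1 ^ 2 * (∫ z, (a z ^ 2 + b z ^ 2)) + 2 * 1 * (-c) * S + (-c) ^ 2 * (1 * k) =
      (∫ z, (a z ^ 2 + b z ^ 2)) - c * S := by linear_combination e6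
  rw [e7, e8] at h1
  linarith

end B4

end Pool.Agent.Lib.MP_f46d6a
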