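import Pool.Agent.Lib.MP_f46d6a_h64.Fill2

/-!
# The change of the eigenfunction, and the subsolution inequality
-/

set_option autoImplicit false

open MeasureTheory Set Filter Topology
open scoped ContDiff

namespace Pool.Agent.Lib.MP_f46d6a

open Pool.Agent.Lib.MP_dac83a

namespace B4

open M1 M2

/-- energy of the difference of two eigenfunctions -/
theorem eta_en {Ω B : Set P} {l k : ℝ} {ψ ψx ψy ψ' ψx' ψy' : P → ℝ} (he : Eigf Ω 1 ψ ψx ψy)
    (hk : ∫ z, ψ z ^ 2 = k) (he' : Eigf (Ω ∪ B) l ψ' ψx' ψy') (hk' : ∫ z, ψ' z ^ 2 = k) :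
    ∫ z, ((ψx' z - ψx z) ^ 2 + (ψy' z - ψy z) ^ 2) = k * (1 - l) + l * ∫ z, (ψ' z - ψ z) ^ 2 ∧
      ∫ z, (ψ' z - ψ z) ^ 2 = 2 * k - 2 * ∫ z, ψ' z * ψ z := by
  have hm := he.mem.mono (subset_union_left (t := B))
  have h1 := en_sub he'.mem hm
  have h2 := nm_sub he'.mem hm
  rw [eig_en he', eig_en he, hk, hk', he'.eq _ _ _ hm] at h1
  rw [hk, hk'] at h2
  constructor
  · rw [h1, h2]; ring
  · rw [h2]; ring

theorem eta_small {Ω : Set P} (hΩ : IsOpen Ω) (hne : Ω.Nonempty) (hf : volume Ω ≠ ⊤)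
    (hl : lamP Ω = 1) {ψ ψx ψy : P → ℝ} (he : Eigf Ω 1 ψ ψx ψy) {k γ : ℝ}
    (hk : ∫ z, ψ z ^ 2 = k) (hk0 : 0 < k) (hγ : 0 < γ)
    (hgap : ∀ v a b, H0 Ω v a b → ∫ z, v z * ψ z = 0 →
      (1 + γ) * ∫ z, v z ^ 2 ≤ ∫ z, (a z ^ 2 + b z ^ 2)) {ε : ℝ} (hε : 0 < ε) :
    ∃ s0 > 0, ∀ (x0 : P) (B : Set P), IsOpen B → B ⊆ Metric.ball x0 s0 →
      ∀ ψ' ψx' ψy' : P → ℝ, Eigf (Ω ∪ B) (lamP (Ω ∪ B)) ψ' ψx' ψy' → ∫ z, ψ' z ^ 2 = k →
        ∫ z, (ψ' z - ψ z) ^ 2 ≤ ε * (k * (1 - lamP (Ω ∪ B))) := by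
  set ε1 := min (min 1 (γ / 80)) (γ * ε / 40) with hε1
  have hε1p : 0 < ε1 := lt_min (lt_min one_pos (by positivity)) (by positivity)
  have hε1a : ε1 ≤ 1 := (min_le_left _ _).trans (min_le_left _ _)
  have hε1b : ε1 ≤ γ / 80 := (min_le_left _ _).trans (min_le_right _ _)
  have hε1c : ε1 ≤ γ * ε / 40 := min_le_right _ _
  set r := min (1 / 160) (√(ε / 11520)) with hr
  have hrp : 0 < r := lt_min (by norm_num) (Real.sqrt_pos.2 (by positivity))
  have hr1 : r ^ 2 ≤ 1 / 25600 := by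
    have : r ≤ 1 / 160 := min_le_left _ _
    nlinarith
  have hr2 : r ^ 2 ≤ ε / 11520 := by
    have h1 : r ≤ √(ε / 11520) := min_le_right _ _
    calc r ^ 2 ≤ √(ε / 11520) ^ 2 := pow_le_pow_left₀ hrp.le h1 2
      _ = ε / 11520 := Real.sq_sqrt (by positivity)
  obtain ⟨s1, hs1, hcut⟩ := exists_cutoff hε1p hrp
  obtain ⟨s2, hs2, hD⟩ := D_small hΩ hne hf hl he (by rw [hk]; exact hk0)
    (show 0 < γ ^ 2 * ε / 400 by positivity)
  refine ⟨min s1 s2, lt_min hs1 hs2, fun x0 B hB hBs ψ' ψx' ψy' he' hk' => ?_⟩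
  have hBs1 : B ⊆ Metric.ball x0 s1 := hBs.trans (Metric.ball_subset_ball (min_le_left _ _))
  have hBs2 : B ⊆ Metric.ball x0 s2 := hBs.trans (Metric.ball_subset_ball (min_le_right _ _))
  have hD1 := hD x0 B hB hBs2
  obtain ⟨χ, hχ⟩ := hcut x0
  have hO : IsOpen (Ω ∪ B) := hΩ.union hB
  set l := lamP (Ω ∪ B) with hl'
  have hl1 : l ≤ 1 := lam_union_le he (by rw [hk]; exact hk0)
  set D := 1 - l with hDdef
  have hD0 : 0 ≤ D := by linarith
  have hlD : l = 1 - D := by rw [hDdef]; ring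
  have hm := he.mem.mono (subset_union_left (t := B))
  obtain ⟨hEη, hNη⟩ := eta_en he hk he' hk'
  rw [← hDdef] at hEη
  have hfin : volume (Ω ∪ B) ≠ ⊤ := by
    refine ((measure_union_le _ _).trans_lt (ENNReal.add_lt_top.2 ⟨hf.lt_top, ?_⟩)).ne
    exact (measure_mono hBs).trans_lt (ball_ne_top.lt_top)
  have hl0 : 0 < l := lamP_pos hO (hne.mono subset_union_left) hfin
  have hηm := he'.mem.sub hm
  set N := ∫ z, (ψ' z - ψ z) ^ 2 with hN
  have hN0 : 0 ≤ N := integral_nonneg fun z => sq_nonneg _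
  have hpp : 0 ≤ ∫ z, ψ' z * ψ z := by
    apply integral_nonneg_of_ae
    filter_upwards [he.nonneg, he'.nonneg] with z h1 h2
    exact mul_nonneg h2 h1
  have hN2k : N ≤ 2 * k := by linarith
  have hlN : l * N ≤ N := mul_le_of_le_one_left hN0 hl1
  -- truncation
  have m1 := hχ.co_mem hs1 hΩ hBs1 hηm
  have m2 := hχ.co_mem2 hs1 hΩ hBs1 hηm
  have m2' := m2.mono (subset_union_left (t := B))
  have e1 := hχ.en_co hηm (int_en2 hηm m2')
  have e2 : ∫ z, ((ψx' z - ψx z) * ((1 - χ z) * ((1 - χ z) * (ψx' z - ψx z) -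
        dd ex χ z * (ψ' z - ψ z)) - dd ex χ z * ((1 - χ z) * (ψ' z - ψ z))) +
        (ψy' z - ψy z) * ((1 - χ z) * ((1 - χ z) * (ψy' z - ψy z) -
        dd ey χ z * (ψ' z - ψ z)) - dd ey χ z * ((1 - χ z) * (ψ' z - ψ z)))) =
      (∫ z, ((1 - χ z) * (ψ' z - ψ z)) ^ 2) -
        D * ∫ z, ψ' z * ((1 - χ z) * ((1 - χ z) * (ψ' z - ψ z))) := by
    have h1 := en2_comb he'.mem hm m2' 1 (-1)
    rw [he'.eq _ _ _ m2', he.eq _ _ _ m2] at h1
    have h2 : ∫ z, ((1 - χ z) * (ψ' z - ψ z)) ^ 2 =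
        (∫ z, ψ' z * ((1 - χ z) * ((1 - χ z) * (ψ' z - ψ z)))) -
          ∫ z, ψ z * ((1 - χ z) * ((1 - χ z) * (ψ' z - ψ z))) := by
      rw [← integral_sub (int_nm2 he'.mem m2') (int_nm2 he.mem m2)]
      congr 1; ext z; ring
    rw [h2]
    have h3 : ∀ z, (1 * ψx' z + -1 * ψx z) * ((1 - χ z) * ((1 - χ z) * (ψx' z - ψx z) -
        dd ex χ z * (ψ' z - ψ z)) - dd ex χ z * ((1 - χ z) * (ψ' z - ψ z))) +
        (1 * ψy' z + -1 * ψy z) * ((1 - χ z) * ((1 - χ z) * (ψy' z - ψy z) -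
        dd ey χ z * (ψ' z - ψ z)) - dd ey χ z * ((1 - χ z) * (ψ' z - ψ z))) =
        (ψx' z - ψx z) * ((1 - χ z) * ((1 - χ z) * (ψx' z - ψx z) -
        dd ex χ z * (ψ' z - ψ z)) - dd ex χ z * ((1 - χ z) * (ψ' z - ψ z))) +
        (ψy' z - ψy z) * ((1 - χ z) * ((1 - χ z) * (ψy' z - ψy z) -
        dd ey χ z * (ψ' z - ψ z)) - dd ey χ z * ((1 - χ z) * (ψ' z - ψ z))) := fun z => by ring
    simp only [h3] at h1
    rw [h1, hlD]; ring
  rw [e2] at e1
  have hH := hχ.hardy _ _ _ _ hηm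
  rw [hEη] at hH
  have hQ := gap_quant he hk hk0 hgap m1
  rw [e1] at hQ
  -- the mixed term
  have hmix : -(D * ∫ z, ψ' z * ((1 - χ z) * ((1 - χ z) * (ψ' z - ψ z)))) ≤
      γ / 40 * N + 10 / γ * D ^ 2 * k := by
    rw [hN, ← hk', ← integral_const_mul, ← integral_const_mul, ← integral_const_mul,
      ← integral_neg, ← integral_add (hηm.mu.integrable_sq.const_mul _)
      (he'.mem.mu.integrable_sq.const_mul _)]
    apply integral_mono ((int_nm2 he'.mem m2').const_mul D).neg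
      ((hηm.mu.integrable_sq.const_mul _).add (he'.mem.mu.integrable_sq.const_mul _))
    intro z
    show -(D * (ψ' z * ((1 - χ z) * ((1 - χ z) * (ψ' z - ψ z))))) ≤
      γ / 40 * (ψ' z - ψ z) ^ 2 + 10 / γ * D ^ 2 * ψ' z ^ 2
    have hc0 := hχ.nonneg z
    have hc1 := hχ.le_one z
    set t := (1 - χ z) * (1 - χ z) with ht
    have ht0 : 0 ≤ t := mul_self_nonneg _
    have ht1 : t ≤ 1 := by nlinarith
    have h1 : |D * (ψ' z * ((1 - χ z) * ((1 - χ z) * (ψ' z - ψ z))))| ≤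
        D * (|ψ' z| * |ψ' z - ψ z|) := by
      rw [show D * (ψ' z * ((1 - χ z) * ((1 - χ z) * (ψ' z - ψ z)))) =
        t * (D * (ψ' z * (ψ' z - ψ z))) by rw [ht]; ring]
      rw [abs_mul, abs_of_nonneg ht0, abs_mul, abs_of_nonneg hD0, abs_mul]
      exact mul_le_of_le_one_left (by positivity) ht1
    have h2 : D * (|ψ' z| * |ψ' z - ψ z|) ≤ γ / 40 * |ψ' z - ψ z| ^ 2 +
        10 / γ * D ^ 2 * |ψ' z| ^ 2 := by
      have h3 : γ / 40 * |ψ' z - ψ z| ^ 2 + 10 / γ * D ^ 2 * |ψ' z| ^ 2 -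
          D * (|ψ' z| * |ψ' z - ψ z|) = (γ / 40) * (|ψ' z - ψ z| - 20 / γ * D * |ψ' z|) ^ 2 := by
        field_simp
        ring
      have h4 : 0 ≤ (γ / 40) * (|ψ' z - ψ z| - 20 / γ * D * |ψ' z|) ^ 2 := by positivity
      linarith
    rw [sq_abs, sq_abs] at h2
    have h5 := neg_abs_le (D * (ψ' z * ((1 - χ z) * ((1 - χ z) * (ψ' z - ψ z)))))
    linarith
  -- the small part
  have hS := hχ.small_nm hrp hηm
  rw [hEη] at hS
  set S := ∫ z, (χ z * (ψ' z - ψ z)) ^ 2 with hSdef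
  set Z := ∫ z, ((1 - χ z) * (ψ' z - ψ z)) ^ 2 with hZ
  have hS0 : 0 ≤ S := integral_nonneg fun z => sq_nonneg _
  have hkD : 0 ≤ k * D := mul_nonneg hk0.le hD0
  have hS1 : S ≤ r ^ 2 * (32 * (k * D) + 48 * N) := by
    have h1 : k * D + l * N ≤ k * D + N := by linarith
    have h2 : ε1 * ((k * D + l * N) + N) ≤ 1 * (k * D + 2 * N) :=
      mul_le_mul hε1a (by linarith) (by have := mul_nonneg hl0.le hN0; linarith) (by norm_num)
    have h3 : 8 * r ^ 2 * (2 * (k * D + l * N) + 2 * (ε1 * ((k * D + l * N) + N))) ≤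
        8 * r ^ 2 * (4 * (k * D) + 6 * N) := by
      apply mul_le_mul_of_nonneg_left _ (by positivity)
      linarith
    calc S ≤ _ := hS
      _ ≤ _ := h3
      _ = r ^ 2 * (32 * (k * D) + 48 * N) := by ring
  -- N <= 5/4 Z + 5 S
  have mχ := hχ.mul_mem' hO hηm
  have hNZ : N ≤ 5 / 4 * Z + 5 * S := by
    rw [hN, hZ, hSdef, ← integral_const_mul, ← integral_const_mul,
      ← integral_add (m1.mu.integrable_sq.const_mul _) (mχ.mu.integrable_sq.const_mul _)]
    apply integral_mono hηm.mu.integrable_sq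
      ((m1.mu.integrable_sq.const_mul _).add (mχ.mu.integrable_sq.const_mul _))
    intro z
    show (ψ' z - ψ z) ^ 2 ≤ 5 / 4 * ((1 - χ z) * (ψ' z - ψ z)) ^ 2 + 5 * (χ z * (ψ' z - ψ z)) ^ 2
    nlinarith [sq_nonneg ((1 - χ z) * (ψ' z - ψ z) - 4 * (χ z * (ψ' z - ψ z)))]
  -- the component along psi
  have hcomp : (∫ z, (1 - χ z) * (ψ' z - ψ z) * ψ z) ^ 2 / k ≤ 5 / 8 * N + 5 * S := by
    have h1 : ∫ z, (1 - χ z) * (ψ' z - ψ z) * ψ z = - N / 2 - ∫ z, χ z * (ψ' z - ψ z) * ψ z := by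
      have h2 : ∫ z, (ψ' z - ψ z) * ψ z = - N / 2 := by
        have h3 := nm2_comb he'.mem he.mem he.mem 1 (-1)
        have e4 : ∀ z, (1 * ψ' z + -1 * ψ z) * ψ z = (ψ' z - ψ z) * ψ z := fun z => by ring
        have e5 : ∫ z, ψ z * ψ z = k := by rw [← hk]; congr 1; ext z; ring
        simp only [e4, e5] at h3
        rw [h3]; linarith
      rw [← h2, ← integral_sub (int_nm2 hηm he.mem) (int_nm2 mχ he.mem)]
      congr 1; ext z; ring
    have h3 : (∫ z, χ z * (ψ' z - ψ z) * ψ z) ^ 2 ≤ S * k := by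
      have h4 := abs_int_mul_le mχ.mu he.mem.mu
      rw [hk] at h4
      calc (∫ z, χ z * (ψ' z - ψ z) * ψ z) ^ 2 = |∫ z, χ z * (ψ' z - ψ z) * ψ z| ^ 2 :=
            (sq_abs _).symm
        _ ≤ (√S * √k) ^ 2 := pow_le_pow_left₀ (abs_nonneg _) h4 2
        _ = S * k := by rw [mul_pow, Real.sq_sqrt hS0, Real.sq_sqrt hk0.le]
    rw [h1, div_le_iff₀ hk0]
    set Y := ∫ z, χ z * (ψ' z - ψ z) * ψ z with hY
    have h5 : (-N / 2 - Y) ^ 2 ≤ 5 / 16 * N ^ 2 + 5 * Y ^ 2 := by
      nlinarith [sq_nonneg (N / 2 - 4 * Y)]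
    have h6 : N ^ 2 ≤ 2 * k * N := by
      rw [_root_.sq]; exact mul_le_mul_of_nonneg_right hN2k hN0
    linarith
  -- conclusion
  have hZlow : 7 / 40 * N - 9 * S ≤ Z - (∫ z, (1 - χ z) * (ψ' z - ψ z) * ψ z) ^ 2 / k := by
    linarith
  have h10 := mul_le_mul_of_nonneg_left hZlow hγ.le
  have h11 : γ * (7 / 40 * N - 9 * S) ≤ γ / 40 * N + 10 / γ * D ^ 2 * k +
      ε1 * ((k * D + l * N) + N) := by linarith
  have h12 : ε1 * ((k * D + l * N) + N) ≤ γ * ε / 40 * (k * D) + γ / 40 * N := by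
    have a1 : ε1 * ((k * D + l * N) + N) ≤ ε1 * (k * D) + ε1 * (2 * N) := by
      have := mul_le_mul_of_nonneg_left hlN hε1p.le
      linarith
    have a2 : ε1 * (k * D) ≤ γ * ε / 40 * (k * D) := mul_le_mul_of_nonneg_right hε1c hkD
    have a3 : ε1 * (2 * N) ≤ γ / 80 * (2 * N) := mul_le_mul_of_nonneg_right hε1b (by linarith)
    linarith
  have h13 : 10 / γ * D ^ 2 * k ≤ γ * ε / 40 * (k * D) := by
    have a1 : 10 / γ * D ≤ 10 / γ * (γ ^ 2 * ε / 400) := mul_le_mul_of_nonneg_left hD1 (by positivity)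
    have a2 : 10 / γ * (γ ^ 2 * ε / 400) = γ * ε / 40 := by field_simp; ring
    rw [a2] at a1
    calc 10 / γ * D ^ 2 * k = (10 / γ * D) * (k * D) := by ring
      _ ≤ (γ * ε / 40) * (k * D) := mul_le_mul_of_nonneg_right a1 hkD
  have h14 : γ * (9 * S) ≤ γ * ε / 40 * (k * D) + γ / 40 * N := by
    have a1 : 9 * S ≤ 9 * (r ^ 2 * (32 * (k * D) + 48 * N)) := by linarith
    have a2 : 9 * (r ^ 2 * (32 * (k * D) + 48 * N)) ≤ ε / 40 * (k * D) + 1 / 40 * N := by
      have b1 : r ^ 2 * (288 * (k * D)) ≤ ε / 11520 * (288 * (k * D)) :=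
        mul_le_mul_of_nonneg_right hr2 (by positivity)
      have b2 : r ^ 2 * (432 * N) ≤ 1 / 25600 * (432 * N) :=
        mul_le_mul_of_nonneg_right hr1 (by positivity)
      linarith
    have := mul_le_mul_of_nonneg_left (a1.trans a2) hγ.le
    linarith
  have h15 : γ * N ≤ γ * (3 / 4 * ε * (k * D)) := by linarith
  have h16 := le_of_mul_le_mul_left h15 hγ
  have h17 : 0 ≤ ε * (k * D) := by positivity
  linarith

/-- a solution which is nonnegative in `W` is a subsolution there -/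
theorem sub_local {Ω W : Set P} (hΩ : IsOpen Ω) {v vx vy f : P → ℝ} (h : H0 Ω v vx vy)
    (hf : MemLp f 2 volume)
    (eq : ∀ η ηx ηy, H0 Ω η ηx ηy → ∫ z, (vx z * ηx z + vy z * ηy z) = ∫ z, f z * η z)
    (hv : ∀ᵐ z, z ∈ W → 0 ≤ v z) (hf0 : ∀ᵐ z, z ∈ W → 0 ≤ f z) {η : P → ℝ} (hη : IsTest1 W η)
    (h0 : ∀ z, 0 ≤ η z) :
    ∫ z, (vx z * dd ex η z + vy z * dd ey η z) ≤ ∫ z, f z * η z := by
  have hη' : IsTest1 univ η := ⟨hη.smooth, hη.cpt, subset_univ _⟩
  obtain ⟨C, hC0, hC1, hC2, hC3⟩ := hη'.bdd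
  have mη := IsTest1.memLp hη
  have mηx := IsTest1.dd_memLp hη ex
  have mηy := IsTest1.dd_memLp hη ey
  have kz := H0.kink_zero hΩ h
  have hout : ∀ z, z ∉ W → η z = 0 := fun z hz =>
    image_eq_zero_of_notMem_tsupport fun hc => hz (hη.sub hc)
  have hdout : ∀ v z, z ∉ W → dd v η z = 0 := fun v z hz =>
    dd_zero_of_notMem_tsupport (fun hc => hz (hη.sub hc)) v
  set q : ℕ → ℝ := fun n => 1 / ((n : ℝ) + 1) with hq
  have qpos : ∀ n, 0 < q n := fun n => by positivity
  have qlim : Tendsto q atTop (𝓝 0) := tendsto_one_div_add_atTop_nhds_zero_nat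
  have hpp := H0.posPart hΩ h (l := 0) le_rfl
  -- truncated functions
  set g : ℕ → P → ℝ := fun n z => min (max 0 (v z - 0)) (q n) with hg
  have hgm : ∀ n, H0 Ω (g n)
      (fun z => if max 0 (v z - 0) ≤ q n then (if 0 < v z then vx z else 0) else 0)
      (fun z => if max 0 (v z - 0) ≤ q n then (if 0 < v z then vy z else 0) else 0) := fun n =>
    H0.minLevel hΩ hpp (qpos n).le
  have hg0 : ∀ n z, 0 ≤ g n z := fun n z => le_min (le_max_left _ _) (qpos n).le
  have hgq : ∀ n z, g n z ≤ q n := fun n z => min_le_right _ _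
  have key : ∀ n, ∫ z, (g n z / q n) * (vx z * dd ex η z + vy z * dd ey η z) ≤ ∫ z, f z * η z := by
    intro n
    have h1 := (hgm n).mul_C1 hΩ hη.smooth hC1 hC2 hC3
    have h2 := eq _ _ _ h1
    have i0 := ((integrable_mul2 h.ma mηx).add (integrable_mul2 h.mb mηy))
    have ia : Integrable (fun z => g n z * (vx z * dd ex η z + vy z * dd ey η z)) := by
      refine (i0.norm.const_mul (q n)).mono' ?_ ?_
      · exact (hgm n).mu.aestronglyMeasurable.mul i0.aestronglyMeasurable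
      · filter_upwards with z
        rw [norm_mul]
        apply mul_le_mul_of_nonneg_right _ (norm_nonneg _)
        rw [Real.norm_eq_abs, abs_of_nonneg (hg0 n z)]
        exact hgq n z
    have ib : Integrable (fun z => η z *
        ((if max 0 (v z - 0) ≤ q n then (if 0 < v z then vx z else 0) else 0) * vx z +
        (if max 0 (v z - 0) ≤ q n then (if 0 < v z then vy z else 0) else 0) * vy z)) := by
      have i1 := ((integrable_mul2 (hgm n).ma h.ma).add (integrable_mul2 (hgm n).mb h.mb))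
      refine (i1.norm.const_mul C).mono' ?_ ?_
      · exact mη.aestronglyMeasurable.mul i1.aestronglyMeasurable
      · filter_upwards with z
        rw [norm_mul]
        apply mul_le_mul_of_nonneg_right _ (norm_nonneg _)
        exact hC1 z
    have e1 : ∫ z, (vx z * (η z *
          (if max 0 (v z - 0) ≤ q n then (if 0 < v z then vx z else 0) else 0) +
          dd ex η z * g n z) + vy z * (η z *
          (if max 0 (v z - 0) ≤ q n then (if 0 < v z then vy z else 0) else 0) +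
          dd ey η z * g n z)) =
        (∫ z, g n z * (vx z * dd ex η z + vy z * dd ey η z)) + ∫ z, η z *
        ((if max 0 (v z - 0) ≤ q n then (if 0 < v z then vx z else 0) else 0) * vx z +
        (if max 0 (v z - 0) ≤ q n then (if 0 < v z then vy z else 0) else 0) * vy z) := by
      rw [← integral_add ia ib]
      congr 1; ext z; ring
    rw [e1] at h2
    have p1 : 0 ≤ ∫ z, η z *
        ((if max 0 (v z - 0) ≤ q n then (if 0 < v z then vx z else 0) else 0) * vx z +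
        (if max 0 (v z - 0) ≤ q n then (if 0 < v z then vy z else 0) else 0) * vy z) := by
      apply integral_nonneg
      intro z
      apply mul_nonneg (h0 z)
      split_ifs
      · exact add_nonneg (mul_self_nonneg _) (mul_self_nonneg _)
      · simp
      · simp
    have p2 : ∫ z, f z * (η z * g n z) ≤ q n * ∫ z, f z * η z := by
      rw [← integral_const_mul]
      apply integral_mono_ae (integrable_mul2 hf h1.mu) ((integrable_mul2 hf mη).const_mul _)
      filter_upwards [hf0] with z hz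
      show f z * (η z * g n z) ≤ q n * (f z * η z)
      by_cases hzW : z ∈ W
      · have : f z * (η z * g n z) ≤ f z * (η z * q n) := by
          apply mul_le_mul_of_nonneg_left _ (hz hzW)
          exact mul_le_mul_of_nonneg_left (hgq n z) (h0 z)
        linarith
      · rw [hout z hzW]; simp
    have e2 : ∫ z, (g n z / q n) * (vx z * dd ex η z + vy z * dd ey η z)
        = (∫ z, g n z * (vx z * dd ex η z + vy z * dd ey η z)) / q n := by
      rw [← integral_div]
      congr 1; ext z; ring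
    rw [e2, div_le_iff₀ (qpos n)]
    linarith
  -- limit
  have lim : Tendsto (fun n => ∫ z, (g n z / q n) * (vx z * dd ex η z + vy z * dd ey η z)) atTop
      (𝓝 (∫ z, (vx z * dd ex η z + vy z * dd ey η z))) := by
    have i0 := ((integrable_mul2 h.ma mηx).add (integrable_mul2 h.mb mηy))
    apply tendsto_integral_of_dominated_convergence
      (fun z => ‖vx z * dd ex η z + vy z * dd ey η z‖)
    · intro n
      exact (((hgm n).mu.aestronglyMeasurable).div₀ (by fun_prop)).mul i0.aestronglyMeasurable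
    · exact i0.norm
    · intro n
      filter_upwards with z
      rw [norm_mul]
      apply mul_le_of_le_one_left (norm_nonneg _)
      rw [Real.norm_eq_abs, abs_of_nonneg (div_nonneg (hg0 n z) (qpos n).le), div_le_one (qpos n)]
      exact hgq n z
    · filter_upwards [hv, kz] with z hz hk
      by_cases hzW : z ∈ W
      · rcases (hz hzW).eq_or_lt with h' | h'
        · obtain ⟨e1, e2⟩ := hk h'.symm
          simp [e1, e2]
        · refine tendsto_const_nhds.congr' ?_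
          have : ∀ᶠ n in atTop, q n < v z := qlim.eventually_lt_const h'
          filter_upwards [this] with n hn
          simp only [hg, sub_zero]
          rw [max_eq_right h'.le, min_eq_right hn.le, div_self (qpos n).ne', one_mul]
      · simp [hdout _ z hzW]
  exact le_of_tendsto' lim key

/-- the same against nonnegative elements of `H¹₀` of a small ball -/
theorem sub_local_H0 {Ω W : Set P} (hΩ : IsOpen Ω) {v vx vy f : P → ℝ} (h : H0 Ω v vx vy)
    (hf : MemLp f 2 volume)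
    (eq : ∀ η ηx ηy, H0 Ω η ηx ηy → ∫ z, (vx z * ηx z + vy z * ηy z) = ∫ z, f z * η z)
    (hv : ∀ᵐ z, z ∈ W → 0 ≤ v z) (hf0 : ∀ᵐ z, z ∈ W → 0 ≤ f z) {x0 : P} {r δ : ℝ} (hδ : 0 < δ)
    (hW : Metric.closedBall x0 (r + δ) ⊆ W) {U : Set P} {g gx gy : P → ℝ} (hg : H0 U g gx gy)
    (hg0 : ∀ᵐ z, 0 ≤ g z) (hgs : ∀ z, z ∉ Metric.closedBall x0 r → g z = 0) :
    ∫ z, (vx z * gx z + vy z * gy z) ≤ ∫ z, f z * g z := by
  obtain ⟨c1, c2, c3⟩ := hg.av_lim
  have hli : LocallyIntegrable g volume := hg.mu.locallyIntegrable (by norm_num)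
  have t : Tendsto (fun n : ℕ => (1 / 2 : ℝ) ^ n) atTop (𝓝 0) :=
    tendsto_pow_atTop_nhds_zero_of_lt_one (by norm_num) (by norm_num)
  have key : ∀ᶠ n : ℕ in atTop, ∫ z, (vx z * av ((1 / 2 : ℝ) ^ n) gx z +
      vy z * av ((1 / 2 : ℝ) ^ n) gy z) ≤ ∫ z, f z * av ((1 / 2 : ℝ) ^ n) g z := by
    filter_upwards [t.eventually (ge_mem_nhds hδ)] with n hn
    set s := (1 / 2 : ℝ) ^ n with hs
    have hsp : 0 < s := by positivity
    have hsupp : ∀ x, x ∉ Metric.closedBall x0 (r + s) → av s g x = 0 := by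
      intro x hx
      unfold av
      rw [show (fun z => g z * mker s (z - x)) = fun _ => 0 from ?_]
      · simp
      · ext z
        by_cases hz : z ∈ Metric.closedBall x0 r
        · have : mker s (z - x) = 0 := by
            by_contra hc
            apply hx
            have h2 := mk_support hsp (show z - x ∈ Function.support (mker s) from hc)
            rw [Metric.mem_closedBall, dist_zero_right, ← dist_eq_norm] at h2
            rw [Metric.mem_closedBall] at hz ⊢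
            rw [dist_comm] at h2
            linarith [dist_triangle x z x0]
          rw [this, mul_zero]
        · rw [hgs z hz, zero_mul]
    have htest : IsTest1 W (av s g) := by
      refine ⟨av_contDiff hsp hli, HasCompactSupport.intro (isCompact_closedBall x0 (r + s))
        (fun z hz => hsupp z hz), ?_⟩
      have hcl : Metric.closedBall x0 (r + s) ⊆ W :=
        (Metric.closedBall_subset_closedBall (by linarith)).trans hW
      refine Subset.trans ?_ hcl
      apply closure_minimal _ Metric.isClosed_closedBall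
      intro z hz
      by_contra hc
      exact hz (hsupp z hc)
    have hnn : ∀ x, 0 ≤ av s g x := by
      intro x
      apply integral_nonneg_of_ae
      filter_upwards [hg0] with z hz
      exact mul_nonneg hz (mk_nonneg _ _)
    have := sub_local hΩ h hf eq hv hf0 htest hnn
    have ex1 : ∀ z, dd ex (av s g) z = av s gx z := fun z => hg.dd_av_x hsp z
    have ey1 : ∀ z, dd ey (av s g) z = av s gy z := fun z => hg.dd_av_y hsp z
    simp only [ex1, ey1] at this
    exact this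
  have l1 := (c2.integral_mul (Conv2.const h.ma)).add (c3.integral_mul (Conv2.const h.mb))
  have l2 := c1.integral_mul (Conv2.const hf)
  have hmu := mu0_pos
  have l1' : Tendsto (fun n : ℕ => ∫ z, (vx z * av ((1 / 2 : ℝ) ^ n) gx z +
      vy z * av ((1 / 2 : ℝ) ^ n) gy z)) atTop
      (𝓝 (mu0 * ∫ z, (vx z * gx z + vy z * gy z))) := by
    have e : mu0 * ∫ z, (vx z * gx z + vy z * gy z) =
        (∫ z, mu0 * gx z * vx z) + ∫ z, mu0 * gy z * vy z := by
      rw [← integral_const_mul, ← integral_add (integrable_mul2 (hg.ma.const_mul mu0) h.ma)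
        (integrable_mul2 (hg.mb.const_mul mu0) h.mb)]
      congr 1; ext z; ring
    rw [e]
    refine l1.congr (fun n => ?_)
    rw [← integral_add (integrable_mul2 (c2.memn n) h.ma) (integrable_mul2 (c3.memn n) h.mb)]
    congr 1; ext z; ring
  have l2' : Tendsto (fun n : ℕ => ∫ z, f z * av ((1 / 2 : ℝ) ^ n) g z) atTop
      (𝓝 (mu0 * ∫ z, f z * g z)) := by
    have e : mu0 * ∫ z, f z * g z = ∫ z, mu0 * g z * f z := by
      rw [← integral_const_mul]
      congr 1; ext z; ring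
    rw [e]
    refine l2.congr (fun n => ?_)
    congr 1; ext z; ring
  exact le_of_mul_le_mul_left (le_of_tendsto_of_tendsto l1' l2' key) hmu

end B4

end Pool.Agent.Lib.MP_f46d6a
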