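import Pool.Agent.Lib.MP_f46d6a_h64.Hole

/-!
# The pointwise comparison of the torsion function and the eigenfunction of an optimal set
-/

set_option autoImplicit false

open MeasureTheory Set Filter Topology
open scoped ContDiff

namespace Pool.Agent.Lib.MP_f46d6a

open Pool.Agent.Lib.MP_dac83a

namespace M2

open M1

/-- the hole inequality at fixed radii -/
theorem hole_fix {Ω : Set P} (hΩ : IsOpen Ω) (hf : volume Ω ≠ ⊤) {α γ : ℝ}
    (hα0 : 0 < α) (hα : α ≤ 1) (hγ : 0 < γ)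
    {w wx wy φ φx φy : P → ℝ} (ht : Tor Ω w wx wy) (hT : torP Ω = ∫ z, w z)
    (he : Eigf Ω 1 φ φx φy) (hl1 : lamP Ω = 1) (hn : ∫ z, φ z ^ 2 = 1)
    (hgap : ∀ v a b, H0 Ω v a b → ∫ z, v z * φ z = 0 →
      (1 + γ) * ∫ z, v z ^ 2 ≤ ∫ z, (a z ^ 2 + b z ^ 2))
    (opt : ∀ K, IsCompact K → (Ω \ K).Nonempty → lamP (Ω \ K) ^ α * torP (Ω \ K) ≤ torP Ω)
    {x0 : P} {R m M : ℝ} (hR0 : 0 < R) (hR : Metric.closedBall x0 R ⊆ Ω) (hm : 0 ≤ m)
    (hM : 0 ≤ M) (hw : ∀ᵐ z, z ∈ Metric.closedBall x0 R → w z ≤ M)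
    (hφ : ∀ᵐ z, z ∈ Metric.closedBall x0 R → m ≤ φ z) {L : ℝ} (hL : 3 < L)
    (hκ : 0 ≤ 1 - mu0 * m ^ 2 / (γ * L) - 2 * R * √(8 / γ) - (2 / R) * √(24 / (γ * L))) :
    α * torP Ω * m ^ 2 *
      (1 - mu0 * m ^ 2 / (γ * L) - 2 * R * √(8 / γ) - (2 / R) * √(24 / (γ * L))) ≤
      (M ^ 2 + 8 * R ^ 2 * M) * (L / (L - 3)) ^ 2 * (1 + (mu0 * m ^ 2 / L) *
        (1 - mu0 * m ^ 2 / (γ * L) - 2 * R * √(8 / γ) - (2 / R) * √(24 / (γ * L)))) := by
  set κ := 1 - mu0 * m ^ 2 / (γ * L) - 2 * R * √(8 / γ) - (2 / R) * √(24 / (γ * L)) with hκd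
  set ρ := R * Real.exp (-(L / 2)) with hρd
  have hρ : 0 < ρ := by positivity
  have hmu := mu0_pos
  have hL0 : 0 < L := by linarith
  have hρR : ρ < R := by
    rw [hρd]
    have : Real.exp (-(L / 2)) < 1 := by rw [Real.exp_lt_one_iff]; linarith
    nlinarith
  have hlog : 2 * Real.log (R / ρ) = L := by
    rw [hρd, Real.log_div hR0.ne' (by positivity), Real.log_mul hR0.ne' (Real.exp_pos _).ne',
      Real.log_exp]
    ring
  have hne : (Ω \ hl ρ x0).Nonempty := by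
    refine ⟨x0 + (R, 0), hR ?_, ?_⟩
    · rw [Metric.mem_closedBall, dist_eq_norm, add_sub_cancel_left, Prod.norm_def]
      simp [abs_of_pos hR0, hR0.le]
    · intro hc
      have h1 : r2 (x0 + (R, 0) - x0) ≤ ρ ^ 2 := hc
      rw [add_sub_cancel_left] at h1
      simp only [r2] at h1
      nlinarith
  have h1 := tor_hole hΩ hf ht hT (x0 := x0) hρ hρR.le (by rw [hlog]; exact hL) hM hw
  have h2 := lam_hole hΩ hγ he hn hgap hl1 hρ hρR.le hR (by rw [hlog]; exact hL) hm hφ hne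
  rw [hlog] at h1 h2
  have h3 := opt _ (hl_compact hρ) hne
  have hVf : volume (Ω \ hl ρ x0) ≠ ⊤ := ((measure_mono sdiff_subset).trans_lt hf.lt_top).ne
  have hT' : 0 < torP (Ω \ hl ρ x0) := torP_pos (hΩ.sdiff hl_closed) hne hVf
  set x := (mu0 * m ^ 2 / L) * κ with hx
  set y := (M ^ 2 + 8 * R ^ 2 * M) * (L * mu0) / (L - 3) ^ 2 with hy
  have hx0 : 0 ≤ x := mul_nonneg (by positivity) hκ
  have h4 : (1 + x) ^ α ≤ lamP (Ω \ hl ρ x0) ^ α := Real.rpow_le_rpow (by linarith) h2 hα0.le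
  have h5 : (1 + x) ^ α * torP (Ω \ hl ρ x0) ≤ torP Ω :=
    (mul_le_mul_of_nonneg_right h4 hT'.le).trans h3
  -- Bernoulli
  have h6 : (1 / (1 + x)) ^ α ≤ 1 + α * (-(x / (1 + x))) := by
    have e : 1 / (1 + x) = 1 + -(x / (1 + x)) := by field_simp; ring
    rw [e]
    apply rpow_one_add_le_one_add_mul_self _ hα0.le hα
    rw [neg_le_neg_iff, div_le_one (by linarith)]
    linarith
  have h7 : torP (Ω \ hl ρ x0) ≤ torP Ω * (1 / (1 + x)) ^ α := by
    rw [Real.div_rpow zero_le_one (by linarith), Real.one_rpow, mul_one_div,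
      le_div_iff₀ (Real.rpow_pos_of_pos (by linarith) _), mul_comm]
    exact h5
  have hTp : 0 ≤ torP Ω := by
    have : 0 < (1 + x) ^ α := Real.rpow_pos_of_pos (by linarith) _
    exact (mul_pos this hT').le.trans h5
  have h8 : torP Ω - y ≤ torP Ω * (1 + α * (-(x / (1 + x)))) :=
    h1.trans (h7.trans (mul_le_mul_of_nonneg_left h6 hTp))
  have h9 : α * torP Ω * (x / (1 + x)) ≤ y := by nlinarith
  have h10 : α * torP Ω * x ≤ y * (1 + x) := by
    rw [mul_div_assoc', div_le_iff₀ (by linarith)] at h9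
    exact h9
  have e1 : α * torP Ω * m ^ 2 * κ = (α * torP Ω * x) * (L / mu0) := by
    rw [hx]; field_simp
  have e2 : (M ^ 2 + 8 * R ^ 2 * M) * (L / (L - 3)) ^ 2 * (1 + x) = (y * (1 + x)) * (L / mu0) := by
    rw [hy]
    have : L - 3 ≠ 0 := by linarith
    field_simp
  rw [e1, e2]
  exact mul_le_mul_of_nonneg_right h10 (by positivity)

theorem hole_pt {Ω : Set P} (hΩ : IsOpen Ω) (hf : volume Ω ≠ ⊤) {α γ : ℝ}
    (hα0 : 0 < α) (hα : α ≤ 1) (hγ : 0 < γ)
    {w wx wy φ φx φy : P → ℝ} (ht : Tor Ω w wx wy) (hT : torP Ω = ∫ z, w z)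
    (he : Eigf Ω 1 φ φx φy) (hl : lamP Ω = 1) (hn : ∫ z, φ z ^ 2 = 1)
    (hgap : ∀ v a b, H0 Ω v a b → ∫ z, v z * φ z = 0 →
      (1 + γ) * ∫ z, v z ^ 2 ≤ ∫ z, (a z ^ 2 + b z ^ 2))
    (opt : ∀ K, IsCompact K → (Ω \ K).Nonempty → lamP (Ω \ K) ^ α * torP (Ω \ K) ≤ torP Ω)
    {x0 : P} {R0 m M : ℝ} (hR0 : 0 < R0) (hR : Metric.closedBall x0 R0 ⊆ Ω) (hm : 0 ≤ m)
    (hM : 0 ≤ M) (hw : ∀ᵐ z, z ∈ Metric.closedBall x0 R0 → w z ≤ M)
    (hφ : ∀ᵐ z, z ∈ Metric.closedBall x0 R0 → m ≤ φ z) :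
    α * torP Ω * m ^ 2 ≤ M ^ 2 := by
  -- the limit of small holes
  have step : ∀ R, 0 < R → R ≤ R0 → 2 * R * √(8 / γ) < 1 →
      α * torP Ω * m ^ 2 * (1 - 2 * R * √(8 / γ)) ≤ M ^ 2 + 8 * R ^ 2 * M := by
    intro R hRp hRR hRs
    have hsub : Metric.closedBall x0 R ⊆ Metric.closedBall x0 R0 :=
      Metric.closedBall_subset_closedBall hRR
    have t1 : Tendsto (fun L : ℝ => mu0 * m ^ 2 / (γ * L)) atTop (𝓝 0) :=
      tendsto_const_nhds.div_atTop (tendsto_id.const_mul_atTop hγ)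
    have t2 : Tendsto (fun L : ℝ => √(24 / (γ * L))) atTop (𝓝 0) := by
      have : Tendsto (fun L : ℝ => 24 / (γ * L)) atTop (𝓝 0) :=
        tendsto_const_nhds.div_atTop (tendsto_id.const_mul_atTop hγ)
      have := (Real.continuous_sqrt.tendsto 0).comp this
      rwa [Real.sqrt_zero] at this
    have t3 : Tendsto (fun L : ℝ => 1 - mu0 * m ^ 2 / (γ * L) - 2 * R * √(8 / γ) -
        (2 / R) * √(24 / (γ * L))) atTop (𝓝 (1 - 2 * R * √(8 / γ))) := by
      have := ((tendsto_const_nhds (x := (1 : ℝ))).sub t1).sub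
        (tendsto_const_nhds (x := 2 * R * √(8 / γ))) |>.sub (t2.const_mul (2 / R))
      simpa using this
    have t4 : Tendsto (fun L : ℝ => mu0 * m ^ 2 / L) atTop (𝓝 0) :=
      tendsto_const_nhds.div_atTop tendsto_id
    have t5 : Tendsto (fun L : ℝ => L / (L - 3)) atTop (𝓝 1) := by
      have h1 : Tendsto (fun L : ℝ => 1 + 3 / (L - 3)) atTop (𝓝 (1 + 0)) :=
        tendsto_const_nhds.add (tendsto_const_nhds.div_atTop
          (tendsto_atTop_add_const_right _ (-3) tendsto_id))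
      rw [add_zero] at h1
      refine h1.congr' ?_
      filter_upwards [eventually_gt_atTop (3 : ℝ)] with L hL
      have : L - 3 ≠ 0 := by linarith
      field_simp
      ring
    have t6 := (t3.const_mul (α * torP Ω * m ^ 2))
    have t7 := ((t5.pow 2).const_mul (M ^ 2 + 8 * R ^ 2 * M)).mul
      ((tendsto_const_nhds (x := (1 : ℝ))).add (t4.mul t3))
    have e : (M ^ 2 + 8 * R ^ 2 * M) * 1 ^ 2 * (1 + 0 * (1 - 2 * R * √(8 / γ))) =
      M ^ 2 + 8 * R ^ 2 * M := by ring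
    rw [e] at t7
    refine le_of_tendsto_of_tendsto t6 t7 ?_
    have hpos : ∀ᶠ L : ℝ in atTop, 0 < 1 - mu0 * m ^ 2 / (γ * L) - 2 * R * √(8 / γ) -
        (2 / R) * √(24 / (γ * L)) := t3.eventually (lt_mem_nhds (by linarith))
    filter_upwards [eventually_gt_atTop (3 : ℝ), hpos] with L hL hk
    exact hole_fix hΩ hf hα0 hα hγ ht hT he hl hn hgap opt hRp (hsub.trans hR) hm hM
      (by filter_upwards [hw] with z hz hzb using hz (hsub hzb))
      (by filter_upwards [hφ] with z hz hzb using hz (hsub hzb)) hL hk.le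
  have c1 : Tendsto (fun R : ℝ => α * torP Ω * m ^ 2 * (1 - 2 * R * √(8 / γ))) (𝓝[>] 0)
      (𝓝 (α * torP Ω * m ^ 2 * (1 - 2 * 0 * √(8 / γ)))) := by
    apply tendsto_nhdsWithin_of_tendsto_nhds
    exact Continuous.tendsto (by fun_prop) 0
  have c2 : Tendsto (fun R : ℝ => M ^ 2 + 8 * R ^ 2 * M) (𝓝[>] 0)
      (𝓝 (M ^ 2 + 8 * 0 ^ 2 * M)) := by
    apply tendsto_nhdsWithin_of_tendsto_nhds
    exact Continuous.tendsto (by fun_prop) 0
  have h3 : ∀ᶠ R : ℝ in 𝓝[>] 0, 2 * R * √(8 / γ) < 1 := by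
    have : Tendsto (fun R : ℝ => 2 * R * √(8 / γ)) (𝓝[>] 0) (𝓝 (2 * 0 * √(8 / γ))) := by
      apply tendsto_nhdsWithin_of_tendsto_nhds
      exact Continuous.tendsto (by fun_prop) 0
    simp only [mul_zero, zero_mul] at this
    exact this.eventually (gt_mem_nhds one_pos)
  have h4 : ∀ᶠ R : ℝ in 𝓝[>] 0, R ≤ R0 := by
    filter_upwards [Ioo_mem_nhdsGT hR0] with R hR using hR.2.le
  have := le_of_tendsto_of_tendsto c1 c2 (by
    filter_upwards [h3, h4, self_mem_nhdsWithin] with R a1 a2 a3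
    exact step R a3 a2 a1)
  simpa using this

end M2

open M1 M2

/-- on an optimal set the torsion function dominates the scaled eigenfunction -/
theorem hole {Ω : Set P} (hΩ : IsOpen Ω) (hne : Ω.Nonempty) (hf : volume Ω ≠ ⊤) {α γ : ℝ}
    (hα0 : 0 < α) (hα : α ≤ 1) (hγ : 0 < γ)
    {w wx wy φ φx φy : P → ℝ} (ht : Tor Ω w wx wy) (hT : torP Ω = ∫ z, w z)
    (he : Eigf Ω 1 φ φx φy) (hl : lamP Ω = 1) (hn : ∫ z, φ z ^ 2 = 1)
    (hgap : ∀ v a b, H0 Ω v a b → ∫ z, v z * φ z = 0 →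
      (1 + γ) * ∫ z, v z ^ 2 ≤ ∫ z, (a z ^ 2 + b z ^ 2))
    (opt : ∀ K, IsCompact K → (Ω \ K).Nonempty → lamP (Ω \ K) ^ α * torP (Ω \ K) ≤ torP Ω) :
    ∀ᵐ z, √(α * ∫ z, w z) * φ z ≤ w z := by
  have hmu := mu0_pos
  have hTp : 0 < torP Ω := torP_pos hΩ hne hf
  -- upper semicontinuity of `w`
  have hsub : SubC 1 w wx wy := by
    refine ht.mem.subC hΩ ht.nonneg (f := Ω.indicator fun _ => (1 : ℝ))
      (memLp_indicator_const 2 hΩ.measurableSet 1 (Or.inr hf)) ?_ zero_le_one ?_ ?_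
    · filter_upwards with z
      exact indicator_nonneg (fun _ _ => zero_le_one) z
    · filter_upwards with z
      by_cases hz : z ∈ Ω <;> simp [hz]
    · intro η ηx ηy hη
      rw [ht.eq _ _ _ hη]
      apply integral_congr_ae
      filter_upwards [hη.zero_off] with z hz
      by_cases hzΩ : z ∈ Ω
      · simp [hzΩ]
      · simp [hzΩ, (hz hzΩ).1]
  have usc : ∀ᵐ x, ∀ ε > 0, ∃ δ > 0, ∀ᵐ z, z ∈ Metric.ball x δ → w z ≤ w x + ε := by
    filter_upwards [hsub.star_ae] with x hx ε hε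
    have h1 := hsub.dy_lim x
    rw [hx] at h1
    obtain ⟨k, hk⟩ := (h1.eventually (gt_mem_nhds (show w x < w x + ε by linarith))).exists
    have hcont : Continuous (dy 1 w k) := (hsub.dy_contDiff k).continuous
    obtain ⟨δ, hδ, h2⟩ := Metric.isOpen_iff.1 (isOpen_lt hcont continuous_const) x hk
    refine ⟨δ, hδ, ?_⟩
    filter_upwards [hsub.le_dy] with z hz hzb
    have h3 : dy 1 w k z < w x + ε := h2 hzb
    exact (hz k).trans h3.le
  -- lower semicontinuity of `φ`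
  have lsc : ∀ᵐ x, x ∈ Ω → ∀ ε > 0, ∃ δ > 0, ∀ᵐ z, z ∈ Metric.ball x δ → φ x - ε ≤ φ z := by
    obtain ⟨k, hk, hlim⟩ := he.mem.av_lim.1.exists_ae
    filter_upwards [hlim] with x hx hxΩ ε hε
    obtain ⟨r, hr, hrs⟩ := Metric.isOpen_iff.1 hΩ x hxΩ
    have t : Tendsto (fun n => (1 / 2 : ℝ) ^ (k n)) atTop (𝓝 0) :=
      (tendsto_pow_atTop_nhds_zero_of_lt_one (by norm_num) (by norm_num)).comp hk.tendsto_atTop
    obtain ⟨n, hn1, hn2⟩ := ((hx.eventually (lt_mem_nhds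
      (show mu0 * (φ x - ε) < mu0 * φ x by nlinarith))).and
      (t.eventually (gt_mem_nhds (show 0 < r / 2 by positivity)))).exists
    set s := (1 / 2 : ℝ) ^ (k n) with hs
    have hsp : 0 < s := by positivity
    have hcont : Continuous (av s φ) :=
      (av_contDiff hsp (he.mem.mu.locallyIntegrable (by norm_num))).continuous
    obtain ⟨δ, hδ, h2⟩ := Metric.isOpen_iff.1 (isOpen_lt continuous_const hcont) x hn1
    refine ⟨min δ s, lt_min hδ hsp, ?_⟩
    filter_upwards [av_le_ae hΩ zero_le_one he] with z hz hzb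
    have h3 : mu0 * (φ x - ε) < av s φ z := h2 (Metric.ball_subset_ball (min_le_left _ _) hzb)
    have h4 : Metric.closedBall z s ⊆ Ω := by
      refine Subset.trans ?_ hrs
      intro y hy
      have h5 : dist z x < s := (Metric.mem_ball.1 hzb).trans_le (min_le_right _ _)
      have h6 : dist y z ≤ s := hy
      rw [Metric.mem_ball]
      calc dist y x ≤ dist y z + dist z x := dist_triangle _ _ _
        _ < s + s := by linarith
        _ < r := by linarith
    have h7 := hz s hsp h4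
    have h8 : mu0 * (φ x - ε) ≤ mu0 * φ z := h3.le.trans h7
    exact le_of_mul_le_mul_left h8 hmu
  rw [← hT]
  filter_upwards [usc, lsc, ht.mem.zero_off, he.mem.zero_off, ht.nonneg] with x h1 h2 h3 h4 h5
  by_cases hx : x ∈ Ω
  · have hs0 : 0 ≤ √(α * torP Ω) := Real.sqrt_nonneg _
    have key : ∀ ε > 0, √(α * torP Ω) * (φ x - ε) ≤ w x + ε := by
      intro ε hε
      obtain ⟨δ1, hδ1, a1⟩ := h1 ε hε
      obtain ⟨δ2, hδ2, a2⟩ := h2 hx ε hε
      obtain ⟨r, hr, hrs⟩ := Metric.isOpen_iff.1 hΩ x hx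
      rcases le_or_gt (φ x - ε) 0 with h6 | h6
      · have : √(α * torP Ω) * (φ x - ε) ≤ 0 := mul_nonpos_of_nonneg_of_nonpos hs0 h6
        linarith
      · set R0 := min (min δ1 δ2) r / 2 with hR0
        have hm : 0 < min (min δ1 δ2) r := lt_min (lt_min hδ1 hδ2) hr
        have hR0p : 0 < R0 := by positivity
        have hlt : R0 < min (min δ1 δ2) r := by rw [hR0]; linarith
        have s1 : Metric.closedBall x R0 ⊆ Metric.ball x δ1 :=
          Metric.closedBall_subset_ball (hlt.trans_le ((min_le_left _ _).trans (min_le_left _ _)))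
        have s2 : Metric.closedBall x R0 ⊆ Metric.ball x δ2 :=
          Metric.closedBall_subset_ball (hlt.trans_le ((min_le_left _ _).trans (min_le_right _ _)))
        have s3 : Metric.closedBall x R0 ⊆ Ω :=
          (Metric.closedBall_subset_ball (hlt.trans_le (min_le_right _ _))).trans hrs
        have h7 := hole_pt hΩ hf hα0 hα hγ ht hT he hl hn hgap opt hR0p s3 h6.le
          (show 0 ≤ w x + ε by linarith)
          (by filter_upwards [a1] with z hz hzb using hz (s1 hzb))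
          (by filter_upwards [a2] with z hz hzb using hz (s2 hzb))
        have h8 := Real.sqrt_le_sqrt h7
        rw [Real.sqrt_mul (by positivity), Real.sqrt_sq h6.le, Real.sqrt_sq (by linarith)] at h8
        exact h8
    have t1 : Tendsto (fun ε : ℝ => √(α * torP Ω) * (φ x - ε)) (𝓝[>] 0)
        (𝓝 (√(α * torP Ω) * (φ x - 0))) := by
      apply tendsto_nhdsWithin_of_tendsto_nhds
      exact Continuous.tendsto (by fun_prop) 0
    have t2 : Tendsto (fun ε : ℝ => w x + ε) (𝓝[>] 0) (𝓝 (w x + 0)) := by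
      apply tendsto_nhdsWithin_of_tendsto_nhds
      exact Continuous.tendsto (by fun_prop) 0
    have := le_of_tendsto_of_tendsto t1 t2 (by
      filter_upwards [self_mem_nhdsWithin] with ε hε
      exact key ε hε)
    simpa using this
  · rw [(h3 hx).1, (h4 hx).1]; simp

end Pool.Agent.Lib.MP_f46d6a
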