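import Pool.Agent.Lib.MP_f46d6a_h64.Exist

/-!
# Positivity of nonnegative solutions, spectral gap
-/

set_option autoImplicit false

open MeasureTheory Set Filter Topology
open scoped ContDiff

namespace Pool.Agent.Lib.MP_f46d6a

open Pool.Agent.Lib.MP_dac83a

namespace M1

variable {U : Set P} {l : ℝ} {v vx vy : P → ℝ}

theorem gkt_test' {ρ R : ℝ} (hρ : 0 < ρ) (hR : ρ ≤ R) {x : P} (hx : Metric.closedBall x R ⊆ U) :
    IsTest1 U (fun z => gk ρ R (z - x)) := by
  have h := gkt_test hρ hR x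
  refine ⟨h.smooth, h.cpt, ?_⟩
  refine (closure_minimal ?_ Metric.isClosed_closedBall).trans hx
  intro z hz
  have h1 : z - x ∈ Function.support (gk ρ R) := hz
  have h2 := gk_support hρ hR h1
  rw [Metric.mem_closedBall, dist_zero_right] at h2
  rw [Metric.mem_closedBall, dist_eq_norm]
  exact h2

/-- monotonicity of averages of superharmonic functions -/
theorem av_mono (hU : IsOpen U) (hl : 0 ≤ l) (h : Eigf U l v vx vy) {x : P} {ρ R : ℝ}
    (hρ : 0 < ρ) (hR : ρ ≤ R) (hx : Metric.closedBall x R ⊆ U) : av R v x ≤ av ρ v x := by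
  have ht := H0.of_C1 hU (gkt_test' hρ hR hx)
  have h1 := h.eq _ _ _ ht
  have h2 := h.mem.test_gk hρ hR x
  simp only [dd_trans] at h1
  rw [h1] at h2
  have h3 : 0 ≤ ∫ z, v z * gk ρ R (z - x) := by
    apply integral_nonneg_of_ae
    filter_upwards [h.nonneg] with z hz
    exact mul_nonneg hz (gk_nonneg hρ hR _)
  have h4 : 0 ≤ l * ∫ z, v z * gk ρ R (z - x) := mul_nonneg hl h3
  unfold av
  linarith

theorem av_le_ae (hU : IsOpen U) (hl : 0 ≤ l) (h : Eigf U l v vx vy) :
    ∀ᵐ x, ∀ R > 0, Metric.closedBall x R ⊆ U → av R v x ≤ mu0 * v x := by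
  obtain ⟨k, hk, hlim⟩ := h.mem.av_lim.1.exists_ae
  filter_upwards [hlim] with x hx R hR hsub
  refine ge_of_tendsto hx ?_
  have t : Tendsto (fun n => (1 / 2 : ℝ) ^ (k n)) atTop (𝓝 0) :=
    (tendsto_pow_atTop_nhds_zero_of_lt_one (by norm_num) (by norm_num)).comp hk.tendsto_atTop
  filter_upwards [t.eventually (ge_mem_nhds hR)] with n hn
  exact av_mono hU hl h (by positivity) hn hsub

/-- points near which `v` vanishes -/
def Zs (v : P → ℝ) : Set P := {y | ∃ δ > 0, ∀ᵐ z, z ∈ Metric.ball y δ → v z = 0}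

/-- points near which `v` is positive -/
def Gs (v : P → ℝ) : Set P := {y | ∃ δ > 0, ∀ᵐ z, z ∈ Metric.ball y δ → 0 < v z}

theorem open_aux {p : P → Prop} :
    IsOpen {y : P | ∃ δ > 0, ∀ᵐ z, z ∈ Metric.ball y δ → p z} := by
  rw [Metric.isOpen_iff]
  rintro y ⟨δ, hδ, h⟩
  refine ⟨δ / 2, by positivity, fun x hx => ⟨δ / 2, by positivity, ?_⟩⟩
  filter_upwards [h] with z hz hzx
  apply hz
  rw [Metric.mem_ball] at *
  calc dist z y ≤ dist z x + dist x y := dist_triangle _ _ _
    _ < δ / 2 + δ / 2 := add_lt_add hzx hx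
    _ = δ := by ring

theorem ae_aux {p : P → Prop} {S : Set P}
    (h : S ⊆ {y : P | ∃ δ > 0, ∀ᵐ z, z ∈ Metric.ball y δ → p z}) : ∀ᵐ z, z ∈ S → p z := by
  rw [ae_iff]
  have e : {a : P | ¬(a ∈ S → p a)} = {a | a ∈ S ∧ ¬ p a} := by ext a; simp
  rw [e]
  apply measure_null_of_locally_null
  rintro y ⟨hy, -⟩
  obtain ⟨δ, hδ, h1⟩ := h hy
  refine ⟨{a | a ∈ S ∧ ¬ p a} ∩ Metric.ball y δ, ?_, ?_⟩
  · exact inter_mem_nhdsWithin _ (Metric.ball_mem_nhds y hδ)
  · rw [ae_iff] at h1
    apply measure_mono_null _ h1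
    rintro a ⟨⟨-, ha⟩, hb⟩
    exact fun hc => ha (hc hb)

theorem disj_aux {y : P} (h1 : y ∈ Zs v) (h2 : y ∈ Gs v) : False := by
  obtain ⟨δ, hδ, h1⟩ := h1
  obtain ⟨δ', hδ', h2⟩ := h2
  have h3 : ∀ᵐ z, z ∉ Metric.ball y (min δ δ') := by
    filter_upwards [h1, h2] with z a1 a2 hz
    have b1 := a1 (Metric.ball_subset_ball (min_le_left _ _) hz)
    have b2 := a2 (Metric.ball_subset_ball (min_le_right _ _) hz)
    linarith
  have h4 : volume (Metric.ball y (min δ δ')) = 0 := by
    rw [ae_iff] at h3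
    simp only [not_not] at h3
    exact h3
  exact (Metric.measure_ball_pos volume y (lt_min hδ hδ')).ne' h4

/-- positivity spreads -/
theorem spread (hU : IsOpen U) (hl : 0 ≤ l) (h : Eigf U l v vx vy) {x y : P} {r : ℝ}
    (hx : Metric.closedBall x (4 * r) ⊆ U) (hxv : x ∉ Zs v) (hne : y ≠ x) (hy : dist y x ≤ r) :
    y ∈ Gs v := by
  have hr : 0 < r := lt_of_lt_of_le (dist_pos.2 hne) hy
  have hne' : x - y ≠ 0 := sub_ne_zero.2 hne.symm
  have hp : 0 < r2 (x - y) := r2_pos hne'
  set R : ℝ := √(r2 (x - y) * Real.exp (1 / 2)) with hR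
  have hR2 : R ^ 2 = r2 (x - y) * Real.exp (1 / 2) := Real.sq_sqrt (by positivity)
  have hRp : 0 < R := Real.sqrt_pos.2 (by positivity)
  have hRle : R ≤ 2 * r := by
    apply le_of_sq_le_sq _ (by positivity)
    rw [hR2]
    have h1 := r2_le_norm_sq (x - y)
    have h2 : ‖x - y‖ ≤ r := by rw [← dist_eq_norm, dist_comm]; exact hy
    have h3 : ‖x - y‖ ^ 2 ≤ r ^ 2 := pow_le_pow_left₀ (norm_nonneg _) h2 2
    have h4 : Real.exp (1 / 2) ≤ 2 := by
      have h5 : Real.exp (1 / 2) ^ 2 = Real.exp 1 := by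
        rw [← Real.exp_nat_mul]; norm_num
      have h6 := Real.exp_one_lt_d9
      by_contra hcon
      push Not at hcon
      have : (2 : ℝ) ^ 2 < Real.exp (1 / 2) ^ 2 := pow_lt_pow_left₀ hcon (by norm_num) (by norm_num)
      linarith
    calc r2 (x - y) * Real.exp (1 / 2) ≤ (2 * ‖x - y‖ ^ 2) * 2 :=
          mul_le_mul h1 h4 (Real.exp_pos _).le (by positivity)
      _ ≤ (2 * r) ^ 2 := by nlinarith
  have hmk : 0 < mker R (x - y) := by
    refine lt_of_lt_of_le (by positivity : 0 < 3 / R ^ 2) (mk_ge hRp ?_ ?_)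
    · rw [hR2, mul_comm, mul_assoc, ← Real.exp_add]
      have : Real.exp (1 / 2 + -(3 / 5)) ≤ 1 := Real.exp_le_one_iff.2 (by norm_num)
      nlinarith
    · rw [hR2, mul_comm, mul_assoc, ← Real.exp_add]
      have : 1 ≤ Real.exp (1 / 2 + -(2 / 5)) := Real.one_le_exp (by norm_num)
      nlinarith
  -- the average at `y` is positive
  have hvi : LocallyIntegrable v volume := h.mem.mu.locallyIntegrable (by norm_num)
  have hcont : Continuous (av R v) := (av_contDiff hRp hvi).continuous
  have hav : 0 < av R v y := by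
    have h0 : 0 ≤ᵐ[volume] fun z => v z * mker R (z - y) := by
      filter_upwards [h.nonneg] with z hz
      exact mul_nonneg hz (mk_nonneg _ _)
    have h1 : 0 ≤ av R v y := integral_nonneg_of_ae h0
    refine lt_of_le_of_ne h1 (fun h2 => hxv ?_)
    have h3 := (integral_eq_zero_iff_of_nonneg_ae h0 (av_int hRp h.mem.mu y)).1 h2.symm
    have hop : IsOpen {z : P | 0 < mker R (z - y)} :=
      isOpen_lt continuous_const ((mk_cont hRp).comp (by fun_prop))
    obtain ⟨δ, hδ, hsub⟩ := Metric.isOpen_iff.1 hop x hmk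
    refine ⟨δ, hδ, ?_⟩
    filter_upwards [h3] with z hz hzb
    have h4 : v z * mker R (z - y) = 0 := hz
    have h5 : 0 < mker R (z - y) := hsub hzb
    exact (mul_eq_zero.1 h4).resolve_right h5.ne'
  obtain ⟨δ, hδ, hsub⟩ := Metric.isOpen_iff.1 (isOpen_lt continuous_const hcont) y hav
  refine ⟨min δ r, lt_min hδ hr, ?_⟩
  filter_upwards [av_le_ae hU hl h] with z hz hzb
  have h6 : 0 < av R v z := hsub (Metric.ball_subset_ball (min_le_left _ _) hzb)
  have h7 : Metric.closedBall z R ⊆ U := by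
    refine Subset.trans ?_ hx
    apply Metric.closedBall_subset_closedBall'
    have h8 : dist z y < r := (Metric.mem_ball.1 hzb).trans_le (min_le_right _ _)
    have h9 := dist_triangle z y x
    linarith
  have h10 := hz R hRp h7
  have h11 := mu0_pos
  by_contra hcon
  push Not at hcon
  nlinarith

end M1

open M1

/-- strong maximum principle -/
theorem eig_pos {U : Set P} (hU : IsOpen U) (hc : IsPreconnected U) (hf : volume U ≠ ⊤) {l : ℝ}
    (hl : 0 ≤ l) {v vx vy : P → ℝ} (h : Eigf U l v vx vy)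
    (hne : ¬ v =ᵐ[volume] fun _ => (0 : ℝ)) : ∀ᵐ z, z ∈ U → 0 < v z := by
  have hZ : IsOpen (Zs v) := open_aux
  have hG : IsOpen (Gs v) := open_aux
  have hcov : U ⊆ Zs v ∪ Gs v := by
    intro x hx
    by_cases hxZ : x ∈ Zs v
    · exact Or.inl hxZ
    · right
      obtain ⟨r1, hr1, hsub⟩ := Metric.isOpen_iff.1 hU x hx
      set r := r1 / 16 with hr
      have hrp : 0 < r := by positivity
      have hs : Metric.closedBall x (8 * r) ⊆ U := by
        refine (Metric.closedBall_subset_ball ?_).trans hsub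
        rw [hr]; linarith
      set z : P := x + (r, 0) with hz
      have hzx : z ≠ x := by
        intro he
        have : (r, (0 : ℝ)) = (0 : P) := by simpa [hz] using he
        have := congrArg Prod.fst this
        simp only [Prod.fst_zero] at this
        linarith
      have hd : dist z x ≤ r := by
        rw [hz, dist_eq_norm, add_sub_cancel_left, Prod.norm_def]
        simp [abs_of_pos hrp, hrp.le]
      have hzG : z ∈ Gs v := spread hU hl h
        ((Metric.closedBall_subset_closedBall (by linarith)).trans hs) hxZ hzx hd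
      have hzZ : z ∉ Zs v := fun h1 => disj_aux h1 hzG
      refine spread hU hl h (x := z) (y := x) (r := r) ?_ hzZ hzx.symm (by rw [dist_comm]; exact hd)
      refine Subset.trans ?_ hs
      apply Metric.closedBall_subset_closedBall'
      linarith
  by_cases h1 : (U ∩ Zs v).Nonempty
  · by_cases h2 : (U ∩ Gs v).Nonempty
    · obtain ⟨y, -, hy1, hy2⟩ := hc _ _ hZ hG hcov h1 h2
      exact (disj_aux hy1 hy2).elim
    · exfalso
      apply hne
      have h3 : U ⊆ Zs v := by
        intro x hx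
        rcases hcov hx with h4 | h4
        · exact h4
        · exact (h2 ⟨x, hx, h4⟩).elim
      have h4 : ∀ᵐ z, z ∈ U → v z = 0 := ae_aux h3
      filter_upwards [h4, h.mem.zero_off] with z hz1 hz2
      by_cases hz : z ∈ U
      · exact hz1 hz
      · exact (hz2 hz).1
  · have h3 : U ⊆ Gs v := by
      intro x hx
      rcases hcov hx with h4 | h4
      · exact (h1 ⟨x, hx, h4⟩).elim
      · exact h4
    exact ae_aux h3

/-- the first eigenvalue is simple, with a gap -/
theorem gap {U : Set P} (hU : IsOpen U) (hne : U.Nonempty) (hc : IsPreconnected U)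
    (hf : volume U ≠ ⊤) {φ φx φy : P → ℝ}
    (h : Eigf U (lamP U) φ φx φy) (hn : ∫ z, φ z ^ 2 = 1) :
    ∃ γ > 0, ∀ v a b, H0 U v a b → ∫ z, v z * φ z = 0 →
      (lamP U + γ) * ∫ z, v z ^ 2 ≤ ∫ z, (a z ^ 2 + b z ^ 2) := by
  have hlam := lamP_pos hU hne hf
  by_contra hcon
  push Not at hcon
  have key : ∀ n : ℕ, ∃ v c d, H0 U v c d ∧ ∫ z, v z ^ 2 = 1 ∧ ∫ z, v z * φ z = 0 ∧
      ∫ z, (c z ^ 2 + d z ^ 2) ≤ lamP U + 1 / ((n : ℝ) + 1) := by
    intro n
    obtain ⟨v, a, b, h1, h2, h3⟩ := hcon (1 / ((n : ℝ) + 1)) (by positivity)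
    have hE : 0 ≤ ∫ z, (a z ^ 2 + b z ^ 2) := integral_nonneg fun z => by positivity
    have hN : 0 ≤ ∫ z, v z ^ 2 := integral_nonneg fun z => by positivity
    have hp : 0 < ∫ z, v z ^ 2 := by
      rcases hN.lt_or_eq with h4 | h4
      · exact h4
      · rw [← h4] at h3
        linarith
    obtain ⟨v', c, d, g1, g2, g3, g4⟩ := normalise h1 hp
    refine ⟨v', c, d, g1, g2, ?_, ?_⟩
    · have e : ∀ z, v' z * φ z = (√(∫ z, v z ^ 2))⁻¹ * (v z * φ z) := by
        intro z; rw [g4]; ring
      simp only [e]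
      rw [integral_const_mul, h2, mul_zero]
    · rw [g3, div_le_iff₀ hp]
      exact h3.le
  choose v c d h1 h2 h3 h4 using key
  obtain ⟨k, hk, u, a, b, hu, hcv, h5, h6⟩ := min_seq hU hne hf h1 h2 h4
  have h7 : ∫ z, u z * φ z = 0 := by
    have t := hcv.integral_mul (Conv2.const h.mem.mu)
    simp only [h3] at t
    exact (tendsto_nhds_unique t tendsto_const_nhds)
  have hmin : ∫ z, (a z ^ 2 + b z ^ 2) ≤ lamP U * ∫ z, u z ^ 2 := by rw [h5, h6, mul_one]
  have hw := weak_of_min hu hmin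
  have ha := eigf_abs hU hu hmin
  have hφpos : ∀ᵐ z, z ∈ U → 0 < φ z := by
    apply eig_pos hU hc hf hlam.le h
    intro h0
    have : ∫ z, φ z ^ 2 = 0 := by
      rw [integral_eq_zero_of_ae]
      filter_upwards [h0] with z hz
      have : φ z = 0 := hz
      simp [this]
    linarith
  -- the positive and negative parts
  have hpm : ∀ s : ℝ, (s = 1 / 2 ∨ s = -1 / 2) → ¬ ((fun z => 1 / 2 * |u z| + s * u z) =ᵐ[volume] fun _ => (0 : ℝ)) →
      ∀ᵐ z, z ∈ U → 0 < 1 / 2 * |u z| + s * u z := by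
    intro s hs hne0
    refine eig_pos hU hc hf hlam.le (v := fun z => 1 / 2 * |u z| + s * u z) ⟨ha.mem.comb hu (1 / 2) s, ?_, ?_⟩ hne0
    · intro η ηx ηy hη
      rw [en2_comb ha.mem hu hη, nm2_comb ha.mem hu hη, ha.eq _ _ _ hη, hw _ _ _ hη]
      ring
    · filter_upwards with z
      have e1 := le_abs_self (u z)
      have e2 := neg_abs_le (u z)
      rcases hs with rfl | rfl <;> linarith
  have hun : ¬ (u =ᵐ[volume] fun _ => (0 : ℝ)) := by
    intro h0
    have : ∫ z, u z ^ 2 = 0 := by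
      rw [integral_eq_zero_of_ae]
      filter_upwards [h0] with z hz
      have : u z = 0 := hz
      simp [this]
    linarith
  have hoff := hu.zero_off
  have hint : Integrable (fun z => u z * φ z) := integrable_mul2 hu.mu h.mem.mu
  by_cases hp1 : (fun z => 1 / 2 * |u z| + 1 / 2 * u z) =ᵐ[volume] fun _ => (0 : ℝ)
  · by_cases hp2 : (fun z => 1 / 2 * |u z| + (-1 / 2) * u z) =ᵐ[volume] fun _ => (0 : ℝ)
    · apply hun
      filter_upwards [hp1, hp2] with z z1 z2
      have a1 : 1 / 2 * |u z| + 1 / 2 * u z = 0 := z1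
      have a2 : 1 / 2 * |u z| + (-1 / 2) * u z = 0 := z2
      linarith
    · have h8 := hpm (-1 / 2) (Or.inr rfl) hp2
      have h9 : 0 ≤ᵐ[volume] fun z => -(u z * φ z) := by
        filter_upwards [h8, hφpos, hoff] with z z1 z2 z3
        show 0 ≤ -(u z * φ z)
        by_cases hz : z ∈ U
        · have a1 := z1 hz
          have a2 := z2 hz
          have a3 : u z < 0 := by
            by_contra hcc
            push Not at hcc
            rw [abs_of_nonneg hcc] at a1
            linarith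
          nlinarith
        · rw [(z3 hz).1]; simp
      have h10 : ∫ z, -(u z * φ z) = 0 := by rw [integral_neg, h7, neg_zero]
      have h11 := (integral_eq_zero_iff_of_nonneg_ae h9 hint.neg).1 h10
      apply hun
      filter_upwards [h11, hφpos, hoff] with z z1 z2 z3
      by_cases hz : z ∈ U
      · have a1 : -(u z * φ z) = 0 := z1
        have a2 := z2 hz
        have a3 : u z * φ z = 0 := by linarith
        exact (mul_eq_zero.1 a3).resolve_right a2.ne'
      · exact (z3 hz).1
  · have h8 := hpm (1 / 2) (Or.inl rfl) hp1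
    have h9 : 0 ≤ᵐ[volume] fun z => u z * φ z := by
      filter_upwards [h8, hφpos, hoff] with z z1 z2 z3
      show 0 ≤ u z * φ z
      by_cases hz : z ∈ U
      · have a1 := z1 hz
        have a2 := z2 hz
        have a3 : 0 < u z := by
          by_contra hcc
          push Not at hcc
          rw [abs_of_nonpos hcc] at a1
          linarith
        positivity
      · rw [(z3 hz).1]; simp
    have h11 := (integral_eq_zero_iff_of_nonneg_ae h9 hint).1 h7
    apply hun
    filter_upwards [h11, hφpos, hoff] with z z1 z2 z3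
    by_cases hz : z ∈ U
    · have a1 : u z * φ z = 0 := z1
      have a2 := z2 hz
      exact (mul_eq_zero.1 a1).resolve_right a2.ne'
    · exact (z3 hz).1

end Pool.Agent.Lib.MP_f46d6a
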